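import Pool.Agent.Helper34.GibbsSum

set_option autoImplicit false

namespace Pool.Agent.Helper34

open Finset

section

variable {α : Type*} [DecidableEq α]
variable {V : Finset α} {F : Finset (Finset α)} {lam : ℝ} {b : Finset α → ℝ}

theorem lamL_nonneg (hl : 0 ≤ lam) (hb : ∀ M ∈ F, 0 ≤ b M) {L : Finset α} (hL : L ∈ F) (v : α)
    (W : Finset α) : 0 ≤ lamL lam b F L v W := by
  unfold lamL
  have h1 := Yf_ge_one (F := F) (b := b) hl L (L.erase v) W
  apply Real.log_nonneg
  rw [le_div_iff₀ (by linarith), one_mul]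
  unfold Zf Yf
  have h2 := om_nonneg (F := F) (b := b) hl L (L.erase v) W
  have h3 := mul_nonneg (Real.exp_pos (-b L)).le (sq_nonneg' (F := F) (b := b) hl L (L.erase v) W)
  have h4 : Real.exp (-b L) ≤ 1 := Real.exp_le_one_iff.mpr (by linarith [hb L hL])
  nlinarith

theorem Lam_nonneg (hl : 0 ≤ lam) (hb : ∀ M ∈ F, 0 ≤ b M) (v : α) (W : Finset α) :
    0 ≤ Lam lam b F v W := by
  unfold Lam
  exact Finset.sum_nonneg fun L hL => lamL_nonneg hl hb (Finset.mem_of_mem_filter L hL) v W

theorem expect_exp (h : LinSpace V F) (hl : 0 ≤ lam) (hb : ∀ M ∈ F, 0 ≤ b M) {v : α}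
    (hv : v ∈ V) :
    lam * ∑ W ∈ V.powerset, pw lam b F W * Real.exp (-Lam lam b F v W)
      ≤ (1 + lam) * ∑ W ∈ V.powerset with v ∈ W, pw lam b F W := by
  have h1 := point_identity (b := b) h hl hv (fun _ => 1)
  simp only [mul_one] at h1
  have h2 : ∑ W ∈ V.powerset, pw lam b F W * Real.exp (-Lam lam b F v W)
      = ∑ W ∈ V.powerset with v ∈ W, pw lam b F W * Real.exp (-Lam lam b F v W)
        + ∑ W ∈ V.powerset with v ∉ W, pw lam b F W * Real.exp (-Lam lam b F v W) :=
    (Finset.sum_filter_add_sum_filter_not _ _ _).symm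
  have h3 : ∑ W ∈ V.powerset with v ∈ W, pw lam b F W * Real.exp (-Lam lam b F v W)
      ≤ ∑ W ∈ V.powerset with v ∈ W, pw lam b F W := by
    refine Finset.sum_le_sum fun W _ => ?_
    have h4 : Real.exp (-Lam lam b F v W) ≤ 1 :=
      Real.exp_le_one_iff.mpr (by linarith [Lam_nonneg (lam := lam) hl hb v W])
    have h5 := pw_nonneg hl b F W
    nlinarith
  rw [h2, mul_add, ← h1]
  nlinarith

theorem expect_Lam (h : LinSpace V F) (hl : 0 ≤ lam) {v : α}
    (hv : v ∈ V) (t : ℝ) :
    ∑ W ∈ V.powerset with v ∈ W, pw lam b F W * Lam lam b F v W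
      ≤ t * (∑ W ∈ V.powerset with v ∈ W, pw lam b F W)
        + lam * Real.exp (-t) * ∑ W ∈ V.powerset, pw lam b F W := by
  have h1 := point_identity (b := b) h hl hv (fun x => max (x - t) 0)
  have h2 : ∑ W ∈ V.powerset with v ∈ W, pw lam b F W * Lam lam b F v W
      ≤ t * (∑ W ∈ V.powerset with v ∈ W, pw lam b F W)
        + ∑ W ∈ V.powerset with v ∈ W, pw lam b F W * max (Lam lam b F v W - t) 0 := by
    rw [Finset.mul_sum, ← Finset.sum_add_distrib]
    refine Finset.sum_le_sum fun W _ => ?_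
    have h5 := pw_nonneg hl b F W
    have h6 := le_max_left (Lam lam b F v W - t) 0
    nlinarith
  refine h2.trans ?_
  rw [h1]
  have h3 : ∑ W ∈ V.powerset with v ∉ W, pw lam b F W * Real.exp (-Lam lam b F v W)
      * max (Lam lam b F v W - t) 0 ≤ Real.exp (-t) * ∑ W ∈ V.powerset, pw lam b F W := by
    rw [Finset.mul_sum]
    refine (Finset.sum_le_sum_of_subset_of_nonneg (Finset.filter_subset _ _) ?_).trans
      (Finset.sum_le_sum fun W _ => ?_)
    · intro W _ _
      have h5 := pw_nonneg hl b F W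
      positivity
    · have h5 := pw_nonneg hl b F W
      have h6 : Real.exp (-Lam lam b F v W) * max (Lam lam b F v W - t) 0 ≤ Real.exp (-t) := by
        rcases le_total (Lam lam b F v W - t) 0 with h7 | h7
        · rw [max_eq_right h7, mul_zero]
          positivity
        · rw [max_eq_left h7]
          have h8 : Lam lam b F v W - t ≤ Real.exp (Lam lam b F v W - t) := by
            linarith [Real.add_one_le_exp (Lam lam b F v W - t)]
          have h9 : Real.exp (-t) = Real.exp (-Lam lam b F v W)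
              * Real.exp (Lam lam b F v W - t) := by
            rw [← Real.exp_add]
            congr 1
            ring
          rw [h9]
          exact mul_le_mul_of_nonneg_left h8 (Real.exp_pos _).le
      calc pw lam b F W * Real.exp (-Lam lam b F v W) * max (Lam lam b F v W - t) 0
          = pw lam b F W * (Real.exp (-Lam lam b F v W) * max (Lam lam b F v W - t) 0) := by ring
        _ ≤ pw lam b F W * Real.exp (-t) := mul_le_mul_of_nonneg_left h6 h5
        _ = Real.exp (-t) * pw lam b F W := by ring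
  have h4 := mul_le_mul_of_nonneg_left h3 hl
  linarith

theorem indep_of_pw_ne_zero {W : Finset α} (hW : pw lam b F W ≠ 0) :
    ∀ L ∈ F, (L ∩ W).card ≤ 2 := by
  intro L hL
  by_contra hcon
  apply hW
  unfold pw
  rw [Finset.prod_eq_zero hL (psi_ge _ _ (by omega)), mul_zero]

theorem pw_of_indep {W : Finset α} (hW : ∀ L ∈ F, (L ∩ W).card ≤ 2) :
    pw lam b F W = lam ^ W.card
      * Real.exp (-∑ L ∈ F, b L * (if (L ∩ W).card = 2 then (1 : ℝ) else 0)) := by
  unfold pw
  congr 1
  rw [← Finset.sum_neg_distrib, Real.exp_sum]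
  refine Finset.prod_congr rfl fun L hL => ?_
  have := hW L hL
  split_ifs with h2
  · rw [h2, psi_two, mul_one]
  · rw [mul_zero, neg_zero, Real.exp_zero]
    unfold psi
    rw [if_pos (by omega)]

theorem sum_swap (f : α → Finset α → ℝ) :
    ∑ v ∈ V, ∑ W ∈ V.powerset with v ∈ W, f v W = ∑ W ∈ V.powerset, ∑ v ∈ W, f v W := by
  refine Finset.sum_comm' ?_
  intro v W
  simp only [mem_filter, mem_powerset]
  constructor
  · rintro ⟨_, h2, h3⟩
    exact ⟨h3, h2⟩
  · rintro ⟨h1, h2⟩
    exact ⟨h2 h1, h2, h1⟩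

end

theorem theoremA (C : ℝ) (hC : 0 ≤ C) : ∃ c : ℝ, 0 < c ∧
    ∀ (α : Type) [DecidableEq α] (V : Finset α) (F : Finset (Finset α)) (K : ℝ),
      LinSpace V F → 3 ≤ K → (∀ L ∈ F, (L.card : ℝ) ≤ K) →
      (∀ v ∈ V, ∑ L ∈ F with v ∈ L, (L.card : ℝ) ^ 2 ≤ C * K ^ 2 * Real.log K) →
      ∃ W ⊆ V, (∀ L ∈ F, (L ∩ W).card ≤ 2) ∧ c * V.card / K ≤ W.card := by
  classical
  obtain ⟨c, hcdef⟩ : ∃ c : ℝ, c = min (1 / 250) (1 / (20 + 4 * C)) := ⟨_, rfl⟩
  have hc0 : 0 < c := by rw [hcdef]; positivity
  have hc1 : c ≤ 1 / 250 := hcdef ▸ min_le_left _ _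
  have hc2 : c * (20 + 4 * C) ≤ 1 := by
    have : c ≤ 1 / (20 + 4 * C) := hcdef ▸ min_le_right _ _
    rwa [le_div_iff₀ (by positivity)] at this
  refine ⟨c, hc0, ?_⟩
  intro α _ V F K h hK hsize hdeg
  by_contra hcon
  push Not at hcon
  have hK0 : 0 < K := by linarith
  obtain ⟨N, hN⟩ : ∃ N : ℝ, N = V.card := ⟨_, rfl⟩
  have hN0' : 0 ≤ N := by rw [hN]; positivity
  obtain ⟨M, hM⟩ : ∃ M : ℝ, M = c * N / K := ⟨_, rfl⟩
  have hMpos : 0 < M := by
    have h1 := hcon ∅ (Finset.empty_subset _) (fun L _ => by simp)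
    rw [Finset.card_empty, ← hN, ← hM] at h1
    simpa using h1
  have hNpos : 0 < N := by
    rcases hN0'.lt_or_eq with h1 | h1
    · exact h1
    · rw [hM, ← h1] at hMpos
      simp at hMpos
  obtain ⟨lam, hlam⟩ : ∃ lam : ℝ, lam = 1 / 250 := ⟨_, rfl⟩
  have hl0 : 0 ≤ lam := by rw [hlam]; norm_num
  have hlpos : 0 < lam := by rw [hlam]; norm_num
  obtain ⟨b, hbdef⟩ : ∃ b : Finset α → ℝ, b = fun L => (L.card : ℝ) / K := ⟨_, rfl⟩
  have hbL : ∀ L : Finset α, b L = (L.card : ℝ) / K := fun L => by rw [hbdef]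
  have hb : ∀ L ∈ F, 0 ≤ b L := fun L _ => by rw [hbL]; positivity
  clear hbdef
  obtain ⟨t, ht⟩ : ∃ t : ℝ, t = Real.log (lam * K / c) := ⟨_, rfl⟩
  have hexpt : lam * Real.exp (-t) = c / K := by
    rw [ht, Real.exp_neg, Real.exp_log (by positivity)]
    field_simp
  have hlogK : 1 ≤ Real.log K := by
    rw [Real.le_log_iff_exp_le hK0]
    linarith [Real.exp_one_lt_d9]
  have htK : Real.log K ≤ t := by
    rw [ht]
    apply Real.log_le_log hK0
    rw [le_div_iff₀ hc0]
    nlinarith
  -- partition function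
  obtain ⟨Z, hZ⟩ : ∃ Z : ℝ, Z = ∑ W ∈ V.powerset, pw lam b F W := ⟨_, rfl⟩
  have hZ1 : 1 ≤ Z := by
    have h1 : pw lam b F ∅ = 1 := by
      unfold pw
      simp [psi_zero]
    rw [hZ, ← h1]
    exact Finset.single_le_sum (f := fun W => pw lam b F W)
      (fun W _ => pw_nonneg hl0 _ _ _) (Finset.empty_mem_powerset _)
  have hZ0 : 0 < Z := by linarith
  -- size of configurations
  have hsz : ∀ W ∈ V.powerset, pw lam b F W * (W.card : ℝ) ≤ pw lam b F W * M := by
    intro W hW
    rw [mem_powerset] at hW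
    by_cases h0 : pw lam b F W = 0
    · rw [h0]; simp
    · refine mul_le_mul_of_nonneg_left ?_ (pw_nonneg hl0 _ _ _)
      have := hcon W hW (indep_of_pw_ne_zero h0)
      rw [← hN, ← hM] at this
      exact this.le
  have hEW : ∑ W ∈ V.powerset, pw lam b F W * (W.card : ℝ) ≤ M * Z := by
    rw [hZ, Finset.mul_sum]
    refine (Finset.sum_le_sum hsz).trans (le_of_eq ?_)
    exact Finset.sum_congr rfl fun W _ => mul_comm _ _
  have hcardsum : ∑ v ∈ V, ∑ W ∈ V.powerset with v ∈ W, pw lam b F W
      = ∑ W ∈ V.powerset, pw lam b F W * (W.card : ℝ) := by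
    rw [sum_swap]
    refine Finset.sum_congr rfl fun W _ => ?_
    rw [Finset.sum_const, nsmul_eq_mul, mul_comm]
  -- total Lambda
  obtain ⟨R, hR⟩ : ∃ R : ℝ, R = (∑ v ∈ V, ∑ W ∈ V.powerset,
      pw lam b F W * Lam lam b F v W) / (N * Z) := ⟨_, rfl⟩
  have hRe : ∑ v ∈ V, ∑ W ∈ V.powerset, pw lam b F W * Lam lam b F v W = R * (N * Z) := by
    rw [hR]
    field_simp
  -- (A1)
  have hA1 : lam * (N * Z * Real.exp (-R)) ≤ (1 + lam) * (M * Z) := by
    have h1 : N * Z * Real.exp (-R) ≤ ∑ v ∈ V, ∑ W ∈ V.powerset,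
        pw lam b F W * Real.exp (-Lam lam b F v W) := by
      have h2 : ∀ v ∈ V, ∀ W ∈ V.powerset,
          pw lam b F W * (Real.exp (-R) * (1 + R)) - Real.exp (-R) *
            (pw lam b F W * Lam lam b F v W)
          ≤ pw lam b F W * Real.exp (-Lam lam b F v W) := by
        intro v _ W _
        have h3 : Real.exp (-R) * (1 + (R - Lam lam b F v W))
            ≤ Real.exp (-Lam lam b F v W) := by
          have h4 : Real.exp (-Lam lam b F v W) = Real.exp (-R)
              * Real.exp (R - Lam lam b F v W) := by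
            rw [← Real.exp_add]; congr 1; ring
          rw [h4]
          refine mul_le_mul_of_nonneg_left ?_ (Real.exp_pos _).le
          linarith [Real.add_one_le_exp (R - Lam lam b F v W)]
        have h5 := mul_le_mul_of_nonneg_left h3 (pw_nonneg hl0 b F W)
        linarith
      have h3 : ∑ v ∈ V, ∑ W ∈ V.powerset,
          (pw lam b F W * (Real.exp (-R) * (1 + R)) - Real.exp (-R) *
            (pw lam b F W * Lam lam b F v W)) = N * Z * Real.exp (-R) := by
        simp only [Finset.sum_sub_distrib, ← Finset.sum_mul, ← Finset.mul_sum]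
        rw [hRe, ← hZ, Finset.sum_const, nsmul_eq_mul, ← hN]
        ring
      rw [← h3]
      exact Finset.sum_le_sum fun v hv => Finset.sum_le_sum fun W hW => h2 v hv W hW
    have h2 : lam * ∑ v ∈ V, ∑ W ∈ V.powerset, pw lam b F W * Real.exp (-Lam lam b F v W)
        ≤ (1 + lam) * ∑ v ∈ V, ∑ W ∈ V.powerset with v ∈ W, pw lam b F W := by
      rw [Finset.mul_sum, Finset.mul_sum]
      exact Finset.sum_le_sum fun v hv => expect_exp h hl0 hb hv
    rw [hcardsum] at h2
    have h3 := mul_le_mul_of_nonneg_left h1 hl0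
    have h4 := mul_le_mul_of_nonneg_left hEW (by linarith : 0 ≤ 1 + lam)
    linarith
  -- (A2)
  have hA2 : ∑ v ∈ V, ∑ W ∈ V.powerset with v ∈ W, pw lam b F W * Lam lam b F v W
      ≤ M * Z * (t + 1) := by
    have h1 : ∑ v ∈ V, ∑ W ∈ V.powerset with v ∈ W, pw lam b F W * Lam lam b F v W
        ≤ ∑ v ∈ V, (t * (∑ W ∈ V.powerset with v ∈ W, pw lam b F W)
        + lam * Real.exp (-t) * ∑ W ∈ V.powerset, pw lam b F W) :=
      Finset.sum_le_sum fun v hv => expect_Lam h hl0 hv t
    rw [Finset.sum_add_distrib, ← Finset.mul_sum, hcardsum, Finset.sum_const, nsmul_eq_mul,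
      ← hN, ← hZ, hexpt] at h1
    have h2 : N * (c / K * Z) = M * Z := by rw [hM]; ring
    rw [h2] at h1
    have h3 : t * ∑ W ∈ V.powerset, pw lam b F W * (W.card : ℝ) ≤ t * (M * Z) :=
      mul_le_mul_of_nonneg_left hEW (by linarith)
    linarith
  -- energy
  obtain ⟨H, hH⟩ : ∃ H : Finset α → ℝ, H = fun W =>
      ∑ L ∈ F, b L * (if (L ∩ W).card = 2 then (1 : ℝ) else 0) := ⟨_, rfl⟩
  have hA5 : ∑ W ∈ V.powerset, pw lam b F W * H W ≤ Z * (M * (t + 1)) := by
    obtain ⟨hh, hhd⟩ : ∃ hh : ℝ, hh = (∑ W ∈ V.powerset, pw lam b F W * H W) / Z := ⟨_, rfl⟩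
    have hhe : ∑ W ∈ V.powerset, pw lam b F W * H W = hh * Z := by
      rw [hhd]; field_simp
    obtain ⟨Z0, hZ0d⟩ : ∃ Z0 : ℝ, Z0 = ∑ W ∈ V.powerset with (∀ L ∈ F, (L ∩ W).card ≤ 2),
        lam ^ W.card := ⟨_, rfl⟩
    have h1 : Real.exp hh ≤ Z0 := by
      have h2 : ∀ W ∈ V.powerset, Real.exp hh * (1 - hh) * pw lam b F W
          + Real.exp hh * (pw lam b F W * H W)
          ≤ if (∀ L ∈ F, (L ∩ W).card ≤ 2) then lam ^ W.card else 0 := by
        intro W _
        split_ifs with hind
        · have h3 : lam ^ W.card = pw lam b F W * Real.exp (H W) := by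
            rw [pw_of_indep hind, hH, mul_assoc, ← Real.exp_add]
            simp
          rw [h3]
          have h4 : Real.exp hh * (1 + (H W - hh)) ≤ Real.exp (H W) := by
            have h5 : Real.exp (H W) = Real.exp hh * Real.exp (H W - hh) := by
              rw [← Real.exp_add]; congr 1; ring
            rw [h5]
            refine mul_le_mul_of_nonneg_left ?_ (Real.exp_pos _).le
            linarith [Real.add_one_le_exp (H W - hh)]
          have h5 := mul_le_mul_of_nonneg_left h4 (pw_nonneg hl0 b F W)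
          linarith
        · have h3 : pw lam b F W = 0 := by
            by_contra h0
            exact hind (indep_of_pw_ne_zero h0)
          rw [h3]
          simp
      have h3 := Finset.sum_le_sum h2
      rw [Finset.sum_add_distrib, ← Finset.mul_sum, ← Finset.mul_sum, hhe, ← hZ,
        ← Finset.sum_filter, ← hZ0d] at h3
      have h4 : Real.exp hh * (1 - hh) * Z + Real.exp hh * (hh * Z) = Real.exp hh * Z := by ring
      rw [h4] at h3
      have h5 := Real.exp_pos hh
      nlinarith
    have h2 : Z0 ≤ Real.exp (M * (t + 1)) := by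
      have h3 : Z0 ≤ ∑ W ∈ V.powerset, Real.exp (t * M) * (c / K) ^ W.card := by
        rw [hZ0d, Finset.sum_filter]
        refine Finset.sum_le_sum fun W hW => ?_
        rw [mem_powerset] at hW
        split_ifs with hind
        · have h4 := (hcon W hW hind).le
          rw [← hN, ← hM] at h4
          have h5 : Real.exp (t * M) * (c / K) ^ W.card
              = lam ^ W.card * Real.exp (t * (M - W.card)) := by
            rw [← hexpt, mul_pow, ← Real.exp_nat_mul]
            have : Real.exp (t * (M - W.card)) = Real.exp (t * M)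
                * Real.exp (W.card * -t) := by
              rw [← Real.exp_add]; congr 1; ring
            rw [this]; ring
          rw [h5]
          have h6 : 1 ≤ Real.exp (t * (M - W.card)) := by
            apply Real.one_le_exp
            apply mul_nonneg <;> linarith
          have h7 : 0 ≤ lam ^ W.card := by positivity
          nlinarith
        · positivity
      rw [← Finset.mul_sum] at h3
      have h4 : ∑ W ∈ V.powerset, (c / K) ^ W.card = (c / K + 1) ^ V.card := by
        rw [← Finset.sum_pow_mul_eq_add_pow]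
        refine Finset.sum_congr rfl fun W _ => ?_
        simp
      rw [h4] at h3
      have h5 : (c / K + 1) ^ V.card ≤ Real.exp M := by
        have h6 : c / K + 1 ≤ Real.exp (c / K) := Real.add_one_le_exp _
        have h7 : (c / K + 1) ^ V.card ≤ Real.exp (c / K) ^ V.card :=
          pow_le_pow_left₀ (by positivity) h6 _
        rw [← Real.exp_nat_mul, ← hN] at h7
        have h8 : N * (c / K) = M := by rw [hM]; ring
        rwa [h8] at h7
      have h6 : Real.exp (M * (t + 1)) = Real.exp (t * M) * Real.exp M := by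
        rw [← Real.exp_add]; congr 1; ring
      rw [h6]
      exact h3.trans (mul_le_mul_of_nonneg_left h5 (Real.exp_pos _).le)
    have h3 : hh ≤ M * (t + 1) := Real.exp_le_exp.mp (h1.trans h2)
    rw [hhe]
    nlinarith
  -- (A4)
  have hswap1 : ∑ v ∈ V, ∑ W ∈ V.powerset, pw lam b F W * Lam lam b F v W
      = ∑ L ∈ F, ∑ W ∈ V.powerset, pw lam b F W * ∑ v ∈ L, lamL lam b F L v W := by
    have h1 : ∑ v ∈ V, ∑ W ∈ V.powerset, pw lam b F W * Lam lam b F v W
        = ∑ v ∈ V, ∑ L ∈ F with v ∈ L, ∑ W ∈ V.powerset,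
          pw lam b F W * lamL lam b F L v W := by
      refine Finset.sum_congr rfl fun v _ => ?_
      rw [Finset.sum_comm]
      refine Finset.sum_congr rfl fun W _ => ?_
      unfold Lam
      rw [Finset.mul_sum]
    rw [h1]
    rw [Finset.sum_comm' (t' := F) (s' := fun L => L)]
    · refine Finset.sum_congr rfl fun L _ => ?_
      rw [Finset.sum_comm]
      refine Finset.sum_congr rfl fun W _ => ?_
      rw [Finset.mul_sum]
    · intro v L
      simp only [mem_filter]
      constructor
      · rintro ⟨_, h2, h3⟩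
        exact ⟨h3, h2⟩
      · rintro ⟨h2, h3⟩
        exact ⟨h.sub L h3 h2, h3, h2⟩
  have hswap2 : ∑ v ∈ V, ∑ W ∈ V.powerset with v ∈ W, pw lam b F W * Lam lam b F v W
      = ∑ L ∈ F, ∑ W ∈ V.powerset, pw lam b F W * ∑ v ∈ L ∩ W, lamL lam b F L v W := by
    rw [sum_swap, Finset.sum_comm (s := F)]
    refine Finset.sum_congr rfl fun W hW => ?_
    rw [mem_powerset] at hW
    rw [← Finset.mul_sum, ← Finset.mul_sum]
    congr 1
    unfold Lam
    rw [Finset.sum_comm' (t' := F) (s' := fun L => L ∩ W)]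
    intro v L
    simp only [mem_filter, mem_inter]
    tauto
  have hA4 : R * (N * Z) ≤ (5 / 2) * K * (M * Z * (t + 1))
      + 2 * (C * K * Real.log K) * (M * Z) + (5 / 2) * K * (Z * (M * (t + 1))) := by
    rw [← hRe, hswap1]
    have h1 : ∑ L ∈ F, ∑ W ∈ V.powerset, pw lam b F W * ∑ v ∈ L, lamL lam b F L v W
        ≤ ∑ L ∈ F, ((5 / 2) * K * (∑ W ∈ V.powerset, pw lam b F W
            * ∑ v ∈ L ∩ W, lamL lam b F L v W)
          + 2 * b L * L.card * (∑ W ∈ V.powerset, pw lam b F W * ((L ∩ W).card : ℝ))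
          + (5 / 2) * L.card * (∑ W ∈ V.powerset,
            pw lam b F W * (if (L ∩ W).card = 2 then (1 : ℝ) else 0))) := by
      refine Finset.sum_le_sum fun L hL => ?_
      exact line_expect h hl0 (le_of_eq hlam) hb hL (hsize L hL)
    rw [Finset.sum_add_distrib, Finset.sum_add_distrib, ← Finset.mul_sum, ← hswap2] at h1
    have h2 : ∑ L ∈ F, 2 * b L * L.card * (∑ W ∈ V.powerset, pw lam b F W * ((L ∩ W).card : ℝ))
        ≤ 2 * (C * K * Real.log K) * (M * Z) := by
      have h3 : ∑ L ∈ F, 2 * b L * L.card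
          * (∑ W ∈ V.powerset, pw lam b F W * ((L ∩ W).card : ℝ))
          = ∑ W ∈ V.powerset, pw lam b F W * ((2 / K) * ∑ v ∈ W, ∑ L ∈ F with v ∈ L,
            (L.card : ℝ) ^ 2) := by
        simp only [Finset.mul_sum]
        rw [Finset.sum_comm]
        refine Finset.sum_congr rfl fun W hW => ?_
        rw [mem_powerset] at hW
        rw [Finset.sum_comm' (t' := F) (s' := fun L => L ∩ W)]
        · refine Finset.sum_congr rfl fun L _ => ?_
          rw [Finset.sum_const, nsmul_eq_mul, hbL L]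
          ring
        · intro v L
          simp only [mem_filter, mem_inter]
          tauto
      rw [h3]
      have h4 : ∀ W ∈ V.powerset, pw lam b F W * ((2 / K) * ∑ v ∈ W, ∑ L ∈ F with v ∈ L,
            (L.card : ℝ) ^ 2)
          ≤ 2 * (C * K * Real.log K) * (pw lam b F W * (W.card : ℝ)) := by
        intro W hW
        rw [mem_powerset] at hW
        have h5 : ∑ v ∈ W, ∑ L ∈ F with v ∈ L, (L.card : ℝ) ^ 2
            ≤ W.card * (C * K ^ 2 * Real.log K) := by
          have := Finset.sum_le_card_nsmul W (fun v => ∑ L ∈ F with v ∈ L, (L.card : ℝ) ^ 2)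
            (C * K ^ 2 * Real.log K) (fun v hv => hdeg v (hW hv))
          rwa [nsmul_eq_mul] at this
        have h6 : (2 / K) * ∑ v ∈ W, ∑ L ∈ F with v ∈ L, (L.card : ℝ) ^ 2
            ≤ (2 / K) * (W.card * (C * K ^ 2 * Real.log K)) :=
          mul_le_mul_of_nonneg_left h5 (by positivity)
        have h7 : (2 / K) * (W.card * (C * K ^ 2 * Real.log K))
            = 2 * (C * K * Real.log K) * W.card := by
          rw [div_mul_eq_mul_div, div_eq_iff hK0.ne']
          ring
        rw [h7] at h6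
        have h8 := mul_le_mul_of_nonneg_left h6 (pw_nonneg hl0 b F W)
        linarith
      refine (Finset.sum_le_sum h4).trans ?_
      rw [← Finset.mul_sum]
      refine mul_le_mul_of_nonneg_left hEW ?_
      have : 0 ≤ Real.log K := by linarith
      positivity
    have h3 : ∑ L ∈ F, (5 / 2) * (L.card : ℝ) * (∑ W ∈ V.powerset,
            pw lam b F W * (if (L ∩ W).card = 2 then (1 : ℝ) else 0))
        = (5 / 2) * K * ∑ W ∈ V.powerset, pw lam b F W * H W := by
      rw [hH]
      simp only [Finset.mul_sum]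
      rw [Finset.sum_comm]
      refine Finset.sum_congr rfl fun W _ => ?_
      refine Finset.sum_congr rfl fun L _ => ?_
      have h4 : (L.card : ℝ) = K * b L := by
        rw [hbL L, mul_div_assoc', mul_comm K, mul_div_assoc, div_self hK0.ne', mul_one]
      rw [h4]
      ring
    rw [h3] at h1
    have h4 : (5 / 2) * K * (∑ v ∈ V, ∑ W ∈ V.powerset with v ∈ W,
        pw lam b F W * Lam lam b F v W) ≤ (5 / 2) * K * (M * Z * (t + 1)) :=
      mul_le_mul_of_nonneg_left hA2 (by positivity)
    have h5 : (5 / 2) * K * (∑ W ∈ V.powerset, pw lam b F W * H W)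
        ≤ (5 / 2) * K * (Z * (M * (t + 1))) :=
      mul_le_mul_of_nonneg_left hA5 (by positivity)
    linarith
  -- conclusion
  have hRle : R ≤ t / 2 := by
    have h1 : (5 / 2) * K * (M * Z * (t + 1))
      + 2 * (C * K * Real.log K) * (M * Z) + (5 / 2) * K * (Z * (M * (t + 1)))
      = (c * (5 * (t + 1) + 2 * C * Real.log K)) * (N * Z) := by
      rw [hM]
      field_simp
      ring
    rw [h1] at hA4
    have h2 : R ≤ c * (5 * (t + 1) + 2 * C * Real.log K) :=
      le_of_mul_le_mul_right hA4 (by positivity)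
    have h3 : c * (5 * (t + 1) + 2 * C * Real.log K) ≤ c * (10 * t + 2 * C * t) := by
      refine mul_le_mul_of_nonneg_left ?_ hc0.le
      have : 2 * C * Real.log K ≤ 2 * C * t := mul_le_mul_of_nonneg_left htK (by positivity)
      linarith
    have h4 : c * (10 * t + 2 * C * t) = (c * (20 + 4 * C)) * (t / 2) := by ring
    have h5 : (c * (20 + 4 * C)) * (t / 2) ≤ 1 * (t / 2) :=
      mul_le_mul_of_nonneg_right hc2 (by linarith)
    linarith
  have hfin : lam * Real.exp (-R) ≤ (1 + lam) * (c / K) := by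
    have h1 : lam * (N * Z * Real.exp (-R)) = (lam * Real.exp (-R)) * (N * Z) := by ring
    have h2 : (1 + lam) * (M * Z) = ((1 + lam) * (c / K)) * (N * Z) := by
      rw [hM]; ring
    rw [h1, h2] at hA1
    exact le_of_mul_le_mul_right hA1 (by positivity)
  rw [← hexpt] at hfin
  have h1 : Real.exp (-R) ≤ (1 + lam) * Real.exp (-t) := by
    have : lam * Real.exp (-R) ≤ lam * ((1 + lam) * Real.exp (-t)) := by linarith
    exact le_of_mul_le_mul_left this hlpos
  have h2 : Real.exp (t - R) ≤ 1 + lam := by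
    have h3 : Real.exp (t - R) = Real.exp (-R) * Real.exp t := by
      rw [← Real.exp_add]; congr 1; ring
    rw [h3]
    have h4 := mul_le_mul_of_nonneg_right h1 (Real.exp_pos t).le
    have h5 : (1 + lam) * Real.exp (-t) * Real.exp t = 1 + lam := by
      rw [mul_assoc, ← Real.exp_add]
      simp
    linarith
  have h3 : t - R + 1 ≤ Real.exp (t - R) := Real.add_one_le_exp _
  have h4 : 1 ≤ t := hlogK.trans htK
  rw [hlam] at h2
  linarith

end Pool.Agent.Helper34
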