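import Pool.Agent.Helper34.Sample
import Pool.Agent.Helper34.TheoremA

set_option autoImplicit false

namespace Pool.Agent.Helper34

open Finset

variable {Q : Finset (ℝ × ℝ)}

noncomputable def I2 (Q : Finset (ℝ × ℝ)) : Finset (Σ _ : ℝ × ℝ, (ℝ × ℝ) × (ℝ × ℝ)) :=
  Q.sigma (Pr Q)

noncomputable def A2 (i : Σ _ : ℝ × ℝ, (ℝ × ℝ) × (ℝ × ℝ)) : Finset (ℝ × ℝ) :=
  {i.1, i.2.1, i.2.2}

theorem mem_I2 {i : Σ _ : ℝ × ℝ, (ℝ × ℝ) × (ℝ × ℝ)} :
    i ∈ I2 Q ↔ i.1 ∈ Q ∧ i.2.1 ∈ Q ∧ i.2.1 ≠ i.1 ∧ i.2.2 ∈ Lo Q i.1 i.2.1 := by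
  unfold I2
  rw [mem_sigma, mem_Pr]

theorem card_A2 {i : Σ _ : ℝ × ℝ, (ℝ × ℝ) × (ℝ × ℝ)} (hi : i ∈ I2 Q) : (A2 i).card = 3 := by
  rw [mem_I2, mem_Lo] at hi
  obtain ⟨_, _, h1, _, _, h2, h3⟩ := hi
  unfold A2
  rw [Finset.card_insert_of_notMem, Finset.card_insert_of_notMem, Finset.card_singleton]
  · simp only [mem_singleton]; exact Ne.symm h3
  · simp only [mem_insert, mem_singleton, not_or]; exact ⟨Ne.symm h1, Ne.symm h2⟩

theorem card_I2_le {A : ℝ} (hA : ∀ x ∈ Q, ∑ y ∈ Q.erase x, aa Q x y ≤ A) :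
    ((I2 Q).card : ℝ) ≤ Q.card * A := by
  unfold I2
  rw [Finset.card_sigma]
  push_cast
  have : ∀ x ∈ Q, ((Pr Q x).card : ℝ) ≤ A := fun x hx => (card_Pr_le x).trans (hA x hx)
  have := Finset.sum_le_card_nsmul Q _ _ this
  rwa [nsmul_eq_mul] at this

theorem I2_restrict {S : Finset (ℝ × ℝ)} (hS : S ⊆ Q) :
    I2 S = (I2 Q).filter fun i => A2 i ⊆ S := by
  ext i
  rw [mem_filter, mem_I2, mem_I2, mem_Lo, mem_Lo]
  unfold A2
  simp only [Finset.insert_subset_iff, Finset.singleton_subset_iff]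
  constructor
  · rintro ⟨h1, h2, h3, h4, h5, h6, h7⟩
    exact ⟨⟨hS h1, hS h2, h3, hS h4, h5, h6, h7⟩, h1, h2, h4⟩
  · rintro ⟨⟨h1, h2, h3, h4, h5, h6, h7⟩, h8, h9, h10⟩
    exact ⟨h8, h9, h3, h10, h5, h6, h7⟩

theorem I3_restrict {S : Finset (ℝ × ℝ)} (hS : S ⊆ Q) :
    I3 S = (I3 Q).filter fun i => A3 i ⊆ S := by
  ext i
  rw [mem_filter, mem_I3, mem_I3, mem_Lo, mem_Lo, mem_Lo, mem_Lo, mem_Lo, mem_Lo]
  unfold A3
  simp only [Finset.insert_subset_iff, Finset.singleton_subset_iff]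
  constructor
  · rintro ⟨⟨a1, a2, a3⟩, b, ⟨c1, c2⟩, ⟨d1, d2⟩, ⟨e1, e2⟩⟩
    exact ⟨⟨⟨hS a1, hS a2, hS a3⟩, b, ⟨hS c1, c2⟩, ⟨hS d1, d2⟩, ⟨hS e1, e2⟩⟩,
      a1, a2, a3, c1, d1, e1⟩
  · rintro ⟨⟨⟨a1, a2, a3⟩, b, ⟨c1, c2⟩, ⟨d1, d2⟩, ⟨e1, e2⟩⟩, f1, f2, f3, f4, f5, f6⟩
    exact ⟨⟨f1, f2, f3⟩, b, ⟨f4, c2⟩, ⟨f5, d2⟩, ⟨f6, e2⟩⟩

theorem I4_restrict {S : Finset (ℝ × ℝ)} (hS : S ⊆ Q) (t : ℕ) :
    I4 S t = (I4 Q t).filter fun U => U ⊆ S := by
  ext U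
  rw [mem_filter, mem_I4, mem_I4]
  constructor
  · rintro ⟨⟨h1, h2⟩, l, h3⟩
    refine ⟨⟨⟨h1.trans hS, h2⟩, l, fun x hx => ?_⟩, h1⟩
    have := mem_onLine.mp (h3 hx)
    exact mem_onLine.mpr ⟨hS this.1, this.2⟩
  · rintro ⟨⟨⟨_, h2⟩, l, h3⟩, h4⟩
    refine ⟨⟨h4, h2⟩, l, fun x hx => ?_⟩
    have := mem_onLine.mp (h3 hx)
    exact mem_onLine.mpr ⟨h4 hx, this.2⟩

theorem exists_sparse (hx : DistX Q) {A B q : ℝ} {s t : ℕ} (hs : 2 ≤ s) (ht : 2 ≤ t)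
    (hA0 : 0 < A) (hB0 : 0 ≤ B) (hq0 : 0 < q) (hq1 : q ≤ 1)
    (hA : ∀ x ∈ Q, ∑ y ∈ Q.erase x, aa Q x y ≤ A) (hB : ∀ l, ((onLine Q l).card : ℝ) ≤ B) :
    ∃ R ⊆ Q, (7 / 8) * q * Q.card
        - q ^ 6 * (Q.card * A * (2 * s * A + B ^ 2 * (A / ((s : ℝ) * (s - 1))) ^ 2))
        - q ^ t * ((Q.card : ℝ) ^ 2 * (B ^ t / t.factorial)) ≤ R.card ∧
      I3 R = ∅ ∧ (∀ l, (onLine R l).card < t) ∧
      (∀ x ∈ R, ((Pr R x).card : ℝ) ≤ 8 * q ^ 2 * A) := by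
  classical
  obtain ⟨f, hf⟩ : ∃ f : Finset (ℝ × ℝ) → ℝ, f = fun S =>
    ((((Q.filter fun z => ({z} : Finset (ℝ × ℝ)) ⊆ S).card : ℝ)
      - (1 / (8 * q ^ 2 * A)) * ((I2 Q).filter fun i => A2 i ⊆ S).card)
      - ((I3 Q).filter fun i => A3 i ⊆ S).card) - ((I4 Q t).filter fun U => id U ⊆ S).card :=
    ⟨_, rfl⟩
  have hE : (7 / 8) * q * Q.card
        - q ^ 6 * (Q.card * A * (2 * s * A + B ^ 2 * (A / ((s : ℝ) * (s - 1))) ^ 2))
        - q ^ t * ((Q.card : ℝ) ^ 2 * (B ^ t / t.factorial)) ≤ Ex q Q f := by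
    rw [hf, Ex_sub, Ex_sub, Ex_sub, Ex_mul]
    rw [Ex_count q Q Q (fun z => ({z} : Finset (ℝ × ℝ))) (fun z hz => by simpa using hz)]
    rw [Ex_count q Q (I2 Q) A2 (fun i hi => by
      rw [mem_I2, mem_Lo] at hi
      unfold A2
      simp only [Finset.insert_subset_iff, Finset.singleton_subset_iff]
      exact ⟨hi.1, hi.2.1, hi.2.2.2.1⟩)]
    rw [Ex_count q Q (I3 Q) A3 (fun i hi => by
      rw [mem_I3, mem_Lo, mem_Lo, mem_Lo] at hi
      unfold A3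
      simp only [Finset.insert_subset_iff, Finset.singleton_subset_iff]
      exact ⟨hi.1.1, hi.1.2.1, hi.1.2.2, hi.2.2.1.1, hi.2.2.2.1.1, hi.2.2.2.2.1⟩)]
    rw [Ex_count q Q (I4 Q t) id (fun U hU => (mem_I4.mp hU).1.1)]
    have f1 : ∑ z ∈ Q, q ^ ({z} : Finset (ℝ × ℝ)).card = q * Q.card := by
      simp [mul_comm]
    have f2 : ∑ i ∈ I2 Q, q ^ (A2 i).card = q ^ 3 * (I2 Q).card := by
      have : ∀ i ∈ I2 Q, q ^ (A2 i).card = q ^ 3 := fun i hi => by rw [card_A2 hi]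
      rw [Finset.sum_congr rfl this, Finset.sum_const, nsmul_eq_mul, mul_comm]
    have f3 : ∑ i ∈ I3 Q, q ^ (A3 i).card = q ^ 6 * (I3 Q).card := by
      have : ∀ i ∈ I3 Q, q ^ (A3 i).card = q ^ 6 := fun i hi => by rw [card_A3 hx hi]
      rw [Finset.sum_congr rfl this, Finset.sum_const, nsmul_eq_mul, mul_comm]
    have f4 : ∑ U ∈ I4 Q t, q ^ (id U).card = q ^ t * (I4 Q t).card := by
      have : ∀ U ∈ I4 Q t, q ^ (id U).card = q ^ t := fun U hU => by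
        rw [id, (mem_I4.mp hU).1.2]
      rw [Finset.sum_congr rfl this, Finset.sum_const, nsmul_eq_mul, mul_comm]
    rw [f1, f2, f3, f4]
    have g2 : 1 / (8 * q ^ 2 * A) * (q ^ 3 * ((I2 Q).card : ℝ)) ≤ q * Q.card / 8 := by
      have h1 := card_I2_le hA
      have h2 : 1 / (8 * q ^ 2 * A) * (q ^ 3 * ((I2 Q).card : ℝ))
          ≤ 1 / (8 * q ^ 2 * A) * (q ^ 3 * (Q.card * A)) :=
        mul_le_mul_of_nonneg_left (mul_le_mul_of_nonneg_left h1 (by positivity)) (by positivity)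
      refine h2.trans (le_of_eq ?_)
      field_simp
    have g3 : q ^ 6 * ((I3 Q).card : ℝ)
        ≤ q ^ 6 * (Q.card * A * (2 * s * A + B ^ 2 * (A / ((s : ℝ) * (s - 1))) ^ 2)) :=
      mul_le_mul_of_nonneg_left (card_I3_le hx hs hA0.le hB0 hA hB) (by positivity)
    have g4 : q ^ t * ((I4 Q t).card : ℝ) ≤ q ^ t * ((Q.card : ℝ) ^ 2 * (B ^ t / t.factorial)) :=
      mul_le_mul_of_nonneg_left (card_I4_le hx ht hB) (by positivity)
    linarith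
  obtain ⟨S, hSQ, hS⟩ := exists_ge_Ex hq0.le hq1 Q f
  -- rewrite f S
  have hfS : f S = (S.card : ℝ) - (1 / (8 * q ^ 2 * A)) * (I2 S).card - (I3 S).card
      - (I4 S t).card := by
    rw [hf, I2_restrict hSQ, I3_restrict hSQ, I4_restrict hSQ t]
    have : (Q.filter fun z => ({z} : Finset (ℝ × ℝ)) ⊆ S) = S := by
      ext z
      simp only [mem_filter, Finset.singleton_subset_iff]
      exact ⟨fun h => h.2, fun h => ⟨hSQ h, h⟩⟩
    simp only [this, id]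
  obtain ⟨B2, hB2⟩ : ∃ B2, B2 = S.filter fun x => 8 * q ^ 2 * A < ((Pr S x).card : ℝ) := ⟨_, rfl⟩
  obtain ⟨B3, hB3⟩ : ∃ B3, B3 = (I3 S).image fun i => i.1.1 := ⟨_, rfl⟩
  obtain ⟨pick, hpick⟩ : ∃ pick : Finset (ℝ × ℝ) → ℝ × ℝ, ∀ U : Finset (ℝ × ℝ), U.Nonempty →
      pick U ∈ U := by
    refine ⟨fun U => if h : U.Nonempty then h.choose else 0, fun U hU => ?_⟩
    simp only [hU, dif_pos]
    exact hU.choose_spec
  obtain ⟨B4, hB4⟩ : ∃ B4, B4 = (I4 S t).image pick := ⟨_, rfl⟩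
  have hc : 0 < 8 * q ^ 2 * A := by positivity
  have c2 : (B2.card : ℝ) ≤ (1 / (8 * q ^ 2 * A)) * (I2 S).card := by
    have h1 : (B2.card : ℝ) * (8 * q ^ 2 * A) ≤ ((I2 S).card : ℝ) := by
      unfold I2
      rw [Finset.card_sigma]
      push_cast
      rw [← nsmul_eq_mul]
      refine (Finset.card_nsmul_le_sum B2 (fun x => ((Pr S x).card : ℝ)) _ fun x hx => ?_).trans
        (Finset.sum_le_sum_of_subset_of_nonneg (hB2 ▸ Finset.filter_subset _ _)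
          fun x _ _ => Nat.cast_nonneg _)
      rw [hB2, mem_filter] at hx
      exact hx.2.le
    rw [one_div, inv_mul_eq_div, le_div_iff₀ hc]
    exact h1
  have c3 : (B3.card : ℝ) ≤ (I3 S).card := by
    rw [hB3]
    exact_mod_cast Finset.card_image_le
  have c4 : (B4.card : ℝ) ≤ (I4 S t).card := by
    rw [hB4]
    exact_mod_cast Finset.card_image_le
  refine ⟨S \ (B2 ∪ (B3 ∪ B4)), Finset.sdiff_subset.trans hSQ, ?_, ?_, ?_, ?_⟩
  · have h1 : S.card ≤ (S \ (B2 ∪ (B3 ∪ B4))).card + (B2 ∪ (B3 ∪ B4)).card :=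
      Finset.card_le_card_sdiff_add_card
    have h2 : (B2 ∪ (B3 ∪ B4)).card ≤ B2.card + (B3.card + B4.card) :=
      (Finset.card_union_le _ _).trans (Nat.add_le_add_left (Finset.card_union_le _ _) _)
    have h3 : (S.card : ℝ) ≤ (S \ (B2 ∪ (B3 ∪ B4))).card + (B2.card + (B3.card + B4.card)) := by
      exact_mod_cast h1.trans (Nat.add_le_add_left h2 _)
    rw [hfS] at hS
    linarith
  · rw [Finset.eq_empty_iff_forall_notMem]
    intro i hi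
    rw [I3_restrict (Finset.sdiff_subset (s := S)), mem_filter] at hi
    have h1 : i.1.1 ∈ S \ (B2 ∪ (B3 ∪ B4)) := hi.2 (by simp [A3])
    rw [mem_sdiff, mem_union, mem_union] at h1
    exact h1.2 (Or.inr (Or.inl (hB3 ▸ Finset.mem_image_of_mem _ hi.1)))
  · intro l
    by_contra hcon
    rw [not_lt] at hcon
    obtain ⟨U, hU, hUt⟩ := Finset.exists_subset_card_eq hcon
    have hUR : U ⊆ S \ (B2 ∪ (B3 ∪ B4)) := fun x hx => (mem_onLine.mp (hU hx)).1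
    have hU4 : U ∈ I4 S t := by
      rw [mem_I4]
      refine ⟨⟨hUR.trans Finset.sdiff_subset, hUt⟩, l, fun x hx => ?_⟩
      exact mem_onLine.mpr ⟨Finset.sdiff_subset (hUR hx), (mem_onLine.mp (hU hx)).2⟩
    have hne : U.Nonempty := Finset.card_pos.mp (by omega)
    have h1 := hUR (hpick U hne)
    rw [mem_sdiff, mem_union, mem_union] at h1
    exact h1.2 (Or.inr (Or.inr (hB4 ▸ Finset.mem_image_of_mem _ hU4)))
  · intro x hx
    have hx' := hx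
    rw [mem_sdiff, mem_union] at hx
    have h1 : x ∉ B2 := fun h => hx.2 (Or.inl h)
    rw [hB2, mem_filter, not_and, not_lt] at h1
    refine le_trans ?_ (h1 hx.1)
    have : Pr (S \ (B2 ∪ (B3 ∪ B4))) x ⊆ Pr S x := by
      intro p hp
      rw [mem_Pr, mem_Lo] at hp ⊢
      exact ⟨Finset.sdiff_subset hp.1, hp.2.1, Finset.sdiff_subset hp.2.2.1, hp.2.2.2⟩
    exact_mod_cast Finset.card_le_card this

open Classical in
/-- the lines of `R` with at least three points -/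
noncomputable def FF (R : Finset (ℝ × ℝ)) : Finset (Finset (ℝ × ℝ)) :=
  (R.offDiag.image fun q => onLine R (lin q.1 q.2)).filter fun L => 3 ≤ L.card

theorem mem_FF {R L : Finset (ℝ × ℝ)} (h : L ∈ FF R) : (∃ l, L = onLine R l) ∧ 3 ≤ L.card := by
  unfold FF at h
  rw [mem_filter, mem_image] at h
  obtain ⟨⟨q, _, hq⟩, h2⟩ := h
  exact ⟨⟨_, hq.symm⟩, h2⟩

theorem FF_eq {R L : Finset (ℝ × ℝ)} (hx : DistX R) (h : L ∈ FF R) {x y : ℝ × ℝ} (hxL : x ∈ L)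
    (hyL : y ∈ L) (hxy : x ≠ y) : L = onLine R (lin x y) := by
  obtain ⟨⟨l, rfl⟩, _⟩ := mem_FF h
  rw [mem_onLine] at hxL hyL
  rw [← eq_lin (hx.ne hxL.1 hyL.1 hxy) hxL.2 hyL.2]

theorem linSpace_FF {R : Finset (ℝ × ℝ)} (hx : DistX R) (hI : I3 R = ∅) :
    LinSpace R (FF R) where
  sub L hL := by
    obtain ⟨⟨l, rfl⟩, _⟩ := mem_FF hL
    exact Finset.filter_subset _ _
  lin L hL M hM hne x y hxL hxM hyL hyM := by
    by_contra hxy
    exact hne ((FF_eq hx hL hxL hyL hxy).trans (FF_eq hx hM hxM hyM hxy).symm)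
  tf L hL M hM N hN hLM hMN hLN x y z hxL hxM hyM hyN hzL hzN := by
    by_contra hxy
    have hlin : ∀ L ∈ FF R, ∀ M ∈ FF R, L ≠ M → ∀ x y, x ∈ L → x ∈ M → y ∈ L → y ∈ M → x = y := by
      intro L hL M hM hne x y hxL hxM hyL hyM
      by_contra hxy
      exact hne ((FF_eq hx hL hxL hyL hxy).trans (FF_eq hx hM hxM hyM hxy).symm)
    have hzx : z ≠ x := fun h => hxy (hlin M hM N hN hMN x y hxM (h ▸ hzN) hyM hyN)
    have hzy : z ≠ y := fun h => hxy (hlin L hL M hM hLM x y hxL hxM (h ▸ hzL) hyM)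
    have eM := FF_eq hx hM hxM hyM hxy
    have eN := FF_eq hx hN hyN hzN (Ne.symm hzy)
    have eL := FF_eq hx hL hxL hzL (Ne.symm hzx)
    have hsub : ∀ L ∈ FF R, L ⊆ R := by
      intro L hL
      obtain ⟨⟨l, rfl⟩, _⟩ := mem_FF hL
      exact Finset.filter_subset _ _
    have hxR := hsub L hL hxL
    have hyR := hsub M hM hyM
    have hzR := hsub L hL hzL
    have hz : z.2 ≠ val (Pool.Agent.Helper34.lin x y) z.1 := by
      intro h
      have hzM : z ∈ M := by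
        rw [eM]
        exact mem_onLine.mpr ⟨hzR, h⟩
      exact hzx (hlin L hL M hM hLM z x hzL hzM hxL hxM)
    have third : ∀ (L : Finset (ℝ × ℝ)) (x y : ℝ × ℝ), L ∈ FF R → x ∈ L → y ∈ L → x ≠ y →
        ∃ a, a ∈ Lo R x y := by
      intro L x y hL hxL hyL hxy
      have h3 := (mem_FF hL).2
      have h4 : 0 < ((L.erase x).erase y).card := by
        rw [Finset.card_erase_of_mem (mem_erase.mpr ⟨Ne.symm hxy, hyL⟩),
          Finset.card_erase_of_mem hxL]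
        omega
      obtain ⟨a, ha⟩ := Finset.card_pos.mp h4
      refine ⟨a, ?_⟩
      unfold Lo
      rw [← FF_eq hx hL hxL hyL hxy]
      exact ha
    obtain ⟨a, ha⟩ := third M x y hM hxM hyM hxy
    obtain ⟨c, hc⟩ := third N y z hN hyN hzN (Ne.symm hzy)
    obtain ⟨d, hd⟩ := third L x z hL hxL hzL (Ne.symm hzx)
    have : (⟨(x, y, z), (a, c, d)⟩ : Σ _ : (ℝ × ℝ) × (ℝ × ℝ) × (ℝ × ℝ),
        (ℝ × ℝ) × (ℝ × ℝ) × (ℝ × ℝ)) ∈ I3 R := by
      rw [mem_I3]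
      exact ⟨⟨hxR, hyR, hzR⟩, ⟨hxy, hz⟩, ha, hc, hd⟩
    rw [hI] at this
    exact absurd this (Finset.notMem_empty _)

theorem deg_FF {R : Finset (ℝ × ℝ)} (hx : DistX R) {v : ℝ × ℝ} (hv : v ∈ R) :
    ∑ L ∈ FF R with v ∈ L, (L.card : ℝ) ^ 2 ≤ (9 / 2) * (Pr R v).card := by
  classical
  have h1 : ∀ L ∈ (FF R).filter fun L => v ∈ L,
      (L.card : ℝ) ^ 2 ≤ (9 / 2) * (((L.erase v).offDiag.card : ℕ) : ℝ) := by
    intro L hL
    rw [mem_filter] at hL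
    have h3 := (mem_FF hL.1).2
    have h4 : (L.erase v).card = L.card - 1 := Finset.card_erase_of_mem hL.2
    rw [Finset.offDiag_card, h4]
    have h5 : (3 : ℝ) ≤ L.card := by exact_mod_cast h3
    have h6 : (((L.card - 1) * (L.card - 1) - (L.card - 1) : ℕ) : ℝ)
        = ((L.card : ℝ) - 1) * ((L.card : ℝ) - 2) := by
      have : L.card - 1 ≤ (L.card - 1) * (L.card - 1) := Nat.le_mul_of_pos_left _ (by omega)
      rw [Nat.cast_sub this, Nat.cast_mul, Nat.cast_sub (by omega)]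
      push_cast
      ring
    rw [h6]
    nlinarith
  refine (Finset.sum_le_sum h1).trans ?_
  rw [← Finset.mul_sum]
  refine mul_le_mul_of_nonneg_left ?_ (by norm_num)
  have h2 : ∑ L ∈ FF R with v ∈ L, (L.erase v).offDiag.card
      = (((FF R).filter fun L => v ∈ L).biUnion fun L => (L.erase v).offDiag).card := by
    rw [Finset.card_biUnion]
    intro L hL M hM hLM
    rw [Finset.mem_coe, mem_filter] at hL hM
    simp only [Function.onFun]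
    rw [Finset.disjoint_left]
    intro p hp hp'
    rw [mem_offDiag, mem_erase, mem_erase] at hp hp'
    exact hLM ((FF_eq hx hL.1 hp.1.2 hp.2.1.2 hp.2.2).trans
      (FF_eq hx hM.1 hp'.1.2 hp'.2.1.2 hp'.2.2).symm)
  have h3 : (((FF R).filter fun L => v ∈ L).biUnion fun L => (L.erase v).offDiag) ⊆ Pr R v := by
    intro p hp
    rw [mem_biUnion] at hp
    obtain ⟨L, hL, hpL⟩ := hp
    rw [mem_filter] at hL
    rw [mem_offDiag, mem_erase, mem_erase] at hpL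
    obtain ⟨⟨a1, a2⟩, ⟨a3, a4⟩, a5⟩ := hpL
    have hLe := FF_eq hx hL.1 hL.2 a2 (Ne.symm a1)
    have hsub : L ⊆ R := by
      obtain ⟨⟨l, rfl⟩, _⟩ := mem_FF hL.1
      exact Finset.filter_subset _ _
    rw [mem_Pr, mem_Lo]
    refine ⟨hsub a2, a1, hsub a4, ?_, a3, Ne.symm a5⟩
    rw [hLe] at a4
    exact (mem_onLine.mp a4).2
  have h4 : ∑ L ∈ FF R with v ∈ L, (L.erase v).offDiag.card ≤ (Pr R v).card := by
    rw [h2]
    exact Finset.card_le_card h3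
  exact_mod_cast h4

end Pool.Agent.Helper34
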