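import Mathlib

set_option autoImplicit false

namespace Pool.Agent.Helper34

open Finset

section powerset

variable {α : Type*} [DecidableEq α] {β : Type*} [AddCommMonoid β]

/-- Splitting a sum over all subsets of `V` according to the trace on `U ⊆ V`. -/
theorem sum_powerset_split (V U : Finset α) (hU : U ⊆ V) (f : Finset α → β) :
    ∑ W ∈ V.powerset, f W = ∑ T ∈ (V \ U).powerset, ∑ B ∈ U.powerset, f (T ∪ B) := by
  rw [← Finset.sum_product']
  symm
  refine Finset.sum_bij' (fun p _ => p.1 ∪ p.2) (fun W _ => (W \ U, W ∩ U)) ?_ ?_ ?_ ?_ ?_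
  · rintro ⟨T, B⟩ h
    simp only [mem_product, mem_powerset] at h ⊢
    exact Finset.union_subset (h.1.trans Finset.sdiff_subset) (h.2.trans hU)
  · intro W h
    simp only [mem_product, mem_powerset] at h ⊢
    exact ⟨Finset.sdiff_subset_sdiff h (le_refl _), Finset.inter_subset_right⟩
  · rintro ⟨T, B⟩ h
    simp only [mem_product, mem_powerset] at h
    have hd : Disjoint T U := by
      have := Finset.sdiff_disjoint (s := U) (t := V)
      exact Disjoint.mono_left h.1 (by simpa using this)
    ext1
    · ext x
      simp only [mem_sdiff, mem_union]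
      constructor
      · rintro ⟨hx | hx, hn⟩
        · exact hx
        · exact absurd (h.2 hx) hn
      · intro hx
        exact ⟨Or.inl hx, fun hu => (Finset.disjoint_left.mp hd) hx hu⟩
    · ext x
      simp only [mem_inter, mem_union]
      constructor
      · rintro ⟨hx | hx, hn⟩
        · exact absurd hn ((Finset.disjoint_left.mp hd) hx)
        · exact hx
      · intro hx
        exact ⟨Or.inr hx, h.2 hx⟩
  · intro W _
    simp only
    exact Finset.sdiff_union_inter W U
  · rintro ⟨T, B⟩ _
    rfl

theorem sum_powerset_mem (V : Finset α) (v : α) (hv : v ∈ V) (f : Finset α → β) :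
    ∑ W ∈ V.powerset with v ∈ W, f W = ∑ B ∈ (V.erase v).powerset, f (insert v B) := by
  symm
  refine Finset.sum_bij' (fun B _ => insert v B) (fun W _ => W.erase v) ?_ ?_ ?_ ?_ ?_
  · intro B h
    simp only [mem_powerset, mem_filter] at h ⊢
    refine ⟨?_, mem_insert_self _ _⟩
    exact Finset.insert_subset hv (h.trans (Finset.erase_subset _ _))
  · intro W h
    simp only [mem_powerset, mem_filter] at h ⊢
    exact Finset.erase_subset_erase _ h.1
  · intro B h
    simp only [mem_powerset] at h
    exact Finset.erase_insert (fun hh => by simpa using h hh)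
  · intro W h
    simp only [mem_filter] at h
    exact Finset.insert_erase h.2
  · intro B _
    rfl

theorem filter_notMem_powerset (V : Finset α) (v : α) :
    (V.powerset.filter fun W => v ∉ W) = (V.erase v).powerset := by
  ext W
  simp only [mem_filter, mem_powerset, Finset.subset_erase]

end powerset

section prodsplit

variable {α ι : Type*} [DecidableEq α] [DecidableEq ι] {R : Type*} [CommSemiring R]

/-- Product formula: for pairwise disjoint blocks `U i`, a sum over all subsets of the union of a
product of local factors is the product of the local sums. -/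
theorem sum_powerset_biUnion_prod (I : Finset ι) (U : ι → Finset α)
    (hd : ∀ i ∈ I, ∀ j ∈ I, i ≠ j → Disjoint (U i) (U j)) (F : ι → Finset α → R) :
    ∑ A ∈ (I.biUnion U).powerset, ∏ i ∈ I, F i (A ∩ U i)
      = ∏ i ∈ I, ∑ B ∈ (U i).powerset, F i B := by
  induction I using Finset.induction_on with
  | empty => simp
  | insert i I hi ih =>
    have hd' : ∀ j ∈ I, ∀ k ∈ I, j ≠ k → Disjoint (U j) (U k) := fun j hj k hk h =>
      hd j (mem_insert_of_mem hj) k (mem_insert_of_mem hk) h
    have hdi : ∀ j ∈ I, Disjoint (U i) (U j) := fun j hj =>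
      hd i (mem_insert_self _ _) j (mem_insert_of_mem hj) (fun h => hi (h ▸ hj))
    have hdI : Disjoint (U i) (I.biUnion U) := by
      rw [Finset.disjoint_biUnion_right]
      exact hdi
    rw [Finset.prod_insert hi, ← ih hd']
    rw [sum_powerset_split ((insert i I).biUnion U) (U i)
      (Finset.subset_biUnion_of_mem U (mem_insert_self _ _))]
    have hs : (insert i I).biUnion U \ U i = I.biUnion U := by
      rw [Finset.biUnion_insert]
      ext x
      simp only [mem_sdiff, mem_union]
      constructor
      · rintro ⟨h | h, h'⟩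
        · exact absurd h h'
        · exact h
      · intro h
        exact ⟨Or.inr h, fun h' => (Finset.disjoint_left.mp hdI) h' h⟩
    rw [hs, mul_comm, Finset.sum_mul_sum]
    refine Finset.sum_congr rfl fun T hT => Finset.sum_congr rfl fun B hB => ?_
    rw [mem_powerset] at hT hB
    rw [Finset.prod_insert hi]
    have h1 : (T ∪ B) ∩ U i = B := by
      ext x
      simp only [mem_inter, mem_union]
      constructor
      · rintro ⟨h | h, h'⟩
        · exact absurd (hT h) ((Finset.disjoint_left.mp hdI) h')
        · exact h
      · intro h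
        exact ⟨Or.inr h, hB h⟩
    rw [h1, mul_comm]
    congr 1
    refine Finset.prod_congr rfl fun j hj => ?_
    congr 1
    ext x
    simp only [mem_inter, mem_union]
    constructor
    · rintro ⟨h | h, h'⟩
      · exact ⟨h, h'⟩
      · exact absurd h' ((Finset.disjoint_left.mp (hdi j hj)) (hB h))
    · rintro ⟨h, h'⟩
      exact ⟨Or.inl h, h'⟩

end prodsplit

section quad

variable {α : Type*} [DecidableEq α]

/-- Sum over subsets of size at most two. -/
theorem sum_powerset_quad (w : α → ℝ) (U : Finset α) :
    ∀ ψ : ℕ → ℝ, (∀ j, 3 ≤ j → ψ j = 0) →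
    ∑ B ∈ U.powerset, ψ B.card * ∏ y ∈ B, w y
      = ψ 0 + ψ 1 * (∑ y ∈ U, w y) + ψ 2 * (((∑ y ∈ U, w y) ^ 2 - ∑ y ∈ U, w y ^ 2) / 2) := by
  induction U using Finset.induction_on with
  | empty => intro ψ _; simp
  | insert v U hv ih =>
    intro ψ hψ
    rw [Finset.sum_powerset_insert hv, ih ψ hψ]
    have h2 : ∑ B ∈ U.powerset, ψ (insert v B).card * ∏ y ∈ insert v B, w y
        = w v * ∑ B ∈ U.powerset, (fun j => ψ (j + 1)) B.card * ∏ y ∈ B, w y := by
      rw [Finset.mul_sum]
      refine Finset.sum_congr rfl fun B hB => ?_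
      rw [mem_powerset] at hB
      have hvB : v ∉ B := fun h => hv (hB h)
      rw [Finset.card_insert_of_notMem hvB, Finset.prod_insert hvB]
      ring
    rw [h2, ih (fun j => ψ (j + 1)) (fun j hj => hψ (j + 1) (by omega))]
    rw [Finset.sum_insert hv, Finset.sum_insert hv]
    have h3 : ψ (2 + 1) = 0 := hψ 3 (le_refl _)
    simp only [h3, zero_add]
    norm_num
    ring

end quad

end Pool.Agent.Helper34
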