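import Pool.Agent.Helper34.Basic

set_option autoImplicit false
set_option linter.unusedSectionVars false

namespace Pool.Agent.Helper34

open Finset

variable {α : Type*} [DecidableEq α]

/-- Bernoulli weight of a subset. -/
noncomputable def bern (p : ℝ) (V S : Finset α) : ℝ := p ^ S.card * (1 - p) ^ (V.card - S.card)

/-- Expectation over a random subset. -/
noncomputable def Ex (p : ℝ) (V : Finset α) (f : Finset α → ℝ) : ℝ :=
  ∑ S ∈ V.powerset, bern p V S * f S

theorem bern_nonneg {p : ℝ} (h0 : 0 ≤ p) (h1 : p ≤ 1) (V S : Finset α) : 0 ≤ bern p V S := by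
  unfold bern
  have : 0 ≤ 1 - p := by linarith
  positivity

theorem bern_total (p : ℝ) (V : Finset α) : ∑ S ∈ V.powerset, bern p V S = 1 := by
  unfold bern
  rw [Finset.sum_pow_mul_eq_add_pow]
  simp

theorem Ex_superset (p : ℝ) (V A : Finset α) (hA : A ⊆ V) :
    Ex p V (fun S => if A ⊆ S then 1 else 0) = p ^ A.card := by
  unfold Ex
  rw [sum_powerset_split V A hA]
  have h1 : ∀ T ∈ (V \ A).powerset, ∑ B ∈ A.powerset, bern p V (T ∪ B) *
      (if A ⊆ T ∪ B then (1 : ℝ) else 0) = p ^ A.card * bern p (V \ A) T := by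
    intro T hT
    rw [mem_powerset] at hT
    have hTA : Disjoint T A := by
      rw [Finset.disjoint_left]
      intro x hx
      have := hT hx
      rw [mem_sdiff] at this
      exact this.2
    rw [Finset.sum_eq_single A]
    · rw [if_pos Finset.subset_union_right, mul_one]
      unfold bern
      rw [Finset.card_union_of_disjoint hTA, pow_add, Finset.card_sdiff_of_subset hA]
      have : V.card - (T.card + A.card) = V.card - A.card - T.card := by omega
      rw [this]
      ring
    · intro B hB hne
      rw [mem_powerset] at hB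
      rw [if_neg, mul_zero]
      intro hcon
      apply hne
      apply Finset.Subset.antisymm hB
      intro x hx
      have := hcon hx
      rw [mem_union] at this
      rcases this with h | h
      · exact absurd hx ((Finset.disjoint_left.mp hTA) h)
      · exact h
    · intro h
      exact absurd (Finset.mem_powerset_self A) h
  rw [Finset.sum_congr rfl h1, ← Finset.mul_sum, bern_total, mul_one]

theorem Ex_add (p : ℝ) (V : Finset α) (f g : Finset α → ℝ) :
    Ex p V (fun S => f S + g S) = Ex p V f + Ex p V g := by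
  unfold Ex
  rw [← Finset.sum_add_distrib]
  exact Finset.sum_congr rfl fun S _ => by ring

theorem Ex_sub (p : ℝ) (V : Finset α) (f g : Finset α → ℝ) :
    Ex p V (fun S => f S - g S) = Ex p V f - Ex p V g := by
  unfold Ex
  rw [← Finset.sum_sub_distrib]
  exact Finset.sum_congr rfl fun S _ => by ring

theorem Ex_mul (p : ℝ) (V : Finset α) (a : ℝ) (f : Finset α → ℝ) :
    Ex p V (fun S => a * f S) = a * Ex p V f := by
  unfold Ex
  rw [Finset.mul_sum]
  exact Finset.sum_congr rfl fun S _ => by ring

theorem Ex_const (p : ℝ) (V : Finset α) (a : ℝ) :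
    Ex p V (fun _ => a) = a := by
  unfold Ex
  rw [← Finset.sum_mul, bern_total, one_mul]

theorem Ex_mono {p : ℝ} (h0 : 0 ≤ p) (h1 : p ≤ 1) (V : Finset α) (f g : Finset α → ℝ)
    (h : ∀ S ⊆ V, f S ≤ g S) : Ex p V f ≤ Ex p V g := by
  unfold Ex
  refine Finset.sum_le_sum fun S hS => ?_
  exact mul_le_mul_of_nonneg_left (h S (Finset.mem_powerset.mp hS)) (bern_nonneg h0 h1 _ _)

/-- there is a subset at least as good as the average -/
theorem exists_ge_Ex {p : ℝ} (h0 : 0 ≤ p) (h1 : p ≤ 1) (V : Finset α) (f : Finset α → ℝ) :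
    ∃ S ⊆ V, Ex p V f ≤ f S := by
  by_contra hcon
  push Not at hcon
  have h2 : Ex p V f < Ex p V f := by
    conv_lhs => rw [show f = fun S => f S from rfl]
    have h3 : Ex p V f < ∑ S ∈ V.powerset, bern p V S * Ex p V f := by
      unfold Ex at hcon ⊢
      obtain ⟨S0, hS0, hpos⟩ : ∃ S ∈ V.powerset, 0 < bern p V S := by
        by_contra hc
        push Not at hc
        have h4 : ∑ S ∈ V.powerset, bern p V S ≤ 0 := Finset.sum_nonpos hc
        rw [bern_total] at h4
        linarith
      refine Finset.sum_lt_sum (fun S hS => ?_) ⟨S0, hS0, ?_⟩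
      · exact mul_le_mul_of_nonneg_left (hcon S (Finset.mem_powerset.mp hS)).le
          (bern_nonneg h0 h1 _ _)
      · exact mul_lt_mul_of_pos_left (hcon S0 (Finset.mem_powerset.mp hS0)) hpos
    rw [← Finset.sum_mul, bern_total, one_mul] at h3
    exact h3
  exact lt_irrefl _ h2

/-- expected number of configurations contained in the random set -/
theorem Ex_count {ι : Type*} (p : ℝ) (V : Finset α) (I : Finset ι) (A : ι → Finset α)
    (hA : ∀ i ∈ I, A i ⊆ V) :
    Ex p V (fun S => ((I.filter fun i => A i ⊆ S).card : ℝ)) = ∑ i ∈ I, p ^ (A i).card := by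
  have h1 : ∀ i ∈ I, p ^ (A i).card = Ex p V (fun S => if A i ⊆ S then 1 else 0) :=
    fun i hi => (Ex_superset p V (A i) (hA i hi)).symm
  rw [Finset.sum_congr rfl h1]
  unfold Ex
  rw [Finset.sum_comm]
  refine Finset.sum_congr rfl fun S _ => ?_
  rw [← Finset.mul_sum]
  congr 1
  simp only
  rw [Finset.card_filter]
  push_cast
  rfl

end Pool.Agent.Helper34
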