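import Pool.Agent.Helper34.Planar
import Pool.Agent.Helper34.Bern

set_option autoImplicit false

namespace Pool.Agent.Helper34

open Finset

variable {P : Finset (ℝ × ℝ)} {E : Finset Edge}

theorem GoodEdges.mono {E' : Finset Edge} (hE : GoodEdges P E) (h : E' ⊆ E) :
    GoodEdges P E' where
  lmem e he := hE.lmem e (h he)
  rmem e he := hE.rmem e (h he)
  lt e he := hE.lt e (h he)
  onl e he := hE.onl e (h he)
  onr e he := hE.onr e (h he)
  nv e he := hE.nv e (h he)

open Classical in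
/-- ordered crossing pairs -/
noncomputable def crPairs (E : Finset Edge) : Finset (Edge × Edge) :=
  (E ×ˢ E).filter fun q => q.1 ≠ q.2 ∧ Cr q.1 q.2

theorem mem_crPairs {q : Edge × Edge} :
    q ∈ crPairs E ↔ q.1 ∈ E ∧ q.2 ∈ E ∧ q.1 ≠ q.2 ∧ Cr q.1 q.2 := by
  unfold crPairs
  simp only [mem_filter, mem_product]
  tauto

theorem cross_weak (hx : ∀ p ∈ P, ∀ q ∈ P, p.1 = q.1 → p = q) :
    ∀ (n : ℕ) (E : Finset Edge), E.card = n → GoodEdges P E →
      E.card ≤ 5 * P.card + (crPairs E).card := by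
  intro n
  induction n using Nat.strong_induction_on with
  | _ n ih =>
    intro E hn hE
    by_cases hnc : ∀ e ∈ E, ∀ f ∈ E, e ≠ f → ¬ Cr e f
    · have := planar_bound hx hE hnc
      omega
    · push Not at hnc
      obtain ⟨e, he, f, hf, hne, hcr⟩ := hnc
      have h1 : (E.erase e).card < n := by
        rw [Finset.card_erase_of_mem he]
        have : 0 < E.card := Finset.card_pos.mpr ⟨e, he⟩
        omega
      have h2 := ih (E.erase e).card h1 (E.erase e) rfl (hE.mono (Finset.erase_subset _ _))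
      have h3 : (crPairs (E.erase e)).card < (crPairs E).card := by
        apply Finset.card_lt_card
        rw [Finset.ssubset_iff_of_subset]
        · refine ⟨(e, f), mem_crPairs.mpr ⟨he, hf, hne, hcr⟩, ?_⟩
          rw [mem_crPairs]
          rintro ⟨h4, _⟩
          simp at h4
        · intro q hq
          rw [mem_crPairs] at hq ⊢
          exact ⟨Finset.mem_of_mem_erase hq.1, Finset.mem_of_mem_erase hq.2.1, hq.2.2⟩
      rw [Finset.card_erase_of_mem he] at h2
      have : 0 < E.card := Finset.card_pos.mpr ⟨e, he⟩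
      omega

theorem line_eq_of_two {l m : ℝ × ℝ} {x y : ℝ} (hxy : x ≠ y) (h1 : val l x = val m x)
    (h2 : val l y = val m y) : l = m := by
  unfold val at *
  have h3 : (l.1 - m.1) * (x - y) = 0 := by linarith
  rcases mul_eq_zero.mp h3 with h4 | h4
  · have h5 : l.1 = m.1 := by linarith
    rw [h5] at h1
    exact Prod.ext h5 (by linarith)
  · exact absurd (by linarith) hxy

theorem not_cr_of_line_eq (hx : ∀ p ∈ P, ∀ q ∈ P, p.1 = q.1 → p = q) (hE : GoodEdges P E)
    {e f : Edge} (he : e ∈ E) (hf : f ∈ E) (hl : e.1 = f.1) (hcr : Cr e f) : e = f := by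
  obtain ⟨x, h1, h2, h3, h4, _⟩ := hcr
  have hle : e.2.1.1 = f.2.1.1 := by
    rcases lt_trichotomy e.2.1.1 f.2.1.1 with h | h | h
    · exact absurd (by rw [hl]; exact hE.onl f hf) (hE.nv e he f.2.1 (hE.lmem f hf) h (by linarith))
    · exact h
    · exact absurd (by rw [← hl]; exact hE.onl e he)
        (hE.nv f hf e.2.1 (hE.lmem e he) h (by linarith))
  have hre : e.2.2.1 = f.2.2.1 := by
    rcases lt_trichotomy e.2.2.1 f.2.2.1 with h | h | h
    · exact absurd (by rw [← hl]; exact hE.onr e he)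
        (hE.nv f hf e.2.2 (hE.rmem e he) (by linarith) h)
    · exact h
    · exact absurd (by rw [hl]; exact hE.onr f hf) (hE.nv e he f.2.2 (hE.rmem f hf) (by linarith) h)
  have h5 := hx _ (hE.lmem e he) _ (hE.lmem f hf) hle
  have h6 := hx _ (hE.rmem e he) _ (hE.rmem f hf) hre
  exact Prod.ext hl (Prod.ext h5 h6)

theorem cr_line_ne (hx : ∀ p ∈ P, ∀ q ∈ P, p.1 = q.1 → p = q) (hE : GoodEdges P E)
    {e f : Edge} (he : e ∈ E) (hf : f ∈ E) (hne : e ≠ f) (hcr : Cr e f) : e.1 ≠ f.1 :=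
  fun hl => hne (not_cr_of_line_eq hx hE he hf hl hcr)

/-- the endpoints of an edge -/
noncomputable def endpts (e : Edge) : Finset (ℝ × ℝ) := {e.2.1, e.2.2}

theorem endpts_pair_card (hx : ∀ p ∈ P, ∀ q ∈ P, p.1 = q.1 → p = q) (hE : GoodEdges P E)
    {e f : Edge} (he : e ∈ E) (hf : f ∈ E) (hne : e ≠ f) (hcr : Cr e f) :
    (endpts e ∪ endpts f).card = 4 := by
  have hl := cr_line_ne hx hE he hf hne hcr
  obtain ⟨x, h1, h2, h3, h4, h5⟩ := hcr
  have a1 : e.2.1 ≠ f.2.1 := by
    intro h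
    apply hl
    have h6 : val e.1 e.2.1.1 = val f.1 e.2.1.1 := by
      rw [← hE.onl e he, h, ← hE.onl f hf]
    exact line_eq_of_two (ne_of_gt h1) h5 h6
  have a2 : e.2.2 ≠ f.2.2 := by
    intro h
    apply hl
    have h6 : val e.1 e.2.2.1 = val f.1 e.2.2.1 := by
      rw [← hE.onr e he, h, ← hE.onr f hf]
    exact line_eq_of_two (ne_of_lt h3) h5 h6
  have a3 : e.2.1 ≠ f.2.2 := by
    intro h
    rw [h] at h1
    linarith
  have a4 : e.2.2 ≠ f.2.1 := by
    intro h
    rw [h] at h3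
    linarith
  have a5 : e.2.1 ≠ e.2.2 := by
    intro h
    have := hE.lt e he
    rw [h] at this
    exact lt_irrefl _ this
  have a6 : f.2.1 ≠ f.2.2 := by
    intro h
    have := hE.lt f hf
    rw [h] at this
    exact lt_irrefl _ this
  unfold endpts
  have : ({e.2.1, e.2.2} ∪ {f.2.1, f.2.2} : Finset (ℝ × ℝ)) = {e.2.1, e.2.2, f.2.1, f.2.2} := by
    ext z; simp only [mem_union, mem_insert, mem_singleton]; tauto
  rw [this, Finset.card_insert_of_notMem, Finset.card_insert_of_notMem,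
    Finset.card_insert_of_notMem, Finset.card_singleton]
  · simp only [mem_singleton]; exact a6
  · simp only [mem_insert, mem_singleton, not_or]; exact ⟨a4, a2⟩
  · simp only [mem_insert, mem_singleton, not_or]; exact ⟨a5, a1, a3⟩

/-- the amplified inequality -/
theorem cross_amplify (hx : ∀ p ∈ P, ∀ q ∈ P, p.1 = q.1 → p = q) (hE : GoodEdges P E)
    {p : ℝ} (h0 : 0 ≤ p) (h1 : p ≤ 1) :
    p ^ 2 * E.card ≤ 5 * p * P.card + p ^ 4 * (crPairs E).card := by
  classical
  -- for each subset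
  have hS : ∀ S ⊆ P, ((E.filter fun e => endpts e ⊆ S).card : ℝ)
      ≤ 5 * (P.filter fun z => ({z} : Finset (ℝ × ℝ)) ⊆ S).card
        + ((crPairs E).filter fun q => endpts q.1 ∪ endpts q.2 ⊆ S).card := by
    intro S hSP
    have hxS : ∀ p ∈ S, ∀ q ∈ S, p.1 = q.1 → p = q := fun p hp q hq h => hx p (hSP hp) q (hSP hq) h
    have hES : GoodEdges S (E.filter fun e => endpts e ⊆ S) := by
      have hsub : (E.filter fun e => endpts e ⊆ S) ⊆ E := Finset.filter_subset _ _
      have hm := hE.mono hsub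
      refine ⟨?_, ?_, hm.lt, hm.onl, hm.onr, fun e he p hp => hm.nv e he p (hSP hp)⟩
      · intro e he
        rw [mem_filter] at he
        exact he.2 (by simp [endpts])
      · intro e he
        rw [mem_filter] at he
        exact he.2 (by simp [endpts])
    have h2 := cross_weak hxS _ _ rfl hES
    have h3 : (P.filter fun z => ({z} : Finset (ℝ × ℝ)) ⊆ S) = S := by
      ext z
      simp only [mem_filter, Finset.singleton_subset_iff]
      exact ⟨fun h => h.2, fun h => ⟨hSP h, h⟩⟩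
    have h4 : crPairs (E.filter fun e => endpts e ⊆ S)
        = (crPairs E).filter fun q => endpts q.1 ∪ endpts q.2 ⊆ S := by
      ext q
      simp only [mem_crPairs, mem_filter, Finset.union_subset_iff]
      tauto
    rw [h3, ← h4]
    exact_mod_cast h2
  have hmono := Ex_mono h0 h1 P _ _ hS
  have e1 := Ex_count p P E endpts (fun e he => by
    unfold endpts
    intro z hz
    rw [mem_insert, mem_singleton] at hz
    rcases hz with hz | hz
    · exact hz ▸ hE.lmem e he
    · exact hz ▸ hE.rmem e he)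
  have e2 := Ex_count p P P (fun z => ({z} : Finset (ℝ × ℝ))) (fun z hz => by simpa using hz)
  have e3 := Ex_count p P (crPairs E) (fun q => endpts q.1 ∪ endpts q.2) (fun q hq => by
    rw [mem_crPairs] at hq
    unfold endpts
    intro z hz
    simp only [mem_union, mem_insert, mem_singleton] at hz
    rcases hz with (hz | hz) | (hz | hz)
    · exact hz ▸ hE.lmem _ hq.1
    · exact hz ▸ hE.rmem _ hq.1
    · exact hz ▸ hE.lmem _ hq.2.1
    · exact hz ▸ hE.rmem _ hq.2.1)
  rw [Ex_add, Ex_mul, e1, e2, e3] at hmono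
  have f1 : ∑ e ∈ E, p ^ (endpts e).card = p ^ 2 * E.card := by
    have : ∀ e ∈ E, p ^ (endpts e).card = p ^ 2 := by
      intro e he
      have : (endpts e).card = 2 := by
        unfold endpts
        apply Finset.card_pair
        intro h
        have := hE.lt e he
        rw [h] at this
        exact lt_irrefl _ this
      rw [this]
    rw [Finset.sum_congr rfl this, Finset.sum_const, nsmul_eq_mul, mul_comm]
  have f2 : ∑ z ∈ P, p ^ ({z} : Finset (ℝ × ℝ)).card = p * P.card := by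
    simp [mul_comm]
  have f3 : ∑ q ∈ crPairs E, p ^ (endpts q.1 ∪ endpts q.2).card = p ^ 4 * (crPairs E).card := by
    have : ∀ q ∈ crPairs E, p ^ (endpts q.1 ∪ endpts q.2).card = p ^ 4 := by
      intro q hq
      rw [mem_crPairs] at hq
      rw [endpts_pair_card hx hE hq.1 hq.2.1 hq.2.2.1 hq.2.2.2]
    rw [Finset.sum_congr rfl this, Finset.sum_const, nsmul_eq_mul, mul_comm]
  rw [f1, f2, f3] at hmono
  linarith

/-- the points of `P` on the line `l` -/
noncomputable def onLine (P : Finset (ℝ × ℝ)) (l : ℝ × ℝ) : Finset (ℝ × ℝ) :=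
  P.filter fun p => p.2 = val l p.1

theorem mem_onLine {l p : ℝ × ℝ} : p ∈ onLine P l ↔ p ∈ P ∧ p.2 = val l p.1 := by
  unfold onLine
  rw [mem_filter]

open Classical in
/-- consecutive pairs of points on the lines of `M` -/
noncomputable def lineEdges (P M : Finset (ℝ × ℝ)) : Finset Edge :=
  (M ×ˢ (P ×ˢ P)).filter fun e => e.2.1.2 = val e.1 e.2.1.1 ∧ e.2.2.2 = val e.1 e.2.2.1 ∧
    e.2.1.1 < e.2.2.1 ∧ ∀ c ∈ P, c.2 = val e.1 c.1 → e.2.1.1 < c.1 → ¬ c.1 < e.2.2.1

theorem mem_lineEdges {M : Finset (ℝ × ℝ)} {e : Edge} : e ∈ lineEdges P M ↔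
    (e.1 ∈ M ∧ e.2.1 ∈ P ∧ e.2.2 ∈ P) ∧ e.2.1.2 = val e.1 e.2.1.1 ∧ e.2.2.2 = val e.1 e.2.2.1 ∧
    e.2.1.1 < e.2.2.1 ∧ ∀ c ∈ P, c.2 = val e.1 c.1 → e.2.1.1 < c.1 → ¬ c.1 < e.2.2.1 := by
  unfold lineEdges
  simp only [mem_filter, mem_product]

theorem good_lineEdges (P M : Finset (ℝ × ℝ)) : GoodEdges P (lineEdges P M) where
  lmem e he := (mem_lineEdges.mp he).1.2.1
  rmem e he := (mem_lineEdges.mp he).1.2.2
  lt e he := (mem_lineEdges.mp he).2.2.2.1
  onl e he := (mem_lineEdges.mp he).2.1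
  onr e he := (mem_lineEdges.mp he).2.2.1
  nv e he p hp h1 h2 h3 := (mem_lineEdges.mp he).2.2.2.2 p hp h3 h1 h2

theorem card_lineEdges (hx : ∀ p ∈ P, ∀ q ∈ P, p.1 = q.1 → p = q) (M : Finset (ℝ × ℝ)) (k : ℕ)
    (hk : ∀ l ∈ M, k ≤ (onLine P l).card) : M.card * (k - 1) ≤ (lineEdges P M).card := by
  classical
  have h1 : (lineEdges P M).card
      = ∑ l ∈ M, ((lineEdges P M).filter fun e => e.1 = l).card :=
    Finset.card_eq_sum_card_fiberwise (fun e he => by
      have := (mem_lineEdges.mp (Finset.mem_coe.mp he)).1.1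
      exact Finset.mem_coe.mpr this)
  rw [h1, ← smul_eq_mul, ← Finset.sum_const]
  refine Finset.sum_le_sum fun l hl => ?_
  -- non-maximal points
  have hsplit := Finset.card_filter_add_card_filter_not (s := onLine P l)
    (fun a => ∃ c ∈ onLine P l, a.1 < c.1)
  have hmax : ((onLine P l).filter fun a => ¬ ∃ c ∈ onLine P l, a.1 < c.1).card ≤ 1 := by
    rw [Finset.card_le_one]
    intro a ha c hc
    rw [mem_filter] at ha hc
    have hac : a.1 = c.1 := by
      rcases lt_trichotomy a.1 c.1 with h | h | h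
      · exact absurd ⟨c, hc.1, h⟩ ha.2
      · exact h
      · exact absurd ⟨a, ha.1, h⟩ hc.2
    exact hx a (mem_onLine.mp ha.1).1 c (mem_onLine.mp hc.1).1 hac
  have hnext : ∀ a : ℝ × ℝ, ∃ c : ℝ × ℝ, (a ∈ onLine P l ∧ ∃ c ∈ onLine P l, a.1 < c.1) →
      (l, a, c) ∈ lineEdges P M := by
    intro a
    by_cases h : (a ∈ onLine P l ∧ ∃ c ∈ onLine P l, a.1 < c.1)
    · obtain ⟨ha, c0, hc0, hac0⟩ := h
      have hS : ((onLine P l).filter fun c => a.1 < c.1).Nonempty :=
        ⟨c0, by rw [mem_filter]; exact ⟨hc0, hac0⟩⟩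
      obtain ⟨c, hc, hmin⟩ := Finset.exists_min_image _ (fun c => c.1) hS
      rw [mem_filter] at hc
      refine ⟨c, fun _ => ?_⟩
      rw [mem_lineEdges]
      refine ⟨⟨hl, (mem_onLine.mp ha).1, (mem_onLine.mp hc.1).1⟩, (mem_onLine.mp ha).2,
        (mem_onLine.mp hc.1).2, hc.2, ?_⟩
      intro d hd hdl hd1 hd2
      have := hmin d (by rw [mem_filter]; exact ⟨mem_onLine.mpr ⟨hd, hdl⟩, hd1⟩)
      simp only at hd2
      linarith
    · exact ⟨a, fun h' => absurd h' h⟩
  choose nx hnx using hnext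
  have hle : ((onLine P l).filter fun a => ∃ c ∈ onLine P l, a.1 < c.1).card
      ≤ ((lineEdges P M).filter fun e => e.1 = l).card := by
    refine Finset.card_le_card_of_injOn (fun a => (l, a, nx a)) ?_ ?_
    · intro a ha
      have ha' := Finset.mem_coe.mp ha
      rw [mem_filter] at ha'
      rw [Finset.mem_coe, mem_filter]
      exact ⟨hnx a ha', rfl⟩
    · intro a _ c _ hac
      simp only [Prod.mk.injEq] at hac
      exact hac.2.1
  have := hk l hl
  omega

theorem card_crPairs_lineEdges (hx : ∀ p ∈ P, ∀ q ∈ P, p.1 = q.1 → p = q)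
    (M : Finset (ℝ × ℝ)) : (crPairs (lineEdges P M)).card ≤ M.card * M.card := by
  classical
  rw [← Finset.card_product]
  have hE := good_lineEdges P M
  refine Finset.card_le_card_of_injOn (fun q => (q.1.1, q.2.1)) ?_ ?_
  · intro q hq
    have hq' := mem_crPairs.mp (Finset.mem_coe.mp hq)
    rw [Finset.mem_coe, mem_product]
    exact ⟨(mem_lineEdges.mp hq'.1).1.1, (mem_lineEdges.mp hq'.2.1).1.1⟩
  · intro q hq r hr hqr
    have hq' := mem_crPairs.mp (Finset.mem_coe.mp hq)
    have hr' := mem_crPairs.mp (Finset.mem_coe.mp hr)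
    simp only [Prod.mk.injEq] at hqr
    have hl := cr_line_ne hx hE hq'.1 hq'.2.1 hq'.2.2.1 hq'.2.2.2
    obtain ⟨x, a1, a2, a3, a4, a5⟩ := hq'.2.2.2
    obtain ⟨y, b1, b2, b3, b4, b5⟩ := hr'.2.2.2
    have hxy : x = y := by
      by_contra hne
      rw [← hqr.1, ← hqr.2] at b5
      exact hl (line_eq_of_two hne a5 b5)
    subst hxy
    have c1 : q.1 = r.1 := not_cr_of_line_eq hx hE hq'.1 hr'.1 hqr.1
      ⟨x, a1, b1, a3, b3, by rw [hqr.1]⟩
    have c2 : q.2 = r.2 := not_cr_of_line_eq hx hE hq'.2.1 hr'.2.1 hqr.2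
      ⟨x, a2, b2, a4, b4, by rw [hqr.2]⟩
    exact Prod.ext c1 c2

/-- Szemeredi-Trotter bound for the number of rich lines. -/
theorem rich_lines (hx : ∀ p ∈ P, ∀ q ∈ P, p.1 = q.1 → p = q) (M : Finset (ℝ × ℝ)) (k : ℕ)
    (hk2 : 2 ≤ k) (hk : ∀ l ∈ M, k ≤ (onLine P l).card) :
    (M.card : ℝ) ≤ 1600 * (P.card : ℝ) ^ 2 / (k : ℝ) ^ 3 + 20 * (P.card : ℝ) / k := by
  have hE := good_lineEdges P M
  have h1 := card_lineEdges hx M k hk
  have h2 := card_crPairs_lineEdges hx M
  obtain ⟨n, hn⟩ : ∃ n : ℝ, n = P.card := ⟨_, rfl⟩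
  obtain ⟨m, hm⟩ : ∃ m : ℝ, m = M.card := ⟨_, rfl⟩
  obtain ⟨e, he⟩ : ∃ e : ℝ, e = (lineEdges P M).card := ⟨_, rfl⟩
  obtain ⟨X, hX⟩ : ∃ X : ℝ, X = (crPairs (lineEdges P M)).card := ⟨_, rfl⟩
  have hn0 : 0 ≤ n := hn ▸ Nat.cast_nonneg _
  have hm0 : 0 ≤ m := hm ▸ Nat.cast_nonneg _
  have hkr : (2 : ℝ) ≤ k := by exact_mod_cast hk2
  have hkpos : (0 : ℝ) < k := by linarith
  have h1' : m * k ≤ 2 * e := by
    have h3 : M.card * k ≤ 2 * (lineEdges P M).card := by
      have : k ≤ 2 * (k - 1) := by omega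
      nlinarith
    rw [hm, he]
    exact_mod_cast h3
  have h2' : X ≤ m * m := by
    rw [hX, hm]
    exact_mod_cast h2
  rw [← hm, ← hn]
  by_cases hcase : e < 10 * n
  · have h3 : m ≤ 20 * n / k := by
      rw [le_div_iff₀ hkpos]
      linarith
    have h4 : 0 ≤ 1600 * n ^ 2 / (k : ℝ) ^ 3 := by positivity
    linarith
  · push Not at hcase
    rcases hm0.eq_or_lt with hm00 | hmpos
    · rw [← hm00]
      positivity
    have hepos : 0 < e := by
      have : 0 < m * k := by positivity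
      linarith
    rcases hn0.eq_or_lt with hn00 | hnpos
    · -- no points: impossible since lines are rich
      exfalso
      have hM : 0 < M.card := by
        rw [hm] at hmpos
        exact_mod_cast hmpos
      obtain ⟨l, hl⟩ := Finset.card_pos.mp hM
      have h3 := hk l hl
      have h4 : (onLine P l).card ≤ P.card := Finset.card_le_card (Finset.filter_subset _ _)
      have h5 : (P.card : ℝ) = 0 := by rw [← hn]; exact hn00.symm
      have h6 : P.card = 0 := by exact_mod_cast h5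
      omega
    have hp0 : 0 < 10 * n / e := by positivity
    have hp1 : 10 * n / e ≤ 1 := by
      rw [div_le_one hepos]
      exact hcase
    have h3 := cross_amplify hx hE hp0.le hp1
    rw [← he, ← hn, ← hX] at h3
    have h4 : (10 * n / e) ^ 2 * e = 100 * n ^ 2 / e := by
      field_simp
      ring
    have h5 : 5 * (10 * n / e) * n = 50 * n ^ 2 / e := by
      field_simp
      ring
    have h6 : (10 * n / e) ^ 4 * X = 10000 * n ^ 4 * X / e ^ 4 := by
      field_simp
      ring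
    rw [h4, h5, h6] at h3
    have h7 : 50 * n ^ 2 / e ≤ 10000 * n ^ 4 * X / e ^ 4 := by
      have : 100 * n ^ 2 / e = 50 * n ^ 2 / e + 50 * n ^ 2 / e := by ring
      linarith
    have h8 : e ^ 3 ≤ 200 * n ^ 2 * X := by
      rw [div_le_div_iff₀ hepos (by positivity)] at h7
      have h9 : (50 * n ^ 2 * e) * e ^ 3 ≤ (50 * n ^ 2 * e) * (200 * n ^ 2 * X) := by
        nlinarith
      exact le_of_mul_le_mul_left h9 (by positivity)
    have h9 : (m * k) ^ 3 ≤ 8 * (200 * n ^ 2 * (m * m)) := by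
      have h10 : (m * k) ^ 3 ≤ (2 * e) ^ 3 := pow_le_pow_left₀ (by positivity) h1' 3
      have h11 : 200 * n ^ 2 * X ≤ 200 * n ^ 2 * (m * m) :=
        mul_le_mul_of_nonneg_left h2' (by positivity)
      nlinarith
    have h10 : m * (k : ℝ) ^ 3 ≤ 1600 * n ^ 2 := by
      have h11 : (m * m) * (m * (k : ℝ) ^ 3) ≤ (m * m) * (1600 * n ^ 2) := by nlinarith
      exact le_of_mul_le_mul_left h11 (by positivity)
    have h11 : m ≤ 1600 * n ^ 2 / (k : ℝ) ^ 3 := by
      rw [le_div_iff₀ (by positivity)]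
      exact h10
    have h12 : 0 ≤ 20 * n / k := by positivity
    linarith

end Pool.Agent.Helper34
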