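import Pool.Agent.Helper34.Alter

set_option autoImplicit false

namespace Pool.Agent.Helper34

open Finset

/-- numerical inequalities, for `u` large -/
structure Big (u : ℝ) : Prop where
  one : 10 ^ 11 ≤ u
  tail : u ^ 149 * Real.exp (-u) ≤ 1 / 16

theorem exists_big : ∃ u₀ : ℝ, ∀ u, u₀ ≤ u → Big u := by
  have h1 := Real.tendsto_pow_mul_exp_neg_atTop_nhds_zero 149
  have h2 := (h1.eventually (gt_mem_nhds (show (0 : ℝ) < 1 / 16 by norm_num))).and
    (Filter.eventually_ge_atTop (10 ^ 11 : ℝ))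
  rw [Filter.eventually_atTop] at h2
  obtain ⟨u₀, h⟩ := h2
  exact ⟨u₀, fun u hu => ⟨(h u hu).2, (h u hu).1.le⟩⟩

theorem pow_div_fact_le {u : ℝ} (hu : 0 ≤ u) {t : ℕ} (ht : 8 * u ≤ t) :
    u ^ t / t.factorial ≤ Real.exp (-u) := by
  have h1 := Real.pow_div_factorial_le_exp (8 * u) (by linarith) t
  have h8 : (2 : ℝ) ≤ Real.log 8 := by
    have : (8 : ℝ) = 2 ^ 3 := by norm_num
    rw [this, Real.log_pow]
    have := Real.log_two_gt_d9
    push_cast
    linarith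
  have h2 : (8 : ℝ) ^ t = Real.exp (Real.log 8 * t) := by
    rw [mul_comm, Real.exp_nat_mul, Real.exp_log (by norm_num)]
  have h3 : u ^ t / t.factorial = ((8 * u) ^ t / t.factorial) * Real.exp (-(Real.log 8 * t)) := by
    rw [Real.exp_neg, ← h2, mul_pow]
    field_simp
  rw [h3]
  calc ((8 * u) ^ t / t.factorial) * Real.exp (-(Real.log 8 * t))
      ≤ Real.exp (8 * u) * Real.exp (-(Real.log 8 * t)) :=
        mul_le_mul_of_nonneg_right h1 (Real.exp_pos _).le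
    _ = Real.exp (8 * u - Real.log 8 * t) := by rw [← Real.exp_add]; ring_nf
    _ ≤ Real.exp (-u) := by
        apply Real.exp_le_exp.mpr
        have : 2 * (8 * u) ≤ Real.log 8 * t := mul_le_mul h8 ht (by linarith) (by linarith)
        linarith

/-- the three error terms -/
theorem size_bound {u m a : ℝ} (hu : Big u) {s t : ℕ} (hm1 : u ^ 100 / 2 ≤ m) (hm2 : m ≤ u ^ 100)
    (ha1 : 1 ≤ a) (ha2 : a ≤ 2600000 * u) (hs1 : u ^ 40 ≤ s) (hs2 : (s : ℝ) ≤ 2 * u ^ 40)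
    (ht : 8 * u ≤ t) :
    u ^ 51 / 4 ≤ (7 / 8) * (u / u ^ 50) * m
      - (u / u ^ 50) ^ 6 * (m * (a * u ^ 100) * (2 * s * (a * u ^ 100)
        + (u ^ 50) ^ 2 * ((a * u ^ 100) / ((s : ℝ) * (s - 1))) ^ 2))
      - (u / u ^ 50) ^ t * (m ^ 2 * ((u ^ 50) ^ t / t.factorial)) := by
  have hu1 : 10 ^ 11 ≤ u := hu.one
  have hu0 : 0 < u := lt_of_lt_of_le (by norm_num) hu1
  have hone : 1 ≤ u := le_trans (by norm_num) hu1
  have hm0 : 0 ≤ m := le_trans (by positivity) hm1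
  have ha0 : 0 ≤ a := by linarith
  -- first term
  have e1 : u ^ 51 * (7 / 16) ≤ (7 / 8) * (u / u ^ 50) * m := by
    have : (7 / 8) * (u / u ^ 50) * (u ^ 100 / 2) ≤ (7 / 8) * (u / u ^ 50) * m :=
      mul_le_mul_of_nonneg_left hm1 (by positivity)
    refine le_trans (le_of_eq ?_) this
    field_simp
    ring
  -- second term
  have hs40 : (1 : ℝ) ≤ u ^ 40 := one_le_pow₀ hone
  have hss : u ^ 80 / 2 ≤ (s : ℝ) * (s - 1) := by
    have h2 : u ^ 40 / 2 ≤ (s : ℝ) - 1 := by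
      have : (2 : ℝ) ≤ u ^ 40 := by
        calc (2 : ℝ) ≤ u := le_trans (by norm_num) hu1
          _ = u ^ 1 := (pow_one u).symm
          _ ≤ u ^ 40 := pow_le_pow_right₀ hone (by norm_num)
      linarith
    calc u ^ 80 / 2 = u ^ 40 * (u ^ 40 / 2) := by ring
      _ ≤ (s : ℝ) * (s - 1) := mul_le_mul hs1 h2 (by positivity) (by linarith)
  have e2a : (a * u ^ 100) / ((s : ℝ) * (s - 1)) ≤ 2 * a * u ^ 20 := by
    rw [div_le_iff₀ (lt_of_lt_of_le (by positivity) hss)]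
    calc a * u ^ 100 = 2 * a * u ^ 20 * (u ^ 80 / 2) := by ring
      _ ≤ 2 * a * u ^ 20 * ((s : ℝ) * (s - 1)) := mul_le_mul_of_nonneg_left hss (by positivity)
  have e2b : ((a * u ^ 100) / ((s : ℝ) * (s - 1))) ^ 2 ≤ 4 * a ^ 2 * u ^ 40 := by
    have h0 : 0 ≤ (a * u ^ 100) / ((s : ℝ) * (s - 1)) :=
      div_nonneg (by positivity) (le_trans (by positivity) hss)
    calc ((a * u ^ 100) / ((s : ℝ) * (s - 1))) ^ 2 ≤ (2 * a * u ^ 20) ^ 2 :=
          pow_le_pow_left₀ h0 e2a 2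
      _ = 4 * a ^ 2 * u ^ 40 := by ring
  have e2c : 2 * s * (a * u ^ 100)
        + (u ^ 50) ^ 2 * ((a * u ^ 100) / ((s : ℝ) * (s - 1))) ^ 2 ≤ 8 * a ^ 2 * u ^ 140 := by
    have h1 : 2 * s * (a * u ^ 100) ≤ 4 * a ^ 2 * u ^ 140 := by
      calc 2 * s * (a * u ^ 100) ≤ 2 * (2 * u ^ 40) * (a * u ^ 100) :=
            mul_le_mul_of_nonneg_right (by linarith) (by positivity)
        _ = 4 * (1 * a) * u ^ 140 := by ring
        _ ≤ 4 * (a * a) * u ^ 140 := by
            refine mul_le_mul_of_nonneg_right ?_ (by positivity)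
            exact mul_le_mul_of_nonneg_left (mul_le_mul_of_nonneg_right ha1 ha0) (by norm_num)
        _ = 4 * a ^ 2 * u ^ 140 := by ring
    have h2 : (u ^ 50) ^ 2 * ((a * u ^ 100) / ((s : ℝ) * (s - 1))) ^ 2 ≤ 4 * a ^ 2 * u ^ 140 := by
      calc (u ^ 50) ^ 2 * ((a * u ^ 100) / ((s : ℝ) * (s - 1))) ^ 2
          ≤ (u ^ 50) ^ 2 * (4 * a ^ 2 * u ^ 40) := mul_le_mul_of_nonneg_left e2b (by positivity)
        _ = 4 * a ^ 2 * u ^ 140 := by ring
    linarith
  have e2 : (u / u ^ 50) ^ 6 * (m * (a * u ^ 100) * (2 * s * (a * u ^ 100)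
        + (u ^ 50) ^ 2 * ((a * u ^ 100) / ((s : ℝ) * (s - 1))) ^ 2)) ≤ u ^ 51 / 16 := by
    calc (u / u ^ 50) ^ 6 * (m * (a * u ^ 100) * (2 * s * (a * u ^ 100)
        + (u ^ 50) ^ 2 * ((a * u ^ 100) / ((s : ℝ) * (s - 1))) ^ 2))
        ≤ (u / u ^ 50) ^ 6 * (u ^ 100 * (a * u ^ 100) * (8 * a ^ 2 * u ^ 140)) := by
          refine mul_le_mul_of_nonneg_left ?_ (by positivity)
          refine mul_le_mul ?_ e2c ?_ (by positivity)
          · exact mul_le_mul_of_nonneg_right hm2 (by positivity)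
          · have : (0 : ℝ) ≤ s := Nat.cast_nonneg _
            positivity
      _ = 8 * a ^ 3 * u ^ 46 := by field_simp
      _ ≤ 8 * (2600000 * u) ^ 3 * u ^ 46 := by
          refine mul_le_mul_of_nonneg_right ?_ (by positivity)
          exact mul_le_mul_of_nonneg_left (pow_le_pow_left₀ ha0 ha2 3) (by norm_num)
      _ = (8 * 2600000 ^ 3) * u ^ 49 := by ring
      _ ≤ (u ^ 2 / 16) * u ^ 49 := by
          refine mul_le_mul_of_nonneg_right ?_ (by positivity)
          have : ((10 : ℝ) ^ 11) ^ 2 ≤ u ^ 2 := pow_le_pow_left₀ (by norm_num) hu1 2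
          refine le_trans ?_ (div_le_div_of_nonneg_right this (by norm_num))
          norm_num
      _ = u ^ 51 / 16 := by ring
  -- third term
  have e3 : (u / u ^ 50) ^ t * (m ^ 2 * ((u ^ 50) ^ t / t.factorial)) ≤ u ^ 51 / 16 := by
    have h1 : (u / u ^ 50) ^ t * (m ^ 2 * ((u ^ 50) ^ t / t.factorial))
        = m ^ 2 * (u ^ t / t.factorial) := by
      rw [div_pow]
      field_simp
    rw [h1]
    calc m ^ 2 * (u ^ t / t.factorial) ≤ (u ^ 100) ^ 2 * Real.exp (-u) :=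
          mul_le_mul (pow_le_pow_left₀ hm0 hm2 2) (pow_div_fact_le hu0.le ht) (by positivity)
            (by positivity)
      _ = u ^ 51 * (u ^ 149 * Real.exp (-u)) := by ring
      _ ≤ u ^ 51 * (1 / 16) := mul_le_mul_of_nonneg_left hu.tail (by positivity)
      _ = u ^ 51 / 16 := by ring
  have h51 : 0 ≤ u ^ 51 := by positivity
  linarith

theorem main_large : ∃ c : ℝ, 0 < c ∧ ∃ n₀ : ℕ, ∀ P : Finset (ℝ × ℝ), DistX P →
    n₀ ≤ P.card → (∀ l : ℝ × ℝ, ((onLine P l).card : ℝ) ≤ Real.sqrt P.card) →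
    ∃ W ⊆ P, (∀ l, (onLine W l).card ≤ 2) ∧ c * Real.sqrt P.card ≤ W.card := by
  classical
  obtain ⟨c, hc, hA⟩ := theoremA 93600000 (by norm_num)
  obtain ⟨u₀, hu₀⟩ := exists_big
  refine ⟨c / 36, by positivity, ⌈(max u₀ (10 ^ 11)) ^ 100⌉₊, ?_⟩
  intro P hx hn hcol
  obtain ⟨u, hudef⟩ : ∃ u : ℝ, u = (P.card : ℝ) ^ ((100 : ℕ) : ℝ)⁻¹ := ⟨_, rfl⟩
  have hu100 : u ^ 100 = P.card := by
    rw [hudef]
    exact Real.rpow_inv_natCast_pow (Nat.cast_nonneg _) (by norm_num)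
  have hu0' : 0 ≤ u := by rw [hudef]; positivity
  have hmax : max u₀ (10 ^ 11) ≤ u := by
    have h1 : (max u₀ (10 ^ 11)) ^ 100 ≤ u ^ 100 := by
      rw [hu100]
      exact (Nat.le_ceil _).trans (by exact_mod_cast hn)
    exact le_of_pow_le_pow_left₀ (by norm_num) hu0' h1
  have hbig : Big u := hu₀ u ((le_max_left _ _).trans hmax)
  have hu1 : 10 ^ 11 ≤ u := hbig.one
  have hu0 : 0 < u := lt_of_lt_of_le (by norm_num) hu1
  have hone : 1 ≤ u := le_trans (by norm_num) hu1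
  have hsqrt : Real.sqrt (P.card : ℝ) = u ^ 50 := by
    rw [← hu100, show u ^ 100 = (u ^ 50) ^ 2 by ring]
    exact Real.sqrt_sq (by positivity)
  have hP3 : 3 ≤ P.card := by
    have h1 : (3 : ℝ) ≤ u ^ 100 := by
      calc (3 : ℝ) ≤ u := le_trans (by norm_num) hu1
        _ = u ^ 1 := (pow_one u).symm
        _ ≤ u ^ 100 := pow_le_pow_right₀ hone (by norm_num)
    rw [hu100] at h1
    exact_mod_cast h1
  obtain ⟨Q, hQP, hQcard, hQreg⟩ := exists_regular hx hP3 hcol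
  have hlogn : Real.log (P.card : ℝ) = 100 * Real.log u := by
    rw [← hu100, Real.log_pow]
    norm_num
  have hlogu1 : 1 ≤ Real.log u := by
    rw [Real.le_log_iff_exp_le hu0]
    linarith [Real.exp_one_lt_d9]
  have hlogu2 : Real.log u ≤ u := (Real.log_le_sub_one_of_pos hu0).trans (by linarith)
  obtain ⟨a, ha⟩ : ∃ a : ℝ, a = 2600000 * Real.log u := ⟨_, rfl⟩
  have ha1 : 1 ≤ a := by rw [ha]; linarith
  have ha2 : a ≤ 2600000 * u := by rw [ha]; linarith
  have hAval : 26000 * (P.card : ℝ) * Real.log P.card = a * u ^ 100 := by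
    rw [hlogn, ← hu100, ha]; ring
  obtain ⟨s, hs⟩ : ∃ s : ℕ, s = ⌈u ^ 40⌉₊ := ⟨_, rfl⟩
  obtain ⟨t, ht⟩ : ∃ t : ℕ, t = ⌈8 * u⌉₊ + 1 := ⟨_, rfl⟩
  have hs1 : u ^ 40 ≤ s := by rw [hs]; exact Nat.le_ceil _
  have hu40 : u ≤ u ^ 40 := by
    calc u = u ^ 1 := (pow_one u).symm
      _ ≤ u ^ 40 := pow_le_pow_right₀ hone (by norm_num)
  have hs2 : (s : ℝ) ≤ 2 * u ^ 40 := by
    have := (Nat.ceil_lt_add_one (show 0 ≤ u ^ 40 by positivity)).le
    rw [← hs] at this
    linarith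
  have hs2' : 2 ≤ s := by
    have : (2 : ℝ) ≤ s := by linarith
    exact_mod_cast this
  have ht1 : 8 * u ≤ t := by
    rw [ht]
    push_cast
    linarith [Nat.le_ceil (8 * u)]
  have ht2 : (t : ℝ) ≤ 9 * u := by
    have := (Nat.ceil_lt_add_one (show 0 ≤ 8 * u by positivity)).le
    rw [ht]
    push_cast
    linarith
  have ht2' : 2 ≤ t := by
    have : (2 : ℝ) ≤ t := by linarith
    exact_mod_cast this
  have hq1 : u / u ^ 50 ≤ 1 := by
    rw [div_le_one (by positivity)]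
    calc u = u ^ 1 := (pow_one u).symm
      _ ≤ u ^ 50 := pow_le_pow_right₀ hone (by norm_num)
  have hxQ : DistX Q := hx.mono hQP
  have hBQ : ∀ l, ((onLine Q l).card : ℝ) ≤ u ^ 50 := by
    intro l
    rw [← hsqrt]
    refine le_trans ?_ (hcol l)
    exact_mod_cast Finset.card_le_card (Finset.filter_subset_filter _ hQP)
  obtain ⟨R, hRQ, hRcard, hI, hline, hdeg⟩ := exists_sparse (Q := Q) hxQ (A := a * u ^ 100)
    (B := u ^ 50) (q := u / u ^ 50) (s := s) (t := t) hs2' ht2' (by positivity) (by positivity)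
    (by positivity) hq1 (fun x hxQ => by
      have := hQreg x hxQ
      rw [hAval] at this
      exact this) hBQ
  have hQle : (Q.card : ℝ) ≤ u ^ 100 := by
    rw [hu100]
    exact_mod_cast Finset.card_le_card hQP
  have hQge : u ^ 100 / 2 ≤ (Q.card : ℝ) := by
    rw [hu100]; exact hQcard
  have hR : u ^ 51 / 4 ≤ (R.card : ℝ) :=
    (size_bound hbig hQge hQle ha1 ha2 hs1 hs2 ht1).trans hRcard
  have hxR : DistX R := hxQ.mono hRQ
  have hlogt : Real.log u ≤ Real.log t :=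
    Real.log_le_log hu0 (by linarith)
  obtain ⟨W, hWR, hW2, hWc⟩ := hA (ℝ × ℝ) R (FF R) (t : ℝ) (linSpace_FF hxR hI)
    (by linarith) (fun L hL => by
      obtain ⟨⟨l, rfl⟩, _⟩ := mem_FF hL
      exact_mod_cast (hline l).le) (fun v hv => by
      refine (deg_FF hxR hv).trans ?_
      have h1 := hdeg v hv
      calc (9 / 2) * ((Pr R v).card : ℝ) ≤ (9 / 2) * (8 * (u / u ^ 50) ^ 2 * (a * u ^ 100)) :=
            mul_le_mul_of_nonneg_left h1 (by norm_num)
        _ = 36 * a * u ^ 2 := by field_simp; ring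
        _ = 93600000 * u ^ 2 * Real.log u := by rw [ha]; ring
        _ ≤ 93600000 * (t : ℝ) ^ 2 * Real.log t := by
            refine mul_le_mul ?_ hlogt (by linarith) (by positivity)
            refine mul_le_mul_of_nonneg_left ?_ (by norm_num)
            exact pow_le_pow_left₀ hu0.le (by linarith) 2)
  refine ⟨W, hWR.trans (hRQ.trans hQP), ?_, ?_⟩
  · intro l
    by_contra hcon
    rw [not_le] at hcon
    obtain ⟨x, hxW, y, hyW, z, hzW, hxy, hxz, hyz⟩ := Finset.two_lt_card.mp hcon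
    have hx' := mem_onLine.mp hxW
    have hy' := mem_onLine.mp hyW
    have hlin : l = lin x y := eq_lin (hxR.ne (hWR hx'.1) (hWR hy'.1) hxy) hx'.2 hy'.2
    have hsub : onLine W l ⊆ onLine R l := Finset.filter_subset_filter _ hWR
    have hL : onLine R l ∈ FF R := by
      unfold FF
      rw [mem_filter, mem_image]
      refine ⟨⟨(x, y), ?_, ?_⟩, ?_⟩
      · rw [mem_offDiag]
        exact ⟨hWR hx'.1, hWR hy'.1, hxy⟩
      · rw [← hlin]
      · exact hcon.trans_le (Finset.card_le_card hsub)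
    have h2 := hW2 _ hL
    have h3 : onLine W l ⊆ onLine R l ∩ W := by
      intro p hp
      rw [mem_inter]
      exact ⟨hsub hp, (mem_onLine.mp hp).1⟩
    have h4 := Finset.card_le_card h3
    omega
  · rw [hsqrt]
    refine le_trans ?_ hWc
    have ht0 : (0 : ℝ) < t := by linarith
    rw [le_div_iff₀ ht0]
    calc c / 36 * u ^ 50 * t ≤ c / 36 * u ^ 50 * (9 * u) :=
          mul_le_mul_of_nonneg_left ht2 (by positivity)
      _ = c * (u ^ 51 / 4) := by ring
      _ ≤ c * R.card := mul_le_mul_of_nonneg_left hR hc.le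

end Pool.Agent.Helper34
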