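import Pool.Agent.Helper34.Basic

set_option autoImplicit false

namespace Pool.Agent.Helper34

open Finset

noncomputable def psi (b : ℝ) (j : ℕ) : ℝ :=
  if j ≤ 1 then 1 else if j = 2 then Real.exp (-b) else 0

noncomputable def rr (b : ℝ) (j : ℕ) : ℝ :=
  if j = 0 then 1 else if j = 1 then Real.exp (-b) else 0

theorem psi_succ (b : ℝ) (j : ℕ) : psi b (j + 1) = rr b j * psi b j := by
  unfold psi rr
  rcases j with _ | _ | _ | j <;> simp

theorem psi_nonneg (b : ℝ) (j : ℕ) : 0 ≤ psi b j := by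
  unfold psi
  split_ifs <;> positivity

theorem psi_zero (b : ℝ) : psi b 0 = 1 := by simp [psi]
theorem psi_one (b : ℝ) : psi b 1 = 1 := by simp [psi]
theorem psi_two (b : ℝ) : psi b 2 = Real.exp (-b) := by simp [psi]
theorem psi_ge (b : ℝ) (j : ℕ) (hj : 3 ≤ j) : psi b j = 0 := by
  unfold psi
  rw [if_neg (by omega), if_neg (by omega)]

theorem rr_nonneg (b : ℝ) (j : ℕ) : 0 ≤ rr b j := by
  unfold rr
  split_ifs <;> positivity

theorem rr_le_one (b : ℝ) (hb : 0 ≤ b) (j : ℕ) : rr b j ≤ 1 := by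
  unfold rr
  split_ifs
  · exact le_refl _
  · exact Real.exp_le_one_iff.mpr (by linarith)
  · exact zero_le_one

variable {α : Type*} [DecidableEq α]

/-- product weight of a configuration with respect to a family of lines -/
noncomputable def pw (lam : ℝ) (b : Finset α → ℝ) (F : Finset (Finset α)) (W : Finset α) : ℝ :=
  lam ^ W.card * ∏ M ∈ F, psi (b M) (M ∩ W).card

/-- local weight of a point `y` in the configuration `S` -/
noncomputable def wy (lam : ℝ) (b : Finset α → ℝ) (F : Finset (Finset α)) (y : α)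
    (S : Finset α) : ℝ :=
  lam * ∏ M ∈ F with y ∈ M, rr (b M) (M ∩ S).card

theorem pw_nonneg {lam : ℝ} (hl : 0 ≤ lam) (b : Finset α → ℝ) (F : Finset (Finset α))
    (W : Finset α) : 0 ≤ pw lam b F W :=
  mul_nonneg (pow_nonneg hl _) (Finset.prod_nonneg fun _ _ => psi_nonneg _ _)

theorem wy_nonneg {lam : ℝ} (hl : 0 ≤ lam) (b : Finset α → ℝ) (F : Finset (Finset α))
    (y : α) (S : Finset α) : 0 ≤ wy lam b F y S :=
  mul_nonneg hl (Finset.prod_nonneg fun _ _ => rr_nonneg _ _)

theorem wy_le {lam : ℝ} (hl : 0 ≤ lam) (b : Finset α → ℝ) (F : Finset (Finset α))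
    (hb : ∀ M ∈ F, 0 ≤ b M) (y : α) (S : Finset α) : wy lam b F y S ≤ lam := by
  unfold wy
  have : ∏ M ∈ F with y ∈ M, rr (b M) (M ∩ S).card ≤ 1 :=
    Finset.prod_le_one (fun _ _ => rr_nonneg _ _)
      (fun M hM => rr_le_one _ (hb M (Finset.mem_of_mem_filter M hM)) _)
  nlinarith

/-- Adding points from a set `U` met by every line of `F` at most once. -/
theorem pw_block (lam : ℝ) (b : Finset α → ℝ) (F : Finset (Finset α)) (U : Finset α)
    (hU : ∀ M ∈ F, ∀ x ∈ U, ∀ y ∈ U, x ∈ M → y ∈ M → x = y)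
    (S : Finset α) (hS : Disjoint S U) (A : Finset α) (hA : A ⊆ U) :
    pw lam b F (S ∪ A) = pw lam b F S * ∏ y ∈ A, wy lam b F y S := by
  induction A using Finset.induction_on with
  | empty => simp
  | insert y A hy ih =>
    have hA' : A ⊆ U := (Finset.subset_insert _ _).trans hA
    have hyU : y ∈ U := hA (mem_insert_self _ _)
    have hyS : y ∉ S := fun h => (Finset.disjoint_left.mp hS) h hyU
    rw [Finset.prod_insert hy]
    have key : pw lam b F (S ∪ insert y A) = wy lam b F y S * pw lam b F (S ∪ A) := by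
      unfold pw wy
      have h1 : S ∪ insert y A = insert y (S ∪ A) := Finset.union_insert _ _ _
      have h2 : y ∉ S ∪ A := by
        simp only [mem_union, not_or]
        exact ⟨hyS, hy⟩
      rw [h1, Finset.card_insert_of_notMem h2, pow_succ]
      have h3 : ∏ M ∈ F, psi (b M) (M ∩ insert y (S ∪ A)).card
          = (∏ M ∈ F with y ∈ M, rr (b M) (M ∩ S).card)
            * ∏ M ∈ F, psi (b M) (M ∩ (S ∪ A)).card := by
        rw [Finset.prod_filter, ← Finset.prod_mul_distrib]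
        refine Finset.prod_congr rfl fun M hM => ?_
        split_ifs with hyM
        · have h4 : M ∩ insert y (S ∪ A) = insert y (M ∩ (S ∪ A)) :=
            Finset.inter_insert_of_mem hyM
          have h5 : y ∉ M ∩ (S ∪ A) := fun h => h2 (Finset.mem_of_mem_inter_right h)
          rw [h4, Finset.card_insert_of_notMem h5, psi_succ]
          have h6 : M ∩ (S ∪ A) = M ∩ S := by
            ext x
            simp only [mem_inter, mem_union]
            constructor
            · rintro ⟨hxM, hx | hx⟩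
              · exact ⟨hxM, hx⟩
              · exact absurd (hU M hM x (hA' hx) y hyU hxM hyM ▸ hx) hy
            · rintro ⟨hxM, hx⟩
              exact ⟨hxM, Or.inl hx⟩
          rw [h6]
        · rw [Finset.inter_insert_of_notMem hyM, one_mul]
      rw [h3]
      ring
    rw [key, ih hA']
    ring

/-- A finite triangle-free linear space. -/
structure LinSpace (V : Finset α) (F : Finset (Finset α)) : Prop where
  sub : ∀ L ∈ F, L ⊆ V
  lin : ∀ L ∈ F, ∀ M ∈ F, L ≠ M → ∀ x y, x ∈ L → x ∈ M → y ∈ L → y ∈ M → x = y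
  tf : ∀ L ∈ F, ∀ M ∈ F, ∀ N ∈ F, L ≠ M → M ≠ N → L ≠ N →
    ∀ x y z, x ∈ L → x ∈ M → y ∈ M → y ∈ N → z ∈ L → z ∈ N → x = y

/-- weight of `y` with respect to the lines other than `L` -/
noncomputable def wl (lam : ℝ) (b : Finset α → ℝ) (F : Finset (Finset α)) (L : Finset α) (y : α)
    (W : Finset α) : ℝ :=
  wy lam b (F.erase L) y (W.erase y)

theorem wl_nonneg {lam : ℝ} (hl : 0 ≤ lam) (b : Finset α → ℝ) (F : Finset (Finset α))
    (L : Finset α) (y : α) (W : Finset α) : 0 ≤ wl lam b F L y W := wy_nonneg hl _ _ _ _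

theorem wl_le {lam : ℝ} (hl : 0 ≤ lam) (b : Finset α → ℝ) (F : Finset (Finset α))
    (hb : ∀ M ∈ F, 0 ≤ b M) (L : Finset α) (y : α) (W : Finset α) :
    wl lam b F L y W ≤ lam :=
  wy_le hl _ _ (fun M hM => hb M (Finset.mem_of_mem_erase hM)) _ _

section

variable {V : Finset α} {F : Finset (Finset α)} (lam : ℝ) (b : Finset α → ℝ)

theorem wl_eq_line (h : LinSpace V F) {L : Finset α} (hL : L ∈ F) {y : α} (hy : y ∈ L)
    (W : Finset α) : wl lam b F L y W = wy lam b (F.erase L) y (W \ L) := by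
  unfold wl wy
  congr 1
  refine Finset.prod_congr rfl fun M hM => ?_
  rw [mem_filter, mem_erase] at hM
  obtain ⟨⟨hML, hMF⟩, hyM⟩ := hM
  congr 2
  ext x
  simp only [mem_inter, mem_erase, mem_sdiff]
  constructor
  · rintro ⟨hxM, hxy, hxW⟩
    exact ⟨hxM, hxW, fun hxL => hxy (h.lin M hMF L hL hML x y hxM hxL hyM hy)⟩
  · rintro ⟨hxM, hxW, hxL⟩
    exact ⟨hxM, fun hxy => hxL (hxy ▸ hy), hxW⟩

/-- punctured neighbourhood -/
def nb (F : Finset (Finset α)) (v : α) : Finset α :=
  (F.filter fun L => v ∈ L).biUnion fun L => L.erase v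

theorem mem_nb {F : Finset (Finset α)} {v x : α} :
    x ∈ nb F v ↔ ∃ L ∈ F, v ∈ L ∧ x ∈ L ∧ x ≠ v := by
  unfold nb
  simp only [mem_biUnion, mem_filter, mem_erase]
  constructor
  · rintro ⟨L, ⟨h1, h2⟩, h3, h4⟩
    exact ⟨L, h1, h2, h4, h3⟩
  · rintro ⟨L, h1, h2, h3, h4⟩
    exact ⟨L, ⟨h1, h2⟩, h4, h3⟩

theorem wl_eq_pt (h : LinSpace V F) {L : Finset α} (hL : L ∈ F) {v y : α} (hv : v ∈ L)
    (hy : y ∈ L) (hyv : y ≠ v) (W : Finset α) :
    wl lam b F L y W = wy lam b (F.filter fun M => v ∉ M) y (W \ insert v (nb F v)) := by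
  unfold wl wy
  congr 1
  have hfil : ((F.erase L).filter fun M => y ∈ M)
      = (F.filter fun M => v ∉ M).filter fun M => y ∈ M := by
    ext M
    simp only [mem_filter, mem_erase]
    constructor
    · rintro ⟨⟨h1, h2⟩, h3⟩
      exact ⟨⟨h2, fun h4 => hyv (h.lin M h2 L hL h1 y v h3 hy h4 hv)⟩, h3⟩
    · rintro ⟨⟨h1, h2⟩, h3⟩
      exact ⟨⟨fun h4 => h2 (h4 ▸ hv), h1⟩, h3⟩
  rw [hfil]
  refine Finset.prod_congr rfl fun M hM => ?_
  simp only [mem_filter] at hM
  obtain ⟨⟨hMF, hvM⟩, hyM⟩ := hM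
  have hML : M ≠ L := fun h4 => hvM (h4 ▸ hv)
  congr 2
  ext x
  simp only [mem_inter, mem_erase, mem_sdiff, mem_insert, mem_nb]
  constructor
  · rintro ⟨hxM, hxy, hxW⟩
    refine ⟨hxM, hxW, ?_⟩
    rintro (hxv | ⟨N, hN, hvN, hxN, hxv⟩)
    · exact hvM (hxv ▸ hxM)
    · by_cases hLN : L = N
      · subst hLN
        exact hxy (h.lin M hMF L hL hML x y hxM hxN hyM hy)
      · have hMN : M ≠ N := fun h4 => hvM (h4 ▸ hvN)
        -- y ∈ L ∩ M, x ∈ M ∩ N, v ∈ L ∩ N
        exact hxy (h.tf L hL M hMF N hN (Ne.symm hML) hMN hLN y x v hy hyM hxM hxN hv hvN).symm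
  · rintro ⟨hxM, hxW, hx⟩
    refine ⟨hxM, ?_, hxW⟩
    intro hxy
    subst hxy
    exact hx (Or.inr ⟨L, hL, hv, hy, hyv⟩)

/-- sum of the local weights over `U` -/
noncomputable def om (F : Finset (Finset α)) (L U : Finset α) (W : Finset α) : ℝ :=
  ∑ y ∈ U, wl lam b F L y W

noncomputable def sq (F : Finset (Finset α)) (L U : Finset α) (W : Finset α) : ℝ :=
  ((∑ y ∈ U, wl lam b F L y W) ^ 2 - ∑ y ∈ U, wl lam b F L y W ^ 2) / 2

noncomputable def Zf (F : Finset (Finset α)) (L U : Finset α) (W : Finset α) : ℝ :=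
  1 + om lam b F L U W + Real.exp (-b L) * sq lam b F L U W

noncomputable def Yf (F : Finset (Finset α)) (L U : Finset α) (W : Finset α) : ℝ :=
  1 + Real.exp (-b L) * om lam b F L U W

noncomputable def lamL (F : Finset (Finset α)) (L : Finset α) (v : α) (W : Finset α) : ℝ :=
  Real.log (Zf lam b F L (L.erase v) W / Yf lam b F L (L.erase v) W)

noncomputable def Lam (F : Finset (Finset α)) (v : α) (W : Finset α) : ℝ :=
  ∑ L ∈ F with v ∈ L, lamL lam b F L v W

end

theorem sq_nonneg_of (w : α → ℝ) (U : Finset α) (hw : ∀ y ∈ U, 0 ≤ w y) :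
    0 ≤ ((∑ y ∈ U, w y) ^ 2 - ∑ y ∈ U, w y ^ 2) / 2 := by
  have : ∑ y ∈ U, w y ^ 2 ≤ (∑ y ∈ U, w y) ^ 2 := by
    rw [pow_two (∑ y ∈ U, w y), Finset.sum_mul]
    refine Finset.sum_le_sum fun y hy => ?_
    rw [pow_two]
    exact mul_le_mul_of_nonneg_left (Finset.single_le_sum hw hy) (hw y hy)
  linarith

section

variable {V : Finset α} {F : Finset (Finset α)} {lam : ℝ} {b : Finset α → ℝ}

theorem om_nonneg (hl : 0 ≤ lam) (L U W : Finset α) : 0 ≤ om lam b F L U W :=
  Finset.sum_nonneg fun _ _ => wl_nonneg hl _ _ _ _ _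

theorem sq_nonneg' (hl : 0 ≤ lam) (L U W : Finset α) : 0 ≤ sq lam b F L U W :=
  sq_nonneg_of _ _ fun _ _ => wl_nonneg hl _ _ _ _ _

theorem Zf_ge_one (hl : 0 ≤ lam) (L U W : Finset α) : 1 ≤ Zf lam b F L U W := by
  unfold Zf
  have := om_nonneg (F := F) (b := b) hl L U W
  have := mul_nonneg (Real.exp_pos (-b L)).le (sq_nonneg' (F := F) (b := b) hl L U W)
  linarith

theorem Yf_ge_one (hl : 0 ≤ lam) (L U W : Finset α) : 1 ≤ Yf lam b F L U W := by
  unfold Yf
  have := mul_nonneg (Real.exp_pos (-b L)).le (om_nonneg (F := F) (b := b) hl L U W)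
  linarith

/-- The fundamental local identity at a point. -/
theorem point_identity (h : LinSpace V F) (hl : 0 ≤ lam) {v : α} (hv : v ∈ V) (g : ℝ → ℝ) :
    ∑ W ∈ V.powerset with v ∈ W, pw lam b F W * g (Lam lam b F v W)
      = lam * ∑ W ∈ V.powerset with v ∉ W,
          pw lam b F W * Real.exp (-Lam lam b F v W) * g (Lam lam b F v W) := by
  classical
  rw [sum_powerset_mem V v hv, filter_notMem_powerset]
  set Fv := F.filter fun L => v ∈ L with hFv
  set Fn := F.filter fun M => v ∉ M with hFn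
  have hN0 : nb F v ⊆ V.erase v := by
    intro x hx
    rw [mem_nb] at hx
    obtain ⟨L, hL, _, hxL, hxv⟩ := hx
    exact mem_erase.mpr ⟨hxv, h.sub L hL hxL⟩
  rw [sum_powerset_split (V.erase v) (nb F v) hN0, sum_powerset_split (V.erase v) (nb F v) hN0,
    Finset.mul_sum]
  refine Finset.sum_congr rfl fun S hS => ?_
  rw [mem_powerset] at hS
  have hvS : v ∉ S := fun hh => by
    have := hS hh
    simp at this
  have hSN : Disjoint S (nb F v) := by
    rw [Finset.disjoint_left]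
    intro x hx hx'
    have := hS hx
    rw [mem_sdiff] at this
    exact this.2 hx'
  have hvN : v ∉ nb F v := by
    rw [mem_nb]
    rintro ⟨_, _, _, _, h5⟩
    exact h5 rfl
  -- Lam is constant
  have hLamS : ∀ W : Finset α, W \ insert v (nb F v) = S → Lam lam b F v W = Lam lam b F v S := by
    intro W hW
    unfold Lam
    refine Finset.sum_congr rfl fun L hL => ?_
    rw [mem_filter] at hL
    have hS' : S \ insert v (nb F v) = S := by
      rw [Finset.sdiff_eq_self_iff_disjoint, Finset.disjoint_insert_right]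
      exact ⟨hvS, hSN⟩
    have hw : ∀ y ∈ L.erase v, wl lam b F L y W = wl lam b F L y S := by
      intro y hy
      rw [mem_erase] at hy
      rw [wl_eq_pt lam b h hL.1 hL.2 hy.2 hy.1, wl_eq_pt lam b h hL.1 hL.2 hy.2 hy.1, hW, hS']
    unfold lamL Zf Yf om sq
    rw [Finset.sum_congr rfl hw]
    have hw2 : ∑ y ∈ L.erase v, wl lam b F L y W ^ 2 = ∑ y ∈ L.erase v, wl lam b F L y S ^ 2 :=
      Finset.sum_congr rfl fun y hy => by rw [hw y hy]
    rw [hw2]
  have hsd : ∀ A ⊆ nb F v, (S ∪ A) \ insert v (nb F v) = S := by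
    intro A hA
    ext x
    simp only [mem_sdiff, mem_union, mem_insert, not_or]
    constructor
    · rintro ⟨h1 | h1, h2, h3⟩
      · exact h1
      · exact absurd (hA h1) h3
    · intro hx
      exact ⟨Or.inl hx, fun h1 => hvS (h1 ▸ hx), (Finset.disjoint_left.mp hSN) hx⟩
  have hsd' : ∀ A ⊆ nb F v, (insert v (S ∪ A)) \ insert v (nb F v) = S := by
    intro A hA
    ext x
    simp only [mem_sdiff, mem_union, mem_insert, not_or]
    constructor
    · rintro ⟨h0 | h1 | h1, h2, h3⟩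
      · exact absurd h0 h2
      · exact h1
      · exact absurd (hA h1) h3
    · intro hx
      exact ⟨Or.inr (Or.inl hx), fun h1 => hvS (h1 ▸ hx), (Finset.disjoint_left.mp hSN) hx⟩
  -- block structure
  have hblock : ∀ M ∈ Fn, ∀ x ∈ nb F v, ∀ y ∈ nb F v, x ∈ M → y ∈ M → x = y := by
    intro M hM x hx y hy hxM hyM
    rw [hFn, mem_filter] at hM
    rw [mem_nb] at hx hy
    obtain ⟨L, hL, hvL, hxL, hxv⟩ := hx
    obtain ⟨N, hN, hvN', hyN, hyv⟩ := hy
    have hML : M ≠ L := fun h4 => hM.2 (h4 ▸ hvL)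
    have hMN : M ≠ N := fun h4 => hM.2 (h4 ▸ hvN')
    by_cases hLN : L = N
    · subst hLN
      exact h.lin M hM.1 L hL hML x y hxM hxL hyM hyN
    · exact h.tf L hL M hM.1 N hN (Ne.symm hML) hMN hLN x y v hxL hxM hyM hyN hvL hvN'
  have hdisj : ∀ L ∈ Fv, ∀ M ∈ Fv, L ≠ M → Disjoint (L.erase v) (M.erase v) := by
    intro L hL M hM hLM
    rw [hFv, mem_filter] at hL hM
    rw [Finset.disjoint_left]
    intro x hx hx'
    rw [mem_erase] at hx hx'
    exact hx.1 (h.lin L hL.1 M hM.1 hLM x v hx.2 hx'.2 hL.2 hM.2)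
  have hnb : nb F v = Fv.biUnion fun L => L.erase v := rfl
  have hprodA : ∀ A ⊆ nb F v, ∏ y ∈ A, wy lam b Fn y S
      = ∏ L ∈ Fv, ∏ y ∈ A ∩ L.erase v, wy lam b Fn y S := by
    intro A hA
    have hA' : A = Fv.biUnion fun L => A ∩ L.erase v := by
      rw [← Finset.inter_biUnion, ← hnb]
      exact (Finset.inter_eq_left.mpr hA).symm
    conv_lhs => rw [hA']
    rw [Finset.prod_biUnion]
    intro L hL M hM hLM
    exact (hdisj L hL M hM hLM).mono Finset.inter_subset_right Finset.inter_subset_right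
  -- factorisation of the weights
  have hsplitF : ∀ W : Finset α, pw lam b F W
      = pw lam b Fn W * ∏ L ∈ Fv, psi (b L) (L ∩ W).card := by
    intro W
    unfold pw
    rw [← Finset.prod_filter_mul_prod_filter_not F (fun L => v ∈ L)]
    rw [← hFv, ← hFn]
    ring
  have hwt1 : ∀ A ⊆ nb F v, pw lam b F (S ∪ A)
      = pw lam b Fn S * ∏ L ∈ Fv, (psi (b L) (A ∩ L.erase v).card
          * ∏ y ∈ A ∩ L.erase v, wy lam b Fn y S) := by
    intro A hA
    rw [hsplitF, pw_block lam b Fn (nb F v) hblock S hSN A hA, hprodA A hA,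
      Finset.prod_mul_distrib]
    have : ∀ L ∈ Fv, psi (b L) (L ∩ (S ∪ A)).card = psi (b L) (A ∩ L.erase v).card := by
      intro L hL
      rw [hFv, mem_filter] at hL
      congr 2
      ext x
      simp only [mem_inter, mem_union, mem_erase]
      constructor
      · rintro ⟨hxL, hx | hx⟩
        · exfalso
          by_cases hxv : x = v
          · exact hvS (hxv ▸ hx)
          · exact (Finset.disjoint_left.mp hSN) hx (mem_nb.mpr ⟨L, hL.1, hL.2, hxL, hxv⟩)
        · exact ⟨hx, fun hxv => hvN (hxv ▸ hA hx), hxL⟩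
      · rintro ⟨hx, _, hxL⟩
        exact ⟨hxL, Or.inr hx⟩
    rw [Finset.prod_congr rfl this]
    ring
  have hwt2 : ∀ A ⊆ nb F v, pw lam b F (insert v (S ∪ A))
      = lam * (pw lam b Fn S * ∏ L ∈ Fv, (psi (b L) ((A ∩ L.erase v).card + 1)
          * ∏ y ∈ A ∩ L.erase v, wy lam b Fn y S)) := by
    intro A hA
    have hvSA : v ∉ S ∪ A := by
      simp only [mem_union, not_or]
      exact ⟨hvS, fun hh => hvN (hA hh)⟩
    have hpn : pw lam b Fn (insert v (S ∪ A)) = lam * pw lam b Fn (S ∪ A) := by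
      unfold pw
      rw [Finset.card_insert_of_notMem hvSA, pow_succ]
      have : ∀ M ∈ Fn, psi (b M) (M ∩ insert v (S ∪ A)).card = psi (b M) (M ∩ (S ∪ A)).card := by
        intro M hM
        rw [hFn, mem_filter] at hM
        rw [Finset.inter_insert_of_notMem hM.2]
      rw [Finset.prod_congr rfl this]
      ring
    rw [hsplitF, hpn, pw_block lam b Fn (nb F v) hblock S hSN A hA, hprodA A hA,
      Finset.prod_mul_distrib]
    have : ∀ L ∈ Fv, psi (b L) (L ∩ insert v (S ∪ A)).card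
        = psi (b L) ((A ∩ L.erase v).card + 1) := by
      intro L hL
      rw [hFv, mem_filter] at hL
      congr 1
      have h1 : L ∩ insert v (S ∪ A) = insert v (A ∩ L.erase v) := by
        ext x
        simp only [mem_inter, mem_union, mem_erase, mem_insert]
        constructor
        · rintro ⟨hxL, hx | hx | hx⟩
          · exact Or.inl hx
          · by_cases hxv : x = v
            · exact Or.inl hxv
            · exact absurd (mem_nb.mpr ⟨L, hL.1, hL.2, hxL, hxv⟩)
                ((Finset.disjoint_left.mp hSN) hx)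
          · exact Or.inr ⟨hx, fun hxv => hvN (hxv ▸ hA hx), hxL⟩
        · rintro (hx | ⟨hx, _, hxL⟩)
          · exact ⟨hx ▸ hL.2, Or.inl hx⟩
          · exact ⟨hxL, Or.inr (Or.inr hx)⟩
      rw [h1, Finset.card_insert_of_notMem]
      simp
    rw [Finset.prod_congr rfl this]
    ring
  -- local sums
  have hwyl : ∀ L ∈ Fv, ∀ y ∈ L.erase v, wy lam b Fn y S = wl lam b F L y S := by
    intro L hL y hy
    rw [hFv, mem_filter] at hL
    rw [mem_erase] at hy
    rw [wl_eq_pt lam b h hL.1 hL.2 hy.2 hy.1]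
    congr 1
    rw [eq_comm, Finset.sdiff_eq_self_iff_disjoint, Finset.disjoint_insert_right]
    exact ⟨hvS, hSN⟩
  have hloc : ∀ L ∈ Fv, ∀ ψ : ℕ → ℝ, (∀ j, 3 ≤ j → ψ j = 0) →
      ∑ B ∈ (L.erase v).powerset, ψ B.card * ∏ y ∈ B, wy lam b Fn y S
        = ψ 0 + ψ 1 * om lam b F L (L.erase v) S + ψ 2 * sq lam b F L (L.erase v) S := by
    intro L hL ψ hψ
    rw [sum_powerset_quad _ _ ψ hψ]
    unfold om sq
    rw [Finset.sum_congr rfl (hwyl L hL)]
    have : ∑ y ∈ L.erase v, wy lam b Fn y S ^ 2 = ∑ y ∈ L.erase v, wl lam b F L y S ^ 2 :=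
      Finset.sum_congr rfl fun y hy => by rw [hwyl L hL y hy]
    rw [this]
  have hZ : ∀ L ∈ Fv, ∑ B ∈ (L.erase v).powerset,
      psi (b L) B.card * ∏ y ∈ B, wy lam b Fn y S = Zf lam b F L (L.erase v) S := by
    intro L hL
    rw [hloc L hL (psi (b L)) (fun j hj => psi_ge _ _ hj), psi_zero, psi_one, psi_two]
    unfold Zf
    ring
  have hY : ∀ L ∈ Fv, ∑ B ∈ (L.erase v).powerset,
      psi (b L) (B.card + 1) * ∏ y ∈ B, wy lam b Fn y S = Yf lam b F L (L.erase v) S := by
    intro L hL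
    rw [hloc L hL (fun j => psi (b L) (j + 1)) (fun j hj => psi_ge _ _ (by omega))]
    simp only [zero_add]
    rw [psi_one, show (1 + 1 : ℕ) = 2 from rfl, psi_two, psi_ge _ (2 + 1) (by norm_num)]
    unfold Yf
    ring
  have hexp : Real.exp (-Lam lam b F v S)
      = ∏ L ∈ Fv, (Yf lam b F L (L.erase v) S / Zf lam b F L (L.erase v) S) := by
    unfold Lam
    rw [← Finset.sum_neg_distrib, Real.exp_sum]
    refine Finset.prod_congr rfl fun L _ => ?_
    unfold lamL
    have h1 := Zf_ge_one (F := F) (b := b) hl L (L.erase v) S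
    have h2 := Yf_ge_one (F := F) (b := b) hl L (L.erase v) S
    rw [← Real.log_inv, Real.exp_log (by positivity), inv_div]
  have hsum1 : ∑ A ∈ (nb F v).powerset, pw lam b F (S ∪ A)
      = pw lam b Fn S * ∏ L ∈ Fv, Zf lam b F L (L.erase v) S := by
    rw [← Finset.prod_congr rfl hZ]
    rw [← sum_powerset_biUnion_prod Fv (fun L => L.erase v) hdisj
      (fun L B => psi (b L) B.card * ∏ y ∈ B, wy lam b Fn y S), Finset.mul_sum]
    refine Finset.sum_congr rfl fun A hA => ?_
    rw [mem_powerset] at hA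
    exact hwt1 A hA
  have hsum2 : ∑ A ∈ (nb F v).powerset, pw lam b F (insert v (S ∪ A))
      = lam * (pw lam b Fn S * ∏ L ∈ Fv, Yf lam b F L (L.erase v) S) := by
    rw [← Finset.prod_congr rfl hY]
    rw [← sum_powerset_biUnion_prod Fv (fun L => L.erase v) hdisj
      (fun L B => psi (b L) (B.card + 1) * ∏ y ∈ B, wy lam b Fn y S), Finset.mul_sum,
      Finset.mul_sum]
    refine Finset.sum_congr rfl fun A hA => ?_
    rw [mem_powerset] at hA
    exact hwt2 A hA
  -- conclude
  have hl1 : ∑ A ∈ (nb F v).powerset, pw lam b F (insert v (S ∪ A))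
      * g (Lam lam b F v (insert v (S ∪ A)))
      = (∑ A ∈ (nb F v).powerset, pw lam b F (insert v (S ∪ A))) * g (Lam lam b F v S) := by
    rw [Finset.sum_mul]
    refine Finset.sum_congr rfl fun A hA => ?_
    rw [mem_powerset] at hA
    rw [hLamS _ (hsd' A hA)]
  have hl2 : ∑ A ∈ (nb F v).powerset, pw lam b F (S ∪ A) * Real.exp (-Lam lam b F v (S ∪ A))
      * g (Lam lam b F v (S ∪ A))
      = (∑ A ∈ (nb F v).powerset, pw lam b F (S ∪ A)) * Real.exp (-Lam lam b F v S)
        * g (Lam lam b F v S) := by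
    rw [Finset.sum_mul, Finset.sum_mul]
    refine Finset.sum_congr rfl fun A hA => ?_
    rw [mem_powerset] at hA
    rw [hLamS _ (hsd A hA)]
  rw [hl1, hl2, hsum1, hsum2, hexp]
  have hprod : (∏ L ∈ Fv, Zf lam b F L (L.erase v) S)
      * ∏ L ∈ Fv, (Yf lam b F L (L.erase v) S / Zf lam b F L (L.erase v) S)
      = ∏ L ∈ Fv, Yf lam b F L (L.erase v) S := by
    rw [← Finset.prod_mul_distrib]
    refine Finset.prod_congr rfl fun L _ => ?_
    have h1 := Zf_ge_one (F := F) (b := b) hl L (L.erase v) S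
    field_simp
  rw [← hprod]
  ring

end

end Pool.Agent.Helper34
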