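import Pool.Agent.Helper34.Gibbs

set_option autoImplicit false

namespace Pool.Agent.Helper34

open Finset

/-- The real inequality behind the line estimate. -/
theorem line_lemma {α : Type*} [DecidableEq α] (L : Finset α) (w : α → ℝ) (lam b q K : ℝ)
    (hlam0 : 0 ≤ lam) (hlam1 : lam ≤ 1 / 250) (hw0 : ∀ y ∈ L, 0 ≤ w y)
    (hw1 : ∀ y ∈ L, w y ≤ lam) (hb0 : 0 ≤ b) (hq0 : 0 ≤ q) (hq1 : q ≤ 1) (hqb : 1 - q ≤ b)
    (hK : (L.card : ℝ) ≤ K)
    (o s : ℝ) (ho : o = ∑ y ∈ L, w y) (hs : s = (o ^ 2 - ∑ y ∈ L, w y ^ 2) / 2)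
    (Zv Yv Lv : α → ℝ) (hYv : ∀ v ∈ L, Yv v = 1 + q * (o - w v))
    (hZv : ∀ v ∈ L, Zv v = 1 + (o - w v) + q * (s - w v * (o - w v)))
    (hLv : ∀ v ∈ L, Lv v = Real.log (Zv v / Yv v))
    (hsv : ∀ v ∈ L, 0 ≤ s - w v * (o - w v)) :
    (∑ v ∈ L, Lv v) * (1 + o + q * s) ≤ (5 / 2) * K * (∑ v ∈ L, w v * Yv v * Lv v)
      + 2 * b * L.card * (o + 2 * (q * s)) + (5 / 2) * L.card * (q * s) := by
  have ho0 : 0 ≤ o := ho ▸ Finset.sum_nonneg hw0
  have hs0 : 0 ≤ s := by
    rw [hs, ho]
    exact sq_nonneg_of w L hw0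
  have hsq0 : 0 ≤ ∑ y ∈ L, w y ^ 2 := Finset.sum_nonneg fun y _ => sq_nonneg _
  have hsq1 : ∑ y ∈ L, w y ^ 2 ≤ lam * o := by
    rw [ho, Finset.mul_sum]
    refine Finset.sum_le_sum fun y hy => ?_
    rw [pow_two]
    exact mul_le_mul_of_nonneg_right (hw1 y hy) (hw0 y hy)
  have hov : ∀ v ∈ L, 0 ≤ o - w v := by
    intro v hv
    have : w v ≤ o := by
      rw [ho]
      exact Finset.single_le_sum hw0 hv
    linarith
  have hYv1 : ∀ v ∈ L, 1 ≤ Yv v := by
    intro v hv
    rw [hYv v hv]
    have := mul_nonneg hq0 (hov v hv)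
    linarith
  have hZY : ∀ v ∈ L, Yv v ≤ Zv v := by
    intro v hv
    rw [hYv v hv, hZv v hv]
    have h1 := hov v hv
    have h2 := mul_nonneg hq0 (hsv v hv)
    nlinarith
  have hLv0 : ∀ v ∈ L, 0 ≤ Lv v := by
    intro v hv
    rw [hLv v hv]
    have h1 := hYv1 v hv
    have h2 := hZY v hv
    exact Real.log_nonneg (by rw [le_div_iff₀ (by linarith)]; linarith)
  have hZ1 : 1 ≤ 1 + o + q * s := by
    have := mul_nonneg hq0 hs0
    linarith
  have hcard : (0 : ℝ) ≤ L.card := Nat.cast_nonneg _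
  rcases lt_or_ge o 1 with ho1 | ho1
  · -- small case
    have hub : ∀ v ∈ L, Lv v ≤ b * o + q * s := by
      intro v hv
      rw [hLv v hv]
      have h1 := hYv1 v hv
      have h2 := hZY v hv
      have h3 : Real.log (Zv v / Yv v) ≤ Zv v / Yv v - 1 :=
        Real.log_le_sub_one_of_pos (by apply div_pos <;> linarith)
      have h4 : Zv v / Yv v - 1 = (Zv v - Yv v) / Yv v := by
        field_simp
      have h5 : (Zv v - Yv v) / Yv v ≤ Zv v - Yv v := by
        rw [div_le_iff₀ (by linarith)]
        nlinarith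
      have h6 : Zv v - Yv v ≤ b * o + q * s := by
        rw [hZv v hv, hYv v hv]
        have h7 := hov v hv
        have h8 := hw0 v hv
        have h9 : (1 - q) * (o - w v) ≤ b * o := by
          have : (1 - q) * (o - w v) ≤ b * (o - w v) := mul_le_mul_of_nonneg_right hqb h7
          nlinarith
        have h10 : 0 ≤ q * (w v * (o - w v)) := by positivity
        nlinarith
      linarith
    have h1 : ∑ v ∈ L, Lv v ≤ L.card * (b * o + q * s) := by
      have := Finset.sum_le_card_nsmul L Lv _ hub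
      rwa [nsmul_eq_mul] at this
    have h2 : (∑ v ∈ L, Lv v) * (1 + o + q * s)
        ≤ L.card * (b * o + q * s) * (1 + o + q * s) :=
      mul_le_mul_of_nonneg_right h1 (by linarith)
    have h3 : 0 ≤ (5 / 2) * K * (∑ v ∈ L, w v * Yv v * Lv v) := by
      have : 0 ≤ ∑ v ∈ L, w v * Yv v * Lv v := by
        refine Finset.sum_nonneg fun v hv => ?_
        have h1 := hYv1 v hv
        exact mul_nonneg (mul_nonneg (hw0 v hv) (by linarith)) (hLv0 v hv)
      have hK0 : 0 ≤ K := le_trans hcard hK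
      positivity
    have h4 : (b * o + q * s) * (1 + o + q * s)
        ≤ 2 * b * (o + 2 * (q * s)) + (5 / 2) * (q * s) := by
      have hs1 : s ≤ o ^ 2 / 2 := by rw [hs]; linarith
      have hqs0 : 0 ≤ q * s := mul_nonneg hq0 hs0
      have hqs : q * s ≤ 1 / 2 := by
        have : q * s ≤ 1 * (o ^ 2 / 2) := mul_le_mul hq1 hs1 hs0 zero_le_one
        nlinarith
      have h5 : q * s * (1 + o + q * s) ≤ (5 / 2) * (q * s) := by nlinarith
      have h6 : o * (1 + o + q * s) ≤ 2 * (o + 2 * (q * s)) := by nlinarith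
      have h7 : b * (o * (1 + o + q * s)) ≤ b * (2 * (o + 2 * (q * s))) :=
        mul_le_mul_of_nonneg_left h6 hb0
      nlinarith
    have h5 := mul_le_mul_of_nonneg_left h4 hcard
    nlinarith
  · -- large case
    obtain ⟨Z, hZ⟩ : ∃ Z : ℝ, Z = 1 + o + q * s := ⟨_, rfl⟩
    obtain ⟨Y, hY⟩ : ∃ Y : ℝ, Y = 1 + q * o := ⟨_, rfl⟩
    rw [← hZ]
    have hY1 : 1 ≤ Y := by
      have := mul_nonneg hq0 ho0
      linarith
    have hZYr : (11 / 10) * Y ≤ Z := by
      rw [hZ, hY]
      have hs1 : (o ^ 2 - lam * o) / 2 ≤ s := by rw [hs]; linarith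
      have hs2 : (249 / 500) * o ^ 2 ≤ s := by
        have : lam * o ≤ (1 / 250) * o ^ 2 := by nlinarith
        linarith
      have h3 : q * ((249 / 500) * o ^ 2) ≤ q * s := mul_le_mul_of_nonneg_left hs2 hq0
      -- linear in q
      have h4 : 0 ≤ (1 - q) * (o - 1 / 10) := mul_nonneg (by linarith) (by linarith)
      have h5 : 0 ≤ q * ((249 / 500) * o ^ 2 - (1 / 10) * o - 1 / 10) :=
        mul_nonneg hq0 (by nlinarith)
      nlinarith
    have hZ0 : 0 < Z := by linarith
    have hY0 : 0 < Y := by linarith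
    obtain ⟨A, hA⟩ : ∃ A : ℝ, A = Real.log (Z / Y) := ⟨_, rfl⟩
    have hA1 : 14 * lam ≤ A := by
      have h1 : 1 - (Z / Y)⁻¹ ≤ A := hA ▸ Real.one_sub_inv_le_log_of_pos (div_pos hZ0 hY0)
      have h2 : (Z / Y)⁻¹ ≤ 10 / 11 := by
        rw [inv_div, div_le_iff₀ hZ0]
        linarith
      linarith
    have hup : ∀ v ∈ L, Lv v ≤ A + lam := by
      intro v hv
      have h1 := hYv1 v hv
      have h2 := hZY v hv
      have hYv0 : 0 < Yv v := by linarith
      have hZv0 : 0 < Zv v := by linarith
      have hZvZ : Zv v ≤ Z := by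
        rw [hZv v hv, hZ]
        have h7 := hov v hv
        have h8 := hw0 v hv
        have h10 : 0 ≤ q * (w v * (o - w v)) := by positivity
        nlinarith
      rw [hLv v hv]
      calc Real.log (Zv v / Yv v) ≤ Real.log (Z / Yv v) := by
            apply Real.log_le_log (div_pos hZv0 hYv0)
            exact div_le_div_of_nonneg_right hZvZ hYv0.le
        _ = A + Real.log (Y / Yv v) := by
            rw [hA, ← Real.log_mul (by positivity) (by positivity)]
            congr 1
            field_simp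
        _ ≤ A + lam := by
            have h3 : Real.log (Y / Yv v) ≤ Y / Yv v - 1 :=
              Real.log_le_sub_one_of_pos (div_pos hY0 hYv0)
            have h4 : Y / Yv v - 1 = (q * w v) / Yv v := by
              rw [hY]
              have : 1 + q * o = Yv v + q * w v := by rw [hYv v hv]; ring
              rw [this]
              field_simp
              ring
            have h5 : (q * w v) / Yv v ≤ lam := by
              rw [div_le_iff₀ hYv0]
              have h6 : q * w v ≤ 1 * lam := mul_le_mul hq1 (hw1 v hv) (hw0 v hv) zero_le_one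
              nlinarith
            linarith
    have hlow : ∀ v ∈ L, A - 2 * lam ≤ Lv v := by
      intro v hv
      have h1 := hYv1 v hv
      have h2 := hZY v hv
      have hYv0 : 0 < Yv v := by linarith
      have hZv0 : 0 < Zv v := by linarith
      have hYvY : Yv v ≤ Y := by
        rw [hYv v hv, hY]
        have h3 := mul_nonneg hq0 (hw0 v hv)
        have h4 : q * (o - w v) = q * o - q * w v := by ring
        linarith
      rw [hLv v hv]
      have h3 : A + Real.log (Zv v / Z) ≤ Real.log (Zv v / Yv v) := by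
        calc A + Real.log (Zv v / Z) = Real.log (Zv v / Y) := by
              rw [hA, ← Real.log_mul (by positivity) (by positivity)]
              congr 1
              field_simp
          _ ≤ Real.log (Zv v / Yv v) := by
              apply Real.log_le_log (div_pos hZv0 hY0)
              exact div_le_div_of_nonneg_left hZv0.le hYv0 hYvY
      have h4 : 1 - (Zv v / Z)⁻¹ ≤ Real.log (Zv v / Z) :=
        Real.one_sub_inv_le_log_of_pos (div_pos hZv0 hZ0)
      have h5 : (Zv v / Z)⁻¹ ≤ 1 + lam := by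
        rw [inv_div, div_le_iff₀ hZv0]
        have h6 : Z = Zv v + w v * Yv v := by
          rw [hZ, hZv v hv, hYv v hv]; ring
        have h7 : w v * Yv v ≤ lam * Zv v :=
          mul_le_mul (hw1 v hv) h2 (by linarith) hlam0
        linarith
      linarith
    have hsumY : ∑ v ∈ L, w v * Yv v = o + 2 * (q * s) := by
      have : ∀ v ∈ L, w v * Yv v = (1 + q * o) * w v - q * w v ^ 2 := by
        intro v hv
        rw [hYv v hv]; ring
      rw [Finset.sum_congr rfl this, Finset.sum_sub_distrib, ← Finset.mul_sum, ← Finset.mul_sum,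
        ← ho, hs]
      ring
    have h1 : ∑ v ∈ L, Lv v ≤ L.card * (A + lam) := by
      have := Finset.sum_le_card_nsmul L Lv _ hup
      rwa [nsmul_eq_mul] at this
    have hAl : 0 ≤ A - 2 * lam := by linarith
    have h2 : (o + 2 * (q * s)) * (A - 2 * lam) ≤ ∑ v ∈ L, w v * Yv v * Lv v := by
      rw [← hsumY, Finset.sum_mul]
      refine Finset.sum_le_sum fun v hv => ?_
      refine mul_le_mul_of_nonneg_left (hlow v hv) ?_
      have := hYv1 v hv
      exact mul_nonneg (hw0 v hv) (by linarith)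
    have h3 : Z / 2 ≤ o + 2 * (q * s) := by
      have := mul_nonneg hq0 hs0
      rw [hZ]; linarith
    have hK0 : 0 ≤ K := le_trans hcard hK
    have h4 : (∑ v ∈ L, Lv v) * Z ≤ K * (A + lam) * Z := by
      refine mul_le_mul_of_nonneg_right ?_ hZ0.le
      refine h1.trans ?_
      exact mul_le_mul_of_nonneg_right hK (by linarith)
    have h5 : K * (A + lam) * Z ≤ (5 / 2) * K * ((Z / 2) * (A - 2 * lam)) := by
      have h6 : A + lam ≤ (5 / 4) * (A - 2 * lam) := by linarith
      have h7 : K * Z * (A + lam) ≤ K * Z * ((5 / 4) * (A - 2 * lam)) :=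
        mul_le_mul_of_nonneg_left h6 (mul_nonneg hK0 hZ0.le)
      nlinarith
    have h6 : (5 / 2) * K * ((Z / 2) * (A - 2 * lam))
        ≤ (5 / 2) * K * (∑ v ∈ L, w v * Yv v * Lv v) := by
      refine mul_le_mul_of_nonneg_left ?_ (by positivity)
      refine le_trans ?_ h2
      exact mul_le_mul_of_nonneg_right h3 hAl
    have h7 : 0 ≤ 2 * b * L.card * (o + 2 * (q * s)) := by
      have := mul_nonneg hq0 hs0
      positivity
    have h8 : 0 ≤ (5 / 2) * L.card * (q * s) := by
      have := mul_nonneg hq0 hs0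
      positivity
    linarith

end Pool.Agent.Helper34
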