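import Pool.Agent.Helper34.GibbsLine

set_option autoImplicit false

namespace Pool.Agent.Helper34

open Finset

variable {α : Type*} [DecidableEq α]
variable {V : Finset α} {F : Finset (Finset α)} {lam : ℝ} {b : Finset α → ℝ}

/-- weight of `T ∪ B`, `B ⊆ L`, `T` disjoint from `L` -/
theorem pw_line (h : LinSpace V F) {L : Finset α} (hL : L ∈ F) (T B : Finset α)
    (hT : Disjoint T L) (hB : B ⊆ L) :
    pw lam b F (T ∪ B)
      = pw lam b F T * (psi (b L) B.card * ∏ y ∈ B, wl lam b F L y T) := by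
  have hblock : ∀ M ∈ F.erase L, ∀ x ∈ L, ∀ y ∈ L, x ∈ M → y ∈ M → x = y := by
    intro M hM x hx y hy hxM hyM
    rw [mem_erase] at hM
    exact h.lin M hM.2 L hL hM.1 x y hxM hx hyM hy
  have hsplit : ∀ W : Finset α, pw lam b F W
      = psi (b L) (L ∩ W).card * pw lam b (F.erase L) W := by
    intro W
    unfold pw
    rw [← Finset.mul_prod_erase F _ hL]
    ring
  have h1 : L ∩ (T ∪ B) = B := by
    ext x
    simp only [mem_inter, mem_union]
    constructor
    · rintro ⟨hxL, hx | hx⟩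
      · exact absurd hxL ((Finset.disjoint_left.mp hT) hx)
      · exact hx
    · intro hx
      exact ⟨hB hx, Or.inr hx⟩
  have h2 : L ∩ T = ∅ := by
    rw [Finset.inter_comm]
    exact Finset.disjoint_iff_inter_eq_empty.mp hT
  rw [hsplit (T ∪ B), hsplit T, h1, h2, Finset.card_empty, psi_zero,
    pw_block lam b (F.erase L) L hblock T hT B hB]
  have h3 : ∀ y ∈ B, wy lam b (F.erase L) y T = wl lam b F L y T := by
    intro y hy
    rw [wl_eq_line lam b h hL (hB hy) T]
    congr 1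
    rw [eq_comm, Finset.sdiff_eq_self_iff_disjoint]
    exact hT
  rw [Finset.prod_congr rfl h3]
  ring

theorem wl_union (h : LinSpace V F) {L : Finset α} (hL : L ∈ F) (T B : Finset α)
    (hT : Disjoint T L) (hB : B ⊆ L) {y : α} (hy : y ∈ L) :
    wl lam b F L y (T ∪ B) = wl lam b F L y T := by
  rw [wl_eq_line lam b h hL hy, wl_eq_line lam b h hL hy]
  congr 1
  ext x
  simp only [mem_sdiff, mem_union]
  constructor
  · rintro ⟨hx | hx, h2⟩
    · exact ⟨hx, h2⟩
    · exact absurd (hB hx) h2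
  · rintro ⟨hx, h2⟩
    exact ⟨Or.inl hx, h2⟩

theorem lamL_union (h : LinSpace V F) {L : Finset α} (hL : L ∈ F) (T B : Finset α)
    (hT : Disjoint T L) (hB : B ⊆ L) (v : α) :
    lamL lam b F L v (T ∪ B) = lamL lam b F L v T := by
  unfold lamL Zf Yf om sq
  have h1 : ∀ y ∈ L.erase v, wl lam b F L y (T ∪ B) = wl lam b F L y T := fun y hy =>
    wl_union h hL T B hT hB (Finset.mem_of_mem_erase hy)
  have h2 : ∑ y ∈ L.erase v, wl lam b F L y (T ∪ B) ^ 2 = ∑ y ∈ L.erase v, wl lam b F L y T ^ 2 :=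
    Finset.sum_congr rfl fun y hy => by rw [h1 y hy]
  rw [Finset.sum_congr rfl h1, h2]

theorem line_expect (h : LinSpace V F) (hl0 : 0 ≤ lam) (hl1 : lam ≤ 1 / 250)
    (hb : ∀ M ∈ F, 0 ≤ b M) {K : ℝ} {L : Finset α} (hL : L ∈ F) (hK : (L.card : ℝ) ≤ K) :
    ∑ W ∈ V.powerset, pw lam b F W * ∑ v ∈ L, lamL lam b F L v W
      ≤ (5 / 2) * K * (∑ W ∈ V.powerset, pw lam b F W * ∑ v ∈ L ∩ W, lamL lam b F L v W)
        + 2 * b L * L.card * (∑ W ∈ V.powerset, pw lam b F W * ((L ∩ W).card : ℝ))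
        + (5 / 2) * L.card * (∑ W ∈ V.powerset,
            pw lam b F W * (if (L ∩ W).card = 2 then (1 : ℝ) else 0)) := by
  classical
  have hsub := h.sub L hL
  simp only [sum_powerset_split V L hsub, Finset.mul_sum (s := (V \ L).powerset)]
  rw [← Finset.sum_add_distrib, ← Finset.sum_add_distrib]
  refine Finset.sum_le_sum fun T hT => ?_
  rw [mem_powerset] at hT
  have hTL : Disjoint T L := by
    rw [Finset.disjoint_left]
    intro x hx
    have := hT hx
    rw [mem_sdiff] at this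
    exact this.2
  obtain ⟨w, hw⟩ : ∃ w : α → ℝ, w = fun y => wl lam b F L y T := ⟨_, rfl⟩
  have hw0 : ∀ y ∈ L, 0 ≤ w y := fun y _ => by rw [hw]; exact wl_nonneg hl0 _ _ _ _ _
  have hw1 : ∀ y ∈ L, w y ≤ lam := fun y _ => by rw [hw]; exact wl_le hl0 _ _ hb _ _ _
  obtain ⟨q, hq⟩ : ∃ q : ℝ, q = Real.exp (-b L) := ⟨_, rfl⟩
  have hq0 : 0 ≤ q := by rw [hq]; positivity
  have hq1 : q ≤ 1 := by
    rw [hq]
    exact Real.exp_le_one_iff.mpr (by linarith [hb L hL])
  have hqb : 1 - q ≤ b L := by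
    rw [hq]
    linarith [Real.add_one_le_exp (-b L)]
  obtain ⟨o, ho⟩ : ∃ o : ℝ, o = ∑ y ∈ L, w y := ⟨_, rfl⟩
  obtain ⟨s, hs⟩ : ∃ s : ℝ, s = (o ^ 2 - ∑ y ∈ L, w y ^ 2) / 2 := ⟨_, rfl⟩
  have hinter : ∀ B ∈ L.powerset, L ∩ (T ∪ B) = B := by
    intro B hB
    rw [mem_powerset] at hB
    ext x
    simp only [mem_inter, mem_union]
    constructor
    · rintro ⟨hxL, hx | hx⟩
      · exact absurd hxL ((Finset.disjoint_left.mp hTL) hx)
      · exact hx
    · intro hx
      exact ⟨hB hx, Or.inr hx⟩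
  have hpw : ∀ B ∈ L.powerset, pw lam b F (T ∪ B)
      = pw lam b F T * (psi (b L) B.card * ∏ y ∈ B, w y) := by
    intro B hB
    rw [mem_powerset] at hB
    rw [pw_line h hL T B hTL hB, hw]
  have hlm : ∀ B ∈ L.powerset, ∀ v, lamL lam b F L v (T ∪ B) = lamL lam b F L v T := by
    intro B hB v
    rw [mem_powerset] at hB
    exact lamL_union h hL T B hTL hB v
  obtain ⟨Lv, hLvd⟩ : ∃ Lv : α → ℝ, Lv = fun v => lamL lam b F L v T := ⟨_, rfl⟩
  -- the four sums
  have e1 : ∑ B ∈ L.powerset, pw lam b F (T ∪ B) * ∑ v ∈ L, lamL lam b F L v (T ∪ B)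
      = pw lam b F T * ((∑ v ∈ L, Lv v) * (1 + o + q * s)) := by
    have h1 : ∀ B ∈ L.powerset, pw lam b F (T ∪ B) * ∑ v ∈ L, lamL lam b F L v (T ∪ B)
        = (pw lam b F T * ∑ v ∈ L, Lv v) * (psi (b L) B.card * ∏ y ∈ B, w y) := by
      intro B hB
      rw [hpw B hB, hLvd]
      simp only [hlm B hB]
      ring
    rw [Finset.sum_congr rfl h1, ← Finset.mul_sum,
      sum_powerset_quad w L (psi (b L)) (fun j hj => psi_ge _ _ hj), psi_zero, psi_one, psi_two,
      ← ho, ← hs, ← hq]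
    ring
  have e4 : ∑ B ∈ L.powerset, pw lam b F (T ∪ B)
      * (if (L ∩ (T ∪ B)).card = 2 then (1 : ℝ) else 0) = pw lam b F T * (q * s) := by
    have h1 : ∀ B ∈ L.powerset, pw lam b F (T ∪ B)
        * (if (L ∩ (T ∪ B)).card = 2 then (1 : ℝ) else 0)
        = pw lam b F T * ((fun j : ℕ => psi (b L) j * if j = 2 then (1 : ℝ) else 0) B.card
          * ∏ y ∈ B, w y) := by
      intro B hB
      rw [hpw B hB, hinter B hB]
      simp only
      ring
    rw [Finset.sum_congr rfl h1, ← Finset.mul_sum,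
      sum_powerset_quad w L (fun j : ℕ => psi (b L) j * if j = 2 then (1 : ℝ) else 0)
        (fun j hj => by rw [psi_ge _ _ hj, zero_mul])]
    simp only [← ho, ← hs, psi_two, ← hq]
    norm_num
  have e3 : ∑ B ∈ L.powerset, pw lam b F (T ∪ B) * ((L ∩ (T ∪ B)).card : ℝ)
      = pw lam b F T * (o + 2 * (q * s)) := by
    have h1 : ∀ B ∈ L.powerset, pw lam b F (T ∪ B) * ((L ∩ (T ∪ B)).card : ℝ)
        = pw lam b F T * ((fun j : ℕ => psi (b L) j * (j : ℝ)) B.card
          * ∏ y ∈ B, w y) := by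
      intro B hB
      rw [hpw B hB, hinter B hB]
      simp only
      ring
    rw [Finset.sum_congr rfl h1, ← Finset.mul_sum,
      sum_powerset_quad w L (fun j : ℕ => psi (b L) j * (j : ℝ))
        (fun j hj => by rw [psi_ge _ _ hj, zero_mul])]
    simp only [← ho, ← hs, psi_two, psi_one, ← hq]
    push_cast
    ring
  have e2 : ∑ B ∈ L.powerset, pw lam b F (T ∪ B)
        * ∑ v ∈ L ∩ (T ∪ B), lamL lam b F L v (T ∪ B)
      = pw lam b F T * ∑ v ∈ L, w v * (1 + q * (o - w v)) * Lv v := by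
    have h1 : ∀ B ∈ L.powerset, pw lam b F (T ∪ B)
        * ∑ v ∈ L ∩ (T ∪ B), lamL lam b F L v (T ∪ B)
        = pw lam b F T * ∑ v ∈ L, (if v ∈ B then
            Lv v * (psi (b L) B.card * ∏ y ∈ B, w y) else 0) := by
      intro B hB
      rw [hpw B hB, hinter B hB, hLvd]
      simp only [hlm B hB]
      rw [mem_powerset] at hB
      rw [← Finset.sum_filter, Finset.filter_mem_eq_inter, Finset.inter_eq_right.mpr hB,
        ← Finset.sum_mul]
      ring
    rw [Finset.sum_congr rfl h1, ← Finset.mul_sum, Finset.sum_comm]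
    congr 1
    refine Finset.sum_congr rfl fun v hv => ?_
    rw [← Finset.sum_filter, sum_powerset_mem L v hv]
    have h2 : ∀ B ∈ (L.erase v).powerset, Lv v * (psi (b L) (insert v B).card
        * ∏ y ∈ insert v B, w y)
        = Lv v * w v * ((fun j : ℕ => psi (b L) (j + 1)) B.card * ∏ y ∈ B, w y) := by
      intro B hB
      rw [mem_powerset] at hB
      have hvB : v ∉ B := fun hh => by simpa using hB hh
      rw [Finset.card_insert_of_notMem hvB, Finset.prod_insert hvB]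
      ring
    rw [Finset.sum_congr rfl h2, ← Finset.mul_sum,
      sum_powerset_quad w (L.erase v) (fun j : ℕ => psi (b L) (j + 1))
        (fun j hj => psi_ge _ _ (by omega))]
    simp only [zero_add]
    rw [psi_one, show (1 + 1 : ℕ) = 2 from rfl, psi_two, psi_ge _ (2 + 1) (by norm_num), ← hq]
    have h3 : ∑ y ∈ L.erase v, w y = o - w v := by
      rw [ho, ← Finset.add_sum_erase L w hv]
      ring
    rw [h3]
    ring
  rw [e1]
  have e2' : ∑ B ∈ L.powerset, (5 / 2) * K * (pw lam b F (T ∪ B)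
        * ∑ v ∈ L ∩ (T ∪ B), lamL lam b F L v (T ∪ B))
      = (5 / 2) * K * (pw lam b F T * ∑ v ∈ L, w v * (1 + q * (o - w v)) * Lv v) := by
    rw [← Finset.mul_sum, e2]
  have e3' : ∑ B ∈ L.powerset, 2 * b L * L.card
        * (pw lam b F (T ∪ B) * ((L ∩ (T ∪ B)).card : ℝ))
      = 2 * b L * L.card * (pw lam b F T * (o + 2 * (q * s))) := by
    rw [← Finset.mul_sum, e3]
  have e4' : ∑ B ∈ L.powerset, (5 / 2) * (L.card : ℝ) * (pw lam b F (T ∪ B)
      * (if (L ∩ (T ∪ B)).card = 2 then (1 : ℝ) else 0))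
      = (5 / 2) * L.card * (pw lam b F T * (q * s)) := by
    rw [← Finset.mul_sum, e4]
  have main : (∑ v ∈ L, Lv v) * (1 + o + q * s)
      ≤ (5 / 2) * K * (∑ v ∈ L, w v * (1 + q * (o - w v)) * Lv v)
        + 2 * b L * L.card * (o + 2 * (q * s)) + (5 / 2) * L.card * (q * s) := by
    have hwv : ∀ v ∈ L, ∑ y ∈ L.erase v, w y = o - w v := by
      intro v hv
      rw [ho, ← Finset.add_sum_erase L w hv]
      ring
    have hwv2 : ∀ v ∈ L, ∑ y ∈ L.erase v, w y ^ 2 = (∑ y ∈ L, w y ^ 2) - w v ^ 2 := by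
      intro v hv
      rw [← Finset.add_sum_erase L (fun y => w y ^ 2) hv]
      ring
    have hsqv : ∀ v ∈ L, ((∑ y ∈ L.erase v, w y) ^ 2 - ∑ y ∈ L.erase v, w y ^ 2) / 2
        = s - w v * (o - w v) := by
      intro v hv
      rw [hwv v hv, hwv2 v hv, hs]
      ring
    have hmain := line_lemma L w lam (b L) q K hl0 hl1 hw0 hw1 (hb L hL) hq0 hq1 hqb hK o s ho hs
      (fun v => 1 + (o - w v) + q * (s - w v * (o - w v))) (fun v => 1 + q * (o - w v)) Lv
      (fun v _ => rfl) (fun v _ => rfl)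
      (fun v hv => by
        rw [hLvd]
        simp only
        unfold lamL Zf Yf om sq
        have hz1 : ∀ y, wl lam b F L y T = w y := fun y => by rw [hw]
        simp only [hz1]
        rw [hsqv v hv, hwv v hv, ← hq])
      (fun v hv => by
        rw [← hsqv v hv]
        exact sq_nonneg_of w _ (fun y hy => hw0 y (Finset.mem_of_mem_erase hy)))
    exact hmain
  have hpw0 : 0 ≤ pw lam b F T := pw_nonneg hl0 _ _ _
  have := mul_le_mul_of_nonneg_left main hpw0
  have hgoal : pw lam b F T * ((5 / 2) * K * (∑ v ∈ L, w v * (1 + q * (o - w v)) * Lv v)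
        + 2 * b L * L.card * (o + 2 * (q * s)) + (5 / 2) * L.card * (q * s))
      = ∑ B ∈ L.powerset, (5 / 2) * K * (pw lam b F (T ∪ B)
        * ∑ v ∈ L ∩ (T ∪ B), lamL lam b F L v (T ∪ B))
      + ∑ B ∈ L.powerset, 2 * b L * L.card
        * (pw lam b F (T ∪ B) * ((L ∩ (T ∪ B)).card : ℝ))
      + ∑ B ∈ L.powerset, (5 / 2) * (L.card : ℝ) * (pw lam b F (T ∪ B)
      * (if (L ∩ (T ∪ B)).card = 2 then (1 : ℝ) else 0)) := by
    rw [e2', e3', e4']
    ring
  rw [hgoal] at this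
  refine this.trans (le_of_eq ?_)
  simp only [Finset.mul_sum]

end Pool.Agent.Helper34
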