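import Pool.Agent.Helper34.Crossing

set_option autoImplicit false

namespace Pool.Agent.Helper34

open Finset

/-- the (non-vertical) line through two points -/
noncomputable def lin (x y : ℝ × ℝ) : ℝ × ℝ :=
  ((y.2 - x.2) / (y.1 - x.1), x.2 - (y.2 - x.2) / (y.1 - x.1) * x.1)

theorem lin_left (x y : ℝ × ℝ) : x.2 = val (lin x y) x.1 := by
  unfold val lin
  ring

theorem lin_right {x y : ℝ × ℝ} (h : x.1 ≠ y.1) : y.2 = val (lin x y) y.1 := by
  unfold val lin
  have : y.1 - x.1 ≠ 0 := sub_ne_zero.mpr (Ne.symm h)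
  field_simp
  ring

theorem eq_lin {l x y : ℝ × ℝ} (h : x.1 ≠ y.1) (hx : x.2 = val l x.1) (hy : y.2 = val l y.1) :
    l = lin x y := by
  refine line_eq_of_two h ?_ ?_
  · rw [← hx]; exact lin_left x y
  · rw [← hy]; exact lin_right h

/-- distinct abscissae -/
def DistX (P : Finset (ℝ × ℝ)) : Prop := ∀ p ∈ P, ∀ q ∈ P, p.1 = q.1 → p = q

theorem DistX.mono {P Q : Finset (ℝ × ℝ)} (h : DistX P) (hQ : Q ⊆ P) : DistX Q :=
  fun p hp q hq => h p (hQ hp) q (hQ hq)

theorem DistX.ne {P : Finset (ℝ × ℝ)} (h : DistX P) {x y : ℝ × ℝ} (hx : x ∈ P) (hy : y ∈ P)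
    (hxy : x ≠ y) : x.1 ≠ y.1 := fun he => hxy (h x hx y hy he)

theorem lin_symm {x y : ℝ × ℝ} (h : x.1 ≠ y.1) : lin x y = lin y x :=
  eq_lin (Ne.symm h) (lin_right h) (lin_left x y)

theorem cube_le (m : ℕ) (hm : 2 ≤ m) : m ^ 3 ≤ ∑ j ∈ Finset.Icc 2 m, 4 * j ^ 2 := by
  induction m, hm using Nat.le_induction with
  | base => simp
  | succ m hm ih =>
    rw [Finset.sum_Icc_succ_top (by omega)]
    nlinarith

theorem sum_inv_le (r : ℕ) : ∑ j ∈ Finset.Icc 2 r, (1 : ℝ) / j ≤ 1 + Real.log r := by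
  have h1 := harmonic_le_one_add_log r
  refine le_trans ?_ h1
  rw [harmonic_eq_sum_Icc]
  push_cast
  refine (Finset.sum_le_sum_of_subset_of_nonneg (t := Finset.Icc 1 r) ?_ ?_).trans (le_of_eq ?_)
  · intro j hj
    rw [Finset.mem_Icc] at hj ⊢
    omega
  · intro j _ _
    positivity
  · exact Finset.sum_congr rfl fun j _ => by rw [one_div]

theorem sum_pairs_le {P : Finset (ℝ × ℝ)} (hx : DistX P) (hn : 3 ≤ P.card)
    (hcol : ∀ l : ℝ × ℝ, ((onLine P l).card : ℝ) ≤ Real.sqrt P.card) :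
    ∑ q ∈ P.offDiag, ((onLine P (lin q.1 q.2)).card : ℝ)
      ≤ 13000 * (P.card : ℝ) ^ 2 * Real.log P.card := by
  classical
  obtain ⟨n, hnd⟩ : ∃ n : ℝ, n = P.card := ⟨_, rfl⟩
  have hn3 : (3 : ℝ) ≤ n := by rw [hnd]; exact_mod_cast hn
  obtain ⟨M, hM⟩ : ∃ M : Finset (ℝ × ℝ), M = P.offDiag.image fun q => lin q.1 q.2 := ⟨_, rfl⟩
  obtain ⟨r, hr⟩ : ∃ r : ℕ, r = ⌊Real.sqrt P.card⌋₊ := ⟨_, rfl⟩
  have hsq0 : 0 ≤ Real.sqrt P.card := Real.sqrt_nonneg _
  have hrr : (r : ℝ) * r ≤ n := by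
    have h1 : (r : ℝ) ≤ Real.sqrt P.card := by rw [hr]; exact Nat.floor_le hsq0
    have h2 := mul_self_le_mul_self (Nat.cast_nonneg r) h1
    rwa [Real.mul_self_sqrt (Nat.cast_nonneg _), ← hnd] at h2
  have hcard_r : ∀ l, (onLine P l).card ≤ r := by
    intro l
    rw [hr]
    exact Nat.le_floor (hcol l)
  have hL2 : ∀ l ∈ M, 2 ≤ (onLine P l).card := by
    intro l hl
    rw [hM, mem_image] at hl
    obtain ⟨q, hq, hql⟩ := hl
    rw [mem_offDiag] at hq
    have h1 : q.1 ∈ onLine P l := mem_onLine.mpr ⟨hq.1, by rw [← hql]; exact lin_left _ _⟩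
    have h2 : q.2 ∈ onLine P l := mem_onLine.mpr ⟨hq.2.1, by
      rw [← hql]; exact lin_right (hx.ne hq.1 hq.2.1 hq.2.2)⟩
    exact Finset.one_lt_card.mpr ⟨q.1, h1, q.2, h2, hq.2.2⟩
  -- step 1 : sum over pairs <= sum of cubes
  have s1 : ∑ q ∈ P.offDiag, ((onLine P (lin q.1 q.2)).card : ℝ)
      ≤ ∑ l ∈ M, ((onLine P l).card : ℝ) ^ 3 := by
    have h1 : ∑ q ∈ P.offDiag, ((onLine P (lin q.1 q.2)).card : ℝ)
        = ∑ l ∈ M, ∑ q ∈ P.offDiag with lin q.1 q.2 = l, ((onLine P (lin q.1 q.2)).card : ℝ) := by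
      rw [Finset.sum_fiberwise_of_maps_to]
      intro q hq
      rw [hM]
      exact Finset.mem_image_of_mem _ hq
    rw [h1]
    refine Finset.sum_le_sum fun l _ => ?_
    have h2 : ∑ q ∈ P.offDiag with lin q.1 q.2 = l, ((onLine P (lin q.1 q.2)).card : ℝ)
        = ((P.offDiag.filter fun q => lin q.1 q.2 = l).card : ℝ) * ((onLine P l).card : ℝ) := by
      rw [← nsmul_eq_mul, ← Finset.sum_const]
      refine Finset.sum_congr rfl fun q hq => ?_
      rw [mem_filter] at hq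
      rw [hq.2]
    rw [h2]
    have h3 : (P.offDiag.filter fun q => lin q.1 q.2 = l).card
        ≤ (onLine P l).card * (onLine P l).card := by
      rw [← Finset.card_product]
      apply Finset.card_le_card
      intro q hq
      rw [mem_filter, mem_offDiag] at hq
      obtain ⟨⟨a1, a2, a3⟩, a4⟩ := hq
      rw [mem_product]
      exact ⟨mem_onLine.mpr ⟨a1, by rw [← a4]; exact lin_left _ _⟩,
        mem_onLine.mpr ⟨a2, by rw [← a4]; exact lin_right (hx.ne a1 a2 a3)⟩⟩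
    have h4 : ((P.offDiag.filter fun q => lin q.1 q.2 = l).card : ℝ)
        ≤ (onLine P l).card * (onLine P l).card := by exact_mod_cast h3
    have h5 : (0 : ℝ) ≤ (onLine P l).card := Nat.cast_nonneg _
    nlinarith
  -- step 2
  have s2 : ∑ l ∈ M, ((onLine P l).card : ℝ) ^ 3
      ≤ ∑ j ∈ Finset.Icc 2 r, 4 * (j : ℝ) ^ 2
        * ((M.filter fun l => j ≤ (onLine P l).card).card : ℝ) := by
    have h1 : ∑ l ∈ M, (onLine P l).card ^ 3 ≤ ∑ l ∈ M, ∑ j ∈ Finset.Icc 2 (onLine P l).card,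
        4 * j ^ 2 := Finset.sum_le_sum fun l hl => cube_le _ (hL2 l hl)
    have h2 : ∑ l ∈ M, ∑ j ∈ Finset.Icc 2 (onLine P l).card, 4 * j ^ 2
        = ∑ j ∈ Finset.Icc 2 r, ∑ l ∈ M with j ≤ (onLine P l).card, 4 * j ^ 2 := by
      refine Finset.sum_comm' ?_
      intro l j
      simp only [Finset.mem_Icc, mem_filter]
      have := hcard_r l
      constructor
      · rintro ⟨a1, a2, a3⟩
        exact ⟨⟨a1, a3⟩, a2, by omega⟩
      · rintro ⟨⟨a1, a3⟩, a2, a4⟩
        exact ⟨a1, a2, a3⟩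
    have h3 : ∑ l ∈ M, (onLine P l).card ^ 3 ≤ ∑ j ∈ Finset.Icc 2 r, 4 * j ^ 2
        * (M.filter fun l => j ≤ (onLine P l).card).card := by
      rw [h2] at h1
      refine h1.trans (le_of_eq ?_)
      refine Finset.sum_congr rfl fun j _ => ?_
      rw [Finset.sum_const, smul_eq_mul, mul_comm]
    exact_mod_cast h3
  -- step 3
  have s3 : ∀ j ∈ Finset.Icc 2 r, 4 * (j : ℝ) ^ 2
        * ((M.filter fun l => j ≤ (onLine P l).card).card : ℝ)
      ≤ 6400 * n ^ 2 * (1 / j) + 80 * n * r := by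
    intro j hj
    rw [Finset.mem_Icc] at hj
    have hj2 : (2 : ℝ) ≤ j := by exact_mod_cast hj.1
    have hjr : (j : ℝ) ≤ r := by exact_mod_cast hj.2
    have hj0 : (0 : ℝ) < j := by linarith
    have h1 := rich_lines hx (M.filter fun l => j ≤ (onLine P l).card) j hj.1
      (fun l hl => (mem_filter.mp hl).2)
    rw [← hnd] at h1
    have h2 := mul_le_mul_of_nonneg_left h1 (by positivity : 0 ≤ 4 * (j : ℝ) ^ 2)
    refine h2.trans ?_
    have h3 : 4 * (j : ℝ) ^ 2 * (1600 * n ^ 2 / (j : ℝ) ^ 3 + 20 * n / j)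
        = 6400 * n ^ 2 * (1 / j) + 80 * n * j := by
      field_simp
      ring
    rw [h3]
    have : 80 * n * j ≤ 80 * n * r := mul_le_mul_of_nonneg_left hjr (by positivity)
    linarith
  have s4 : ∑ j ∈ Finset.Icc 2 r, (6400 * n ^ 2 * (1 / (j : ℝ)) + 80 * n * r)
      ≤ 6400 * n ^ 2 * (1 + Real.log n) + 80 * n * n := by
    rw [Finset.sum_add_distrib, ← Finset.mul_sum, Finset.sum_const, nsmul_eq_mul]
    have h1 := sum_inv_le r
    have h2 : Real.log r ≤ Real.log n := by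
      rcases Nat.eq_zero_or_pos r with h0 | h0
      · rw [h0, Nat.cast_zero, Real.log_zero]
        exact Real.log_nonneg (by linarith)
      · have h3 : (1 : ℝ) ≤ r := by exact_mod_cast h0
        exact Real.log_le_log (by linarith) (by nlinarith)
    have h3 : 6400 * n ^ 2 * ∑ j ∈ Finset.Icc 2 r, 1 / (j : ℝ)
        ≤ 6400 * n ^ 2 * (1 + Real.log n) :=
      mul_le_mul_of_nonneg_left (by linarith) (by positivity)
    have h4 : ((Finset.Icc 2 r).card : ℝ) ≤ r := by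
      rw [Nat.card_Icc]
      exact_mod_cast (by omega : r + 1 - 2 ≤ r)
    have h5 : ((Finset.Icc 2 r).card : ℝ) * (80 * n * r) ≤ r * (80 * n * r) :=
      mul_le_mul_of_nonneg_right h4 (by positivity)
    have h6 : r * (80 * n * r) ≤ 80 * n * n := by nlinarith
    linarith
  have hlog : 1 ≤ Real.log n := by
    rw [Real.le_log_iff_exp_le (by linarith)]
    linarith [Real.exp_one_lt_d9]
  rw [← hnd]
  calc ∑ q ∈ P.offDiag, ((onLine P (lin q.1 q.2)).card : ℝ)
      ≤ 6400 * n ^ 2 * (1 + Real.log n) + 80 * n * n :=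
        (s1.trans s2).trans ((Finset.sum_le_sum s3).trans s4)
    _ ≤ 13000 * n ^ 2 * Real.log n := by nlinarith [sq_nonneg n]

/-- Passing to half of the points we may assume a bound at every point. -/
theorem exists_regular {P : Finset (ℝ × ℝ)} (hx : DistX P) (hn : 3 ≤ P.card)
    (hcol : ∀ l : ℝ × ℝ, ((onLine P l).card : ℝ) ≤ Real.sqrt P.card) :
    ∃ Q ⊆ P, (P.card : ℝ) / 2 ≤ Q.card ∧
      ∀ x ∈ Q, ∑ y ∈ Q.erase x, ((onLine Q (lin x y)).card : ℝ)
        ≤ 26000 * (P.card : ℝ) * Real.log P.card := by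
  classical
  have h1 := sum_pairs_le hx hn hcol
  obtain ⟨n, hnd⟩ : ∃ n : ℝ, n = P.card := ⟨_, rfl⟩
  have hn3 : (3 : ℝ) ≤ n := by rw [hnd]; exact_mod_cast hn
  have hlog : 1 ≤ Real.log n := by
    rw [Real.le_log_iff_exp_le (by linarith)]
    linarith [Real.exp_one_lt_d9]
  rw [← hnd] at h1 ⊢
  obtain ⟨d, hd⟩ : ∃ d : (ℝ × ℝ) → ℝ, d = fun x =>
    ∑ y ∈ P.erase x, ((onLine P (lin x y)).card : ℝ) := ⟨_, rfl⟩
  have hd0 : ∀ x, 0 ≤ d x := fun x => by
    rw [hd]; exact Finset.sum_nonneg fun _ _ => Nat.cast_nonneg _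
  have h2 : ∑ q ∈ P.offDiag, ((onLine P (lin q.1 q.2)).card : ℝ) = ∑ x ∈ P, d x := by
    rw [hd]
    rw [Finset.sum_sigma']
    refine Finset.sum_bij' (fun q _ => (⟨q.1, q.2⟩ : Σ _ : ℝ × ℝ, ℝ × ℝ))
      (fun s _ => (s.1, s.2)) ?_ ?_ ?_ ?_ ?_
    · intro q hq
      rw [mem_offDiag] at hq
      rw [mem_sigma, mem_erase]
      exact ⟨hq.1, Ne.symm hq.2.2, hq.2.1⟩
    · intro s hs
      rw [mem_sigma, mem_erase] at hs
      rw [mem_offDiag]
      exact ⟨hs.1, hs.2.2, Ne.symm hs.2.1⟩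
    · intro q _; rfl
    · intro s _; rfl
    · intro q _; rfl
  rw [h2] at h1
  refine ⟨P.filter fun x => d x ≤ 26000 * n * Real.log n, Finset.filter_subset _ _, ?_, ?_⟩
  · have hsplit := Finset.card_filter_add_card_filter_not (s := P)
      (fun x => d x ≤ 26000 * n * Real.log n)
    have h3 : ((P.filter fun x => ¬ d x ≤ 26000 * n * Real.log n).card : ℝ)
        * (26000 * n * Real.log n) ≤ ∑ x ∈ P, d x := by
      rw [← nsmul_eq_mul]
      refine (Finset.card_nsmul_le_sum _ d _ fun x hx => ?_).trans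
        (Finset.sum_le_sum_of_subset_of_nonneg (Finset.filter_subset _ _) fun x _ _ => hd0 x)
      rw [mem_filter, not_le] at hx
      exact hx.2.le
    have h4 : ((P.filter fun x => ¬ d x ≤ 26000 * n * Real.log n).card : ℝ) ≤ n / 2 := by
      have h5 : ((P.filter fun x => ¬ d x ≤ 26000 * n * Real.log n).card : ℝ)
        * (26000 * n * Real.log n) ≤ (n / 2) * (26000 * n * Real.log n) := by
        refine (h3.trans h1).trans (le_of_eq ?_)
        ring
      exact le_of_mul_le_mul_right h5 (by positivity)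
    have h5 : ((P.filter fun x => d x ≤ 26000 * n * Real.log n).card : ℝ)
        + ((P.filter fun x => ¬ d x ≤ 26000 * n * Real.log n).card : ℝ) = n := by
      have h6 := congrArg (Nat.cast (R := ℝ)) hsplit
      rw [Nat.cast_add] at h6
      rw [h6, hnd]
    linarith
  · intro x hx
    rw [mem_filter] at hx
    refine le_trans ?_ hx.2
    rw [hd]
    refine (Finset.sum_le_sum fun y _ => ?_).trans
      (Finset.sum_le_sum_of_subset_of_nonneg
        (Finset.erase_subset_erase x (Finset.filter_subset _ _)) fun y _ _ => Nat.cast_nonneg _)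
    exact_mod_cast Finset.card_le_card (Finset.filter_subset_filter _ (Finset.filter_subset _ _))

end Pool.Agent.Helper34
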