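import Mathlib

set_option autoImplicit false

namespace Pool.Agent.Helper34

open Finset

/-- value at abscissa `x` of the line with slope `l.1` and intercept `l.2` -/
def val (l : ℝ × ℝ) (x : ℝ) : ℝ := l.1 * x + l.2

/-- an edge: supporting line, left endpoint, right endpoint -/
abbrev Edge := (ℝ × ℝ) × (ℝ × ℝ) × (ℝ × ℝ)

structure GoodEdges (P : Finset (ℝ × ℝ)) (E : Finset Edge) : Prop where
  lmem : ∀ e ∈ E, e.2.1 ∈ P
  rmem : ∀ e ∈ E, e.2.2 ∈ P
  lt : ∀ e ∈ E, e.2.1.1 < e.2.2.1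
  onl : ∀ e ∈ E, e.2.1.2 = val e.1 e.2.1.1
  onr : ∀ e ∈ E, e.2.2.2 = val e.1 e.2.2.1
  nv : ∀ e ∈ E, ∀ p ∈ P, e.2.1.1 < p.1 → p.1 < e.2.2.1 → p.2 ≠ val e.1 p.1

/-- the open segments of `e` and `f` have a common point -/
def Cr (e f : Edge) : Prop :=
  ∃ x, e.2.1.1 < x ∧ f.2.1.1 < x ∧ x < e.2.2.1 ∧ x < f.2.2.1 ∧ val e.1 x = val f.1 x

theorem Cr.symm {e f : Edge} (h : Cr e f) : Cr f e := by
  obtain ⟨x, h1, h2, h3, h4, h5⟩ := h
  exact ⟨x, h2, h1, h4, h3, h5.symm⟩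

theorem val_cross {l m : ℝ × ℝ} {u p : ℝ} (hup : u < p) (h1 : val m u < val l u)
    (h2 : val l p < val m p) : ∃ x, u < x ∧ x < p ∧ val l x = val m x := by
  have hc : ContinuousOn (fun x => val l x - val m x) (Set.Icc u p) := by
    unfold val
    fun_prop
  have := intermediate_value_Ioo' hup.le hc
  have h0 : (0 : ℝ) ∈ Set.Ioo (val l p - val m p) (val l u - val m u) :=
    ⟨by linarith, by linarith⟩
  obtain ⟨x, hx, hx0⟩ := this h0
  simp only at hx0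
  exact ⟨x, hx.1, hx.2, by linarith⟩

/-- two lines through a common point: order by slope to the right of this point -/
theorem val_lt_of_slope {l m : ℝ × ℝ} {a x : ℝ} (h0 : val l a = val m a) (hs : l.1 < m.1)
    (hx : a < x) : val l x < val m x := by
  unfold val at *
  nlinarith

theorem val_le_of_slope {l m : ℝ × ℝ} {a x : ℝ} (h0 : val l a = val m a) (hs : l.1 ≤ m.1)
    (hx : a < x) : val l x ≤ val m x := by
  unfold val at *
  nlinarith

/-- data attached to an edge which is not the steepest one at its left endpoint -/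
def Nice (P : Finset (ℝ × ℝ)) (E : Finset Edge) (e f : Edge) (p : ℝ × ℝ) : Prop :=
  e ∈ E ∧ f ∈ E ∧ f.2.1 = e.2.1 ∧ e.1.1 < f.1.1 ∧
  (∀ g ∈ E, g.2.1 = e.2.1 → e.1.1 < g.1.1 → f.1.1 ≤ g.1.1) ∧
  p ∈ P ∧ e.2.1.1 < p.1 ∧ p.1 ≤ e.2.2.1 ∧ p.1 ≤ f.2.2.1 ∧
  val e.1 p.1 ≤ p.2 ∧ p.2 ≤ val f.1 p.1 ∧
  (∀ q ∈ P, e.2.1.1 < q.1 → q.1 < p.1 → ¬(val e.1 q.1 ≤ q.2 ∧ q.2 ≤ val f.1 q.1))

variable {P : Finset (ℝ × ℝ)} {E : Finset Edge}

theorem edge_eq (hE : GoodEdges P E) (hnc : ∀ e ∈ E, ∀ f ∈ E, e ≠ f → ¬ Cr e f)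
    {e f : Edge} (he : e ∈ E) (hf : f ∈ E) (h1 : e.2.1 = f.2.1) (h2 : e.1.1 = f.1.1) : e = f := by
  by_contra hne
  apply hnc e he f hf hne
  have hle := hE.lt e he
  have hlf := hE.lt f hf
  obtain ⟨m, hm⟩ : ∃ m : ℝ, m = min e.2.2.1 f.2.2.1 := ⟨_, rfl⟩
  have hm1 : m ≤ e.2.2.1 := hm ▸ min_le_left _ _
  have hm2 : m ≤ f.2.2.1 := hm ▸ min_le_right _ _
  have hm3 : e.2.1.1 < m := by
    rw [hm, lt_min_iff]
    exact ⟨hle, by rw [h1]; exact hlf⟩
  have h1' : e.2.1.1 = f.2.1.1 := by rw [h1]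
  refine ⟨(e.2.1.1 + m) / 2, by linarith, by linarith, by linarith, by linarith, ?_⟩
  have h3 := hE.onl e he
  have h4 := hE.onl f hf
  rw [h1] at h3
  have h5 : val e.1 f.2.1.1 = val f.1 f.2.1.1 := by rw [← h3, ← h4]
  unfold val at *
  rw [h2] at h5 ⊢
  have : e.1.2 = f.1.2 := by linarith
  rw [this]

theorem nice_aux_lt (hE : GoodEdges P E) (hnc : ∀ e ∈ E, ∀ f ∈ E, e ≠ f → ¬ Cr e f)
    {e f g h : Edge} {p : ℝ × ℝ} (h1 : Nice P E e f p) (h2 : Nice P E g h p)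
    (ht1 : p.2 = val e.1 p.1 ↔ p.2 = val g.1 p.1) (ht2 : p.2 = val f.1 p.1 ↔ p.2 = val h.1 p.1)
    (hlt : e.2.1.1 < g.2.1.1) : False := by
  obtain ⟨e1, e2, e3, e4, e5, e6, e7, e8, e9, e10, e11, e12⟩ := h1
  obtain ⟨g1, g2, g3, g4, g5, g6, g7, g8, g9, g10, g11, g12⟩ := h2
  have hef : val e.1 p.1 < val f.1 p.1 := by
    refine val_lt_of_slope (a := e.2.1.1) ?_ e4 e7
    rw [← hE.onl e e1, ← e3, ← hE.onl f e2]
  have hgh : val g.1 p.1 < val h.1 p.1 := by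
    refine val_lt_of_slope (a := g.2.1.1) ?_ g4 g7
    rw [← hE.onl g g1, ← g3, ← hE.onl h g2]
  have hfl : f.2.1.1 = e.2.1.1 := by rw [e3]
  have hhl : h.2.1.1 = g.2.1.1 := by rw [g3]
  have hu := e12 g.2.1 (hE.lmem g g1) hlt g7
  rw [not_and_or, not_le, not_le] at hu
  rcases hu with hu | hu
  · -- u below e : e crosses h
    have hs : val e.1 p.1 < val h.1 p.1 := by
      rcases lt_or_eq_of_le e10 with h5 | h5
      · exact lt_of_lt_of_le h5 g11
      · rw [h5, ht1.mp h5.symm]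
        exact hgh
    have hu' : val h.1 g.2.1.1 < val e.1 g.2.1.1 := by
      have := hE.onl h g2
      rw [g3] at this
      rw [← this]
      exact hu
    obtain ⟨x, hx1, hx2, hx3⟩ := val_cross g7 hu' hs
    have hne : e ≠ h := fun hh => by
      rw [hh, hhl] at hlt
      exact lt_irrefl _ hlt
    exact hnc e e1 h g2 hne ⟨x, by linarith, by linarith, by linarith, by linarith, hx3⟩
  · -- u above f : f crosses g
    have hs : val g.1 p.1 < val f.1 p.1 := by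
      rcases lt_or_eq_of_le e11 with h5 | h5
      · exact lt_of_le_of_lt g10 h5
      · have h6 := ht2.mp h5
        rcases lt_or_eq_of_le g10 with h7 | h7
        · rw [← h5]; exact h7
        · have h8 := ht1.mpr h7.symm
          linarith
    have hu' : val f.1 g.2.1.1 < val g.1 g.2.1.1 := by
      rw [← hE.onl g g1]
      exact hu
    obtain ⟨x, hx1, hx2, hx3⟩ := val_cross g7 hu' hs
    have hne : f ≠ g := fun hh => by
      rw [← hh, hfl] at hlt
      exact lt_irrefl _ hlt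
    exact hnc f e2 g g1 hne ⟨x, by linarith, by linarith, by linarith, by linarith, hx3.symm⟩

theorem nice_aux_eq (hE : GoodEdges P E)
    {e f g h : Edge} {p : ℝ × ℝ} (h1 : Nice P E e f p) (h2 : Nice P E g h p)
    (ht1 : p.2 = val e.1 p.1 ↔ p.2 = val g.1 p.1) (ht2 : p.2 = val f.1 p.1 ↔ p.2 = val h.1 p.1)
    (heq : e.2.1 = g.2.1) (hlt : e.1.1 < g.1.1) : False := by
  obtain ⟨e1, e2, e3, e4, e5, e6, e7, e8, e9, e10, e11, e12⟩ := h1
  obtain ⟨g1, g2, g3, g4, g5, g6, g7, g8, g9, g10, g11, g12⟩ := h2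
  have hfg := e5 g g1 heq.symm hlt
  have hfg' : val f.1 p.1 ≤ val g.1 p.1 := by
    refine val_le_of_slope (a := g.2.1.1) ?_ hfg g7
    rw [← hE.onl g g1, ← heq, ← e3, ← hE.onl f e2]
  have hef : val e.1 p.1 < val f.1 p.1 := by
    refine val_lt_of_slope (a := e.2.1.1) ?_ e4 e7
    rw [← hE.onl e e1, ← e3, ← hE.onl f e2]
  have h5 : p.2 = val g.1 p.1 := by linarith
  have h6 := ht1.mpr h5
  linarith

theorem nice_inj (hx : ∀ p ∈ P, ∀ q ∈ P, p.1 = q.1 → p = q)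
    (hE : GoodEdges P E) (hnc : ∀ e ∈ E, ∀ f ∈ E, e ≠ f → ¬ Cr e f)
    {e f g h : Edge} {p : ℝ × ℝ} (h1 : Nice P E e f p) (h2 : Nice P E g h p)
    (ht1 : p.2 = val e.1 p.1 ↔ p.2 = val g.1 p.1)
    (ht2 : p.2 = val f.1 p.1 ↔ p.2 = val h.1 p.1) : e = g := by
  rcases lt_trichotomy e.2.1.1 g.2.1.1 with h3 | h3 | h3
  · exact (nice_aux_lt hE hnc h1 h2 ht1 ht2 h3).elim
  · have h4 : e.2.1 = g.2.1 := hx _ (hE.lmem e h1.1) _ (hE.lmem g h2.1) h3
    rcases lt_trichotomy e.1.1 g.1.1 with h5 | h5 | h5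
    · exact (nice_aux_eq hE h1 h2 ht1 ht2 h4 h5).elim
    · exact edge_eq hE hnc h1.1 h2.1 h4 h5
    · exact (nice_aux_eq hE h2 h1 ht1.symm ht2.symm h4.symm h5).elim
  · exact (nice_aux_lt hE hnc h2 h1 ht1.symm ht2.symm h3).elim

theorem exists_nice (hE : GoodEdges P E) {e : Edge} (he : e ∈ E)
    (hne : ∃ f ∈ E, f.2.1 = e.2.1 ∧ e.1.1 < f.1.1) : ∃ f p, Nice P E e f p := by
  classical
  have hS : (E.filter fun f => f.2.1 = e.2.1 ∧ e.1.1 < f.1.1).Nonempty := by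
    obtain ⟨f, hf, h1⟩ := hne
    exact ⟨f, by simp only [mem_filter]; exact ⟨hf, h1⟩⟩
  obtain ⟨f, hf, hfmin⟩ := Finset.exists_min_image _ (fun f => f.1.1) hS
  simp only [mem_filter] at hf hfmin
  obtain ⟨hfE, hf1, hf2⟩ := hf
  have hfl : f.2.1.1 = e.2.1.1 := by rw [hf1]
  have hval : val e.1 e.2.1.1 = val f.1 e.2.1.1 := by
    rw [← hE.onl e he, ← hf1, ← hE.onl f hfE]
  have hle := hE.lt e he
  have hlf := hE.lt f hfE
  have hT : (P.filter fun p => e.2.1.1 < p.1 ∧ p.1 ≤ e.2.2.1 ∧ p.1 ≤ f.2.2.1 ∧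
      val e.1 p.1 ≤ p.2 ∧ p.2 ≤ val f.1 p.1).Nonempty := by
    rcases le_total e.2.2.1 f.2.2.1 with h1 | h1
    · refine ⟨e.2.2, ?_⟩
      simp only [mem_filter]
      refine ⟨hE.rmem e he, hle, le_refl _, h1, (hE.onr e he).ge, ?_⟩
      rw [hE.onr e he]
      exact (val_lt_of_slope hval hf2 hle).le
    · refine ⟨f.2.2, ?_⟩
      simp only [mem_filter]
      have h2 : e.2.1.1 < f.2.2.1 := by linarith
      refine ⟨hE.rmem f hfE, h2, h1, le_refl _, ?_, (hE.onr f hfE).le⟩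
      rw [hE.onr f hfE]
      exact (val_lt_of_slope hval hf2 h2).le
  obtain ⟨p, hp, hpmin⟩ := Finset.exists_min_image _ (fun p => p.1) hT
  simp only [mem_filter] at hp hpmin
  obtain ⟨hpP, hp1, hp2, hp3, hp4, hp5⟩ := hp
  refine ⟨f, p, he, hfE, hf1, hf2, ?_, hpP, hp1, hp2, hp3, hp4, hp5, ?_⟩
  · intro g hg hg1 hg2
    exact hfmin g ⟨hg, hg1, hg2⟩
  · rintro q hq hq1 hq2 ⟨hq3, hq4⟩
    have := hpmin q ⟨hq, hq1, by linarith, by linarith, hq3, hq4⟩
    linarith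

/-- A plane straight-line graph has linearly many edges. -/
theorem planar_bound (hx : ∀ p ∈ P, ∀ q ∈ P, p.1 = q.1 → p = q)
    (hE : GoodEdges P E) (hnc : ∀ e ∈ E, ∀ f ∈ E, e ≠ f → ¬ Cr e f) :
    E.card ≤ 5 * P.card := by
  classical
  have hsplit := Finset.card_filter_add_card_filter_not (s := E)
    (fun e => ∃ f ∈ E, f.2.1 = e.2.1 ∧ e.1.1 < f.1.1)
  have hmax : (E.filter fun e => ¬ ∃ f ∈ E, f.2.1 = e.2.1 ∧ e.1.1 < f.1.1).card ≤ P.card := by
    refine Finset.card_le_card_of_injOn (fun e => e.2.1) ?_ ?_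
    · intro e he
      have he' := Finset.mem_coe.mp he
      rw [mem_filter] at he'
      exact hE.lmem e he'.1
    · intro e he f hf hef
      have he' := Finset.mem_coe.mp he
      have hf' := Finset.mem_coe.mp hf
      rw [mem_filter] at he' hf'
      simp only at hef
      refine edge_eq hE hnc he'.1 hf'.1 hef ?_
      by_contra hcon
      rcases lt_or_gt_of_ne hcon with h1 | h1
      · exact he'.2 ⟨f, hf'.1, hef.symm, h1⟩
      · exact hf'.2 ⟨e, he'.1, hef, h1⟩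
  have hnon : (E.filter fun e => ∃ f ∈ E, f.2.1 = e.2.1 ∧ e.1.1 < f.1.1).card
      ≤ 4 * P.card := by
    have hch : ∀ e : Edge, ∃ fp : Edge × (ℝ × ℝ), (e ∈ E ∧ ∃ f ∈ E, f.2.1 = e.2.1 ∧ e.1.1 < f.1.1) →
        Nice P E e fp.1 fp.2 := by
      intro e
      by_cases h : (e ∈ E ∧ ∃ f ∈ E, f.2.1 = e.2.1 ∧ e.1.1 < f.1.1)
      · obtain ⟨f, p, hfp⟩ := exists_nice hE h.1 h.2
        exact ⟨(f, p), fun _ => hfp⟩
      · exact ⟨(e, e.2.1), fun h' => absurd h' h⟩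
    choose fp hfp using hch
    have hcard : (P ×ˢ ((Finset.univ : Finset Bool) ×ˢ (Finset.univ : Finset Bool))).card
        = 4 * P.card := by
      rw [Finset.card_product, Finset.card_product]
      simp
      ring
    rw [← hcard]
    refine Finset.card_le_card_of_injOn (fun e => ((fp e).2,
      (decide ((fp e).2.2 = val e.1 (fp e).2.1), decide ((fp e).2.2 = val (fp e).1.1 (fp e).2.1))))
      ?_ ?_
    · intro e he
      have he' := Finset.mem_coe.mp he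
      rw [mem_filter] at he'
      have h1 := hfp e he'
      simp only [Finset.coe_product, Set.mem_prod, Finset.mem_coe, mem_univ, and_true]
      exact h1.2.2.2.2.2.1
    · intro e he g hg heg
      have he' := Finset.mem_coe.mp he
      have hg' := Finset.mem_coe.mp hg
      rw [mem_filter] at he' hg'
      have h1 := hfp e he'
      have h2 := hfp g hg'
      simp only [Prod.mk.injEq, decide_eq_decide] at heg
      obtain ⟨hp, ht1, ht2⟩ := heg
      rw [hp] at h1 ht1 ht2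
      exact nice_inj hx hE hnc h1 h2 ht1 ht2
  omega

end Pool.Agent.Helper34
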