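import Pool.Agent.Helper34.Lines

set_option autoImplicit false

namespace Pool.Agent.Helper34

open Finset

/-- number of points of `Q` on the line through `x` and `y` -/
noncomputable def aa (Q : Finset (ℝ × ℝ)) (x y : ℝ × ℝ) : ℝ := ((onLine Q (lin x y)).card : ℝ)

theorem aa_nonneg (Q : Finset (ℝ × ℝ)) (x y : ℝ × ℝ) : 0 ≤ aa Q x y := Nat.cast_nonneg _

variable {Q : Finset (ℝ × ℝ)}

/-- few rich lines through a point -/
theorem rich_through (hx : DistX Q) {A : ℝ} {s : ℕ} (hs : 2 ≤ s) {x : ℝ × ℝ} (hxQ : x ∈ Q)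
    (hA : ∑ y ∈ Q.erase x, aa Q x y ≤ A) :
    ((((Q.erase x).filter fun w => (s : ℝ) ≤ aa Q x w).image fun w => lin x w).card : ℝ)
      ≤ A / ((s : ℝ) * (s - 1)) := by
  classical
  have hs' : (2 : ℝ) ≤ s := by exact_mod_cast hs
  have hpos : 0 < (s : ℝ) * (s - 1) := by nlinarith
  rw [le_div_iff₀ hpos]
  refine le_trans ?_ hA
  obtain ⟨T, hT⟩ : ∃ T, T = (Q.erase x).filter fun w => (s : ℝ) ≤ aa Q x w := ⟨_, rfl⟩
  rw [← hT]
  have h1 : ∑ y ∈ T, aa Q x y ≤ ∑ y ∈ Q.erase x, aa Q x y :=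
    Finset.sum_le_sum_of_subset_of_nonneg (hT ▸ Finset.filter_subset _ _)
      fun y _ _ => aa_nonneg Q x y
  refine le_trans ?_ h1
  have h2 : ∑ y ∈ T, aa Q x y
      = ∑ l ∈ T.image (fun w => lin x w), ∑ y ∈ T with lin x y = l, aa Q x y := by
    rw [Finset.sum_fiberwise_of_maps_to]
    intro y hy
    exact Finset.mem_image_of_mem _ hy
  rw [h2, ← nsmul_eq_mul]
  refine Finset.card_nsmul_le_sum _ _ _ fun l hl => ?_
  rw [mem_image] at hl
  obtain ⟨w, hw, hwl⟩ := hl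
  have hw' := hw
  rw [hT, mem_filter, mem_erase] at hw'
  obtain ⟨⟨hwx, hwQ⟩, hws⟩ := hw'
  have hcard : (s : ℝ) ≤ ((onLine Q l).card : ℝ) := by
    rw [← hwl]; exact hws
  -- the fibre
  have hfib : (onLine Q l).erase x ⊆ T.filter fun y => lin x y = l := by
    intro y hy
    rw [mem_erase, mem_onLine] at hy
    obtain ⟨hyx, hyQ, hyl⟩ := hy
    have hxl : x.2 = val l x.1 := by rw [← hwl]; exact lin_left x w
    have hl' : l = lin x y := eq_lin (hx.ne hxQ hyQ (Ne.symm hyx)) hxl hyl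
    rw [mem_filter, hT, mem_filter, mem_erase]
    refine ⟨⟨⟨hyx, hyQ⟩, ?_⟩, hl'.symm⟩
    unfold aa
    rw [← hl']
    exact hcard
  have hxmem : x ∈ onLine Q l := mem_onLine.mpr ⟨hxQ, by rw [← hwl]; exact lin_left x w⟩
  have hc2 : (((onLine Q l).erase x).card : ℝ) = ((onLine Q l).card : ℝ) - 1 := by
    rw [Finset.card_erase_of_mem hxmem, Nat.cast_sub, Nat.cast_one]
    exact Finset.card_pos.mpr ⟨x, hxmem⟩
  calc (s : ℝ) * (s - 1) ≤ ((onLine Q l).card : ℝ) * (((onLine Q l).card : ℝ) - 1) := by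
        nlinarith
    _ = ∑ y ∈ (onLine Q l).erase x, ((onLine Q l).card : ℝ) := by
        rw [Finset.sum_const, nsmul_eq_mul, hc2]
        ring
    _ ≤ ∑ y ∈ T.filter (fun y => lin x y = l), ((onLine Q l).card : ℝ) :=
        Finset.sum_le_sum_of_subset_of_nonneg hfib fun _ _ _ => Nat.cast_nonneg _
    _ = ∑ y ∈ T.filter (fun y => lin x y = l), aa Q x y := by
        refine Finset.sum_congr rfl fun y hy => ?_
        rw [mem_filter] at hy
        unfold aa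
        rw [hy.2]

/-- weighted number of common neighbours -/
theorem common_bound (hx : DistX Q) {A B : ℝ} {s : ℕ} (hs : 2 ≤ s) (hA0 : 0 ≤ A) (hB0 : 0 ≤ B)
    (hA : ∀ x ∈ Q, ∑ y ∈ Q.erase x, aa Q x y ≤ A) (hB : ∀ l, ((onLine Q l).card : ℝ) ≤ B)
    {x y : ℝ × ℝ} (hxQ : x ∈ Q) (hyQ : y ∈ Q) (hxy : x ≠ y) :
    ∑ w ∈ Q with w.2 ≠ val (lin x y) w.1, aa Q y w * aa Q x w
      ≤ 2 * s * A + B ^ 2 * (A / ((s : ℝ) * (s - 1))) ^ 2 := by
  classical
  obtain ⟨T, hT⟩ : ∃ T, T = Q.filter fun w => w.2 ≠ val (lin x y) w.1 := ⟨_, rfl⟩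
  rw [← hT]
  have hTx : T ⊆ Q.erase x := by
    intro w hw
    rw [hT, mem_filter] at hw
    rw [mem_erase]
    exact ⟨fun h => hw.2 (by rw [h]; exact lin_left x y), hw.1⟩
  have hTy : T ⊆ Q.erase y := by
    intro w hw
    rw [hT, mem_filter] at hw
    rw [mem_erase]
    exact ⟨fun h => hw.2 (by rw [h]; exact lin_right (hx.ne hxQ hyQ hxy)), hw.1⟩
  obtain ⟨G, hG⟩ : ∃ G, G = T.filter fun w => (s : ℝ) ≤ aa Q x w ∧ (s : ℝ) ≤ aa Q y w := ⟨_, rfl⟩
  have hs0 : (0 : ℝ) ≤ s := Nat.cast_nonneg _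
  have h1 : ∀ w ∈ T, aa Q y w * aa Q x w
      ≤ s * aa Q x w + s * aa Q y w + if w ∈ G then B ^ 2 else 0 := by
    intro w hw
    have a1 := aa_nonneg Q x w
    have a2 := aa_nonneg Q y w
    split_ifs with hwG
    · have b1 : aa Q x w ≤ B := hB _
      have b2 : aa Q y w ≤ B := hB _
      have : aa Q y w * aa Q x w ≤ B * B := mul_le_mul b2 b1 a1 hB0
      nlinarith [mul_nonneg hs0 a1, mul_nonneg hs0 a2]
    · rw [hG, mem_filter, not_and, not_and_or, not_le, not_le] at hwG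
      rcases hwG hw with h | h
      · have := mul_le_mul_of_nonneg_left h.le a2
        nlinarith [mul_nonneg hs0 a1]
      · have := mul_le_mul_of_nonneg_right h.le a1
        nlinarith [mul_nonneg hs0 a2]
  have h2 := Finset.sum_le_sum h1
  rw [Finset.sum_add_distrib, Finset.sum_add_distrib, ← Finset.mul_sum, ← Finset.mul_sum,
    ← Finset.sum_filter, Finset.sum_const, nsmul_eq_mul] at h2
  have h3 : ∑ w ∈ T, aa Q x w ≤ A :=
    (Finset.sum_le_sum_of_subset_of_nonneg hTx fun w _ _ => aa_nonneg Q x w).trans (hA x hxQ)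
  have h4 : ∑ w ∈ T, aa Q y w ≤ A :=
    (Finset.sum_le_sum_of_subset_of_nonneg hTy fun w _ _ => aa_nonneg Q y w).trans (hA y hyQ)
  have hGc : ((T.filter fun w => w ∈ G).card : ℝ) ≤ (A / ((s : ℝ) * (s - 1))) ^ 2 := by
    obtain ⟨Rx, hRx⟩ : ∃ Rx, Rx = ((Q.erase x).filter fun w => (s : ℝ) ≤ aa Q x w).image
      fun w => lin x w := ⟨_, rfl⟩
    obtain ⟨Ry, hRy⟩ : ∃ Ry, Ry = ((Q.erase y).filter fun w => (s : ℝ) ≤ aa Q y w).image
      fun w => lin y w := ⟨_, rfl⟩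
    have c1 : (Rx.card : ℝ) ≤ A / ((s : ℝ) * (s - 1)) := hRx ▸ rich_through hx hs hxQ (hA x hxQ)
    have c2 : (Ry.card : ℝ) ≤ A / ((s : ℝ) * (s - 1)) := hRy ▸ rich_through hx hs hyQ (hA y hyQ)
    have c3 : (T.filter fun w => w ∈ G).card ≤ Rx.card * Ry.card := by
      rw [← Finset.card_product]
      refine Finset.card_le_card_of_injOn (fun w => (lin x w, lin y w)) ?_ ?_
      · intro w hw
        have hw' := Finset.mem_coe.mp hw
        rw [mem_filter, hG, mem_filter] at hw'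
        obtain ⟨hwT, _, hw1, hw2⟩ := hw'
        rw [Finset.mem_coe, mem_product, hRx, hRy]
        exact ⟨Finset.mem_image_of_mem _ (mem_filter.mpr ⟨hTx hwT, hw1⟩),
          Finset.mem_image_of_mem _ (mem_filter.mpr ⟨hTy hwT, hw2⟩)⟩
      · intro w hw w' hw' hww
        have hw1 := (mem_filter.mp (Finset.mem_coe.mp hw)).1
        have hw2 := (mem_filter.mp (Finset.mem_coe.mp hw')).1
        simp only [Prod.mk.injEq] at hww
        by_contra hne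
        have hwQ : w ∈ Q := Finset.mem_of_mem_erase (hTx hw1)
        have hwQ' : w' ∈ Q := Finset.mem_of_mem_erase (hTx hw2)
        have hwx := (mem_erase.mp (hTx hw1)).1
        have hwy := (mem_erase.mp (hTy hw1)).1
        have hwx' := (mem_erase.mp (hTx hw2)).1
        have hwy' := (mem_erase.mp (hTy hw2)).1
        have hn := hx.ne hwQ hwQ' hne
        -- both lines equal lin w w'
        have e1 : lin x w = lin w w' := eq_lin hn (lin_right (hx.ne hxQ hwQ (Ne.symm hwx)))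
          (by rw [hww.1]; exact lin_right (hx.ne hxQ hwQ' (Ne.symm hwx')))
        have e2 : lin y w = lin w w' := eq_lin hn (lin_right (hx.ne hyQ hwQ (Ne.symm hwy)))
          (by rw [hww.2]; exact lin_right (hx.ne hyQ hwQ' (Ne.symm hwy')))
        have e3 : lin x w = lin x y := eq_lin (hx.ne hxQ hyQ hxy) (lin_left x w)
          (by rw [e1, ← e2]; exact lin_left y w)
        rw [hT, mem_filter] at hw1
        exact hw1.2 (by rw [← e3]; exact lin_right (hx.ne hxQ hwQ (Ne.symm hwx)))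
    have c4 : ((T.filter fun w => w ∈ G).card : ℝ) ≤ Rx.card * Ry.card := by exact_mod_cast c3
    refine c4.trans ?_
    rw [pow_two]
    exact mul_le_mul c1 c2 (Nat.cast_nonneg _) ((Nat.cast_nonneg _).trans c1)
  have h5 : s * ∑ w ∈ T, aa Q x w ≤ s * A := mul_le_mul_of_nonneg_left h3 hs0
  have h6 : s * ∑ w ∈ T, aa Q y w ≤ s * A := mul_le_mul_of_nonneg_left h4 hs0
  have h7 : ((T.filter fun w => w ∈ G).card : ℝ) * B ^ 2
      ≤ (A / ((s : ℝ) * (s - 1))) ^ 2 * B ^ 2 :=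
    mul_le_mul_of_nonneg_right hGc (by positivity)
  linarith

/-- third points on a line -/
noncomputable def Lo (Q : Finset (ℝ × ℝ)) (x y : ℝ × ℝ) : Finset (ℝ × ℝ) :=
  ((onLine Q (lin x y)).erase x).erase y

theorem mem_Lo {x y z : ℝ × ℝ} :
    z ∈ Lo Q x y ↔ z ∈ Q ∧ z.2 = val (lin x y) z.1 ∧ z ≠ x ∧ z ≠ y := by
  unfold Lo
  rw [mem_erase, mem_erase, mem_onLine]
  tauto

theorem card_Lo_le (x y : ℝ × ℝ) : ((Lo Q x y).card : ℝ) ≤ aa Q x y := by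
  unfold aa Lo
  exact_mod_cast (Finset.card_erase_le.trans Finset.card_erase_le)

/-- collinear pairs with `x` -/
noncomputable def Pr (Q : Finset (ℝ × ℝ)) (x : ℝ × ℝ) : Finset ((ℝ × ℝ) × (ℝ × ℝ)) :=
  ((Q.erase x) ×ˢ Q).filter fun p => p.2 ∈ Lo Q x p.1

theorem mem_Pr {x : ℝ × ℝ} {p : (ℝ × ℝ) × (ℝ × ℝ)} :
    p ∈ Pr Q x ↔ p.1 ∈ Q ∧ p.1 ≠ x ∧ p.2 ∈ Lo Q x p.1 := by
  unfold Pr
  rw [mem_filter, mem_product, mem_erase]
  constructor
  · rintro ⟨⟨⟨h1, h2⟩, _⟩, h4⟩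
    exact ⟨h2, h1, h4⟩
  · rintro ⟨h1, h2, h3⟩
    exact ⟨⟨⟨h2, h1⟩, (mem_Lo.mp h3).1⟩, h3⟩

theorem card_Pr_le (x : ℝ × ℝ) : ((Pr Q x).card : ℝ) ≤ ∑ y ∈ Q.erase x, aa Q x y := by
  classical
  have h1 : (Pr Q x).card = ∑ y ∈ Q.erase x, ((Pr Q x).filter fun p => p.1 = y).card :=
    Finset.card_eq_sum_card_fiberwise (fun p hp => by
      have := mem_Pr.mp (Finset.mem_coe.mp hp)
      exact Finset.mem_coe.mpr (mem_erase.mpr ⟨this.2.1, this.1⟩))
  rw [h1]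
  push_cast
  refine Finset.sum_le_sum fun y _ => ?_
  refine le_trans ?_ (card_Lo_le x y)
  have : ((Pr Q x).filter fun p => p.1 = y).card ≤ (Lo Q x y).card := by
    refine Finset.card_le_card_of_injOn (fun p => p.2) ?_ ?_
    · intro p hp
      have hp' := Finset.mem_coe.mp hp
      rw [mem_filter] at hp'
      have := (mem_Pr.mp hp'.1).2.2
      rw [hp'.2] at this
      exact Finset.mem_coe.mpr this
    · intro p hp p' hp' hpp
      have h2 := (mem_filter.mp (Finset.mem_coe.mp hp)).2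
      have h3 := (mem_filter.mp (Finset.mem_coe.mp hp')).2
      exact Prod.ext (h2.trans h3.symm) hpp
  exact_mod_cast this

/-- non-collinear triples -/
noncomputable def T3 (Q : Finset (ℝ × ℝ)) : Finset ((ℝ × ℝ) × (ℝ × ℝ) × (ℝ × ℝ)) :=
  (Q ×ˢ (Q ×ˢ Q)).filter fun t => t.1 ≠ t.2.1 ∧ t.2.2.2 ≠ val (lin t.1 t.2.1) t.2.2.1

/-- triangle configurations -/
noncomputable def I3 (Q : Finset (ℝ × ℝ)) :
    Finset (Σ _ : (ℝ × ℝ) × (ℝ × ℝ) × (ℝ × ℝ), (ℝ × ℝ) × (ℝ × ℝ) × (ℝ × ℝ)) :=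
  (T3 Q).sigma fun t => Lo Q t.1 t.2.1 ×ˢ (Lo Q t.2.1 t.2.2 ×ˢ Lo Q t.1 t.2.2)

theorem card_I3_le (hx : DistX Q) {A B : ℝ} {s : ℕ} (hs : 2 ≤ s) (hA0 : 0 ≤ A) (hB0 : 0 ≤ B)
    (hA : ∀ x ∈ Q, ∑ y ∈ Q.erase x, aa Q x y ≤ A) (hB : ∀ l, ((onLine Q l).card : ℝ) ≤ B) :
    ((I3 Q).card : ℝ)
      ≤ Q.card * A * (2 * s * A + B ^ 2 * (A / ((s : ℝ) * (s - 1))) ^ 2) := by
  classical
  unfold I3
  rw [Finset.card_sigma]
  push_cast
  have h1 : ∀ t ∈ T3 Q, ((Lo Q t.1 t.2.1 ×ˢ (Lo Q t.2.1 t.2.2 ×ˢ Lo Q t.1 t.2.2)).card : ℝ)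
      ≤ aa Q t.1 t.2.1 * (aa Q t.2.1 t.2.2 * aa Q t.1 t.2.2) := by
    intro t _
    rw [Finset.card_product, Finset.card_product]
    push_cast
    have a1 := card_Lo_le (Q := Q) t.1 t.2.1
    have a2 := card_Lo_le (Q := Q) t.2.1 t.2.2
    have a3 := card_Lo_le (Q := Q) t.1 t.2.2
    have b1 : (0 : ℝ) ≤ (Lo Q t.1 t.2.1).card := Nat.cast_nonneg _
    have b2 : (0 : ℝ) ≤ (Lo Q t.2.1 t.2.2).card := Nat.cast_nonneg _
    have b3 : (0 : ℝ) ≤ (Lo Q t.1 t.2.2).card := Nat.cast_nonneg _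
    have c1 := aa_nonneg Q t.1 t.2.1
    have c2 := aa_nonneg Q t.2.1 t.2.2
    exact mul_le_mul a1 (mul_le_mul a2 a3 b3 c2) (mul_nonneg b2 b3) c1
  refine (Finset.sum_le_sum h1).trans ?_
  have h2 : ∑ t ∈ T3 Q, aa Q t.1 t.2.1 * (aa Q t.2.1 t.2.2 * aa Q t.1 t.2.2)
      = ∑ x ∈ Q, ∑ y ∈ Q.erase x, aa Q x y * ∑ w ∈ Q with w.2 ≠ val (lin x y) w.1,
        aa Q y w * aa Q x w := by
    unfold T3
    rw [Finset.sum_filter, Finset.sum_product]
    refine Finset.sum_congr rfl fun x _ => ?_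
    rw [Finset.sum_product]
    rw [← Finset.filter_ne' Q x, Finset.sum_filter]
    refine Finset.sum_congr rfl fun y _ => ?_
    by_cases hxy : x = y
    · simp [hxy]
    · have hyx : y ≠ x := Ne.symm hxy
      rw [if_pos hyx, Finset.sum_filter, Finset.mul_sum]
      refine Finset.sum_congr rfl fun w _ => ?_
      by_cases hw : w.2 = val (lin x y) w.1
      · simp [hw]
      · simp [hw, hxy]
  rw [h2]
  obtain ⟨D, hD⟩ : ∃ D, D = 2 * s * A + B ^ 2 * (A / ((s : ℝ) * (s - 1))) ^ 2 := ⟨_, rfl⟩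
  rw [← hD]
  have hD0 : 0 ≤ D := by rw [hD]; positivity
  calc ∑ x ∈ Q, ∑ y ∈ Q.erase x, aa Q x y * ∑ w ∈ Q with w.2 ≠ val (lin x y) w.1,
        aa Q y w * aa Q x w
      ≤ ∑ x ∈ Q, ∑ y ∈ Q.erase x, aa Q x y * D := by
        refine Finset.sum_le_sum fun x hxQ => Finset.sum_le_sum fun y hy => ?_
        rw [mem_erase] at hy
        refine mul_le_mul_of_nonneg_left ?_ (aa_nonneg Q x y)
        rw [hD]
        exact common_bound hx hs hA0 hB0 hA hB hxQ hy.2 (Ne.symm hy.1)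
    _ = ∑ x ∈ Q, (∑ y ∈ Q.erase x, aa Q x y) * D := by
        refine Finset.sum_congr rfl fun x _ => ?_
        rw [Finset.sum_mul]
    _ ≤ ∑ _x ∈ Q, A * D :=
        Finset.sum_le_sum fun x hxQ => mul_le_mul_of_nonneg_right (hA x hxQ) hD0
    _ = Q.card * A * D := by
        rw [Finset.sum_const, nsmul_eq_mul]
        ring

/-- the six points of a triangle configuration -/
noncomputable def A3 (i : Σ _ : (ℝ × ℝ) × (ℝ × ℝ) × (ℝ × ℝ), (ℝ × ℝ) × (ℝ × ℝ) × (ℝ × ℝ)) :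
    Finset (ℝ × ℝ) :=
  {i.1.1, i.1.2.1, i.1.2.2, i.2.1, i.2.2.1, i.2.2.2}

theorem mem_I3 {i : Σ _ : (ℝ × ℝ) × (ℝ × ℝ) × (ℝ × ℝ), (ℝ × ℝ) × (ℝ × ℝ) × (ℝ × ℝ)} :
    i ∈ I3 Q ↔ (i.1.1 ∈ Q ∧ i.1.2.1 ∈ Q ∧ i.1.2.2 ∈ Q) ∧
      (i.1.1 ≠ i.1.2.1 ∧ i.1.2.2.2 ≠ val (lin i.1.1 i.1.2.1) i.1.2.2.1) ∧
      i.2.1 ∈ Lo Q i.1.1 i.1.2.1 ∧ i.2.2.1 ∈ Lo Q i.1.2.1 i.1.2.2 ∧
      i.2.2.2 ∈ Lo Q i.1.1 i.1.2.2 := by
  unfold I3 T3
  simp only [mem_sigma, mem_filter, mem_product]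
  tauto

theorem card_A3 (hx : DistX Q)
    {i : Σ _ : (ℝ × ℝ) × (ℝ × ℝ) × (ℝ × ℝ), (ℝ × ℝ) × (ℝ × ℝ) × (ℝ × ℝ)} (hi : i ∈ I3 Q) :
    (A3 i).card = 6 := by
  obtain ⟨⟨x, y, w⟩, ⟨a, b, c⟩⟩ := i
  rw [mem_I3] at hi
  simp only at hi
  obtain ⟨⟨hxQ, hyQ, hwQ⟩, ⟨hxy, hw⟩, ha, hb, hc⟩ := hi
  rw [mem_Lo] at ha hb hc
  obtain ⟨haQ, ha1, hax, hay⟩ := ha
  obtain ⟨hbQ, hb1, hby, hbw⟩ := hb
  obtain ⟨hcQ, hc1, hcx, hcw⟩ := hc
  have hwx : w ≠ x := fun h => hw (by rw [h]; exact lin_left x y)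
  have hwy : w ≠ y := fun h => hw (by rw [h]; exact lin_right (hx.ne hxQ hyQ hxy))
  have l12 : lin x y ≠ lin y w := fun h => hw (by
    rw [h]; exact lin_right (hx.ne hyQ hwQ (Ne.symm hwy)))
  have l13 : lin x y ≠ lin x w := fun h => hw (by
    rw [h]; exact lin_right (hx.ne hxQ hwQ (Ne.symm hwx)))
  have l23 : lin y w ≠ lin x w := by
    intro h
    apply l13
    symm
    exact eq_lin (hx.ne hxQ hyQ hxy) (lin_left x w) (by rw [← h]; exact lin_left y w)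
  have e1 : a ≠ w := fun h => hw (by rw [← h]; exact ha1)
  have e2 : a ≠ b := by
    intro h
    apply l12
    rw [← h] at hb1
    exact line_eq_of_two (hx.ne haQ hyQ hay) (by rw [← ha1, ← hb1])
      (by rw [← lin_right (hx.ne hxQ hyQ hxy), ← lin_left])
  have e3 : a ≠ c := by
    intro h
    apply l13
    rw [← h] at hc1
    exact line_eq_of_two (hx.ne haQ hxQ hax) (by rw [← ha1, ← hc1])
      (by rw [← lin_left, ← lin_left])
  have e4 : b ≠ x := by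
    intro h
    apply l12
    rw [h] at hb1
    symm
    exact eq_lin (hx.ne hxQ hyQ hxy) hb1 (lin_left y w)
  have e5 : b ≠ c := by
    intro h
    apply l23
    rw [← h] at hc1
    exact line_eq_of_two (hx.ne hbQ hwQ hbw) (by rw [← hb1, ← hc1])
      (by rw [← lin_right (hx.ne hyQ hwQ (Ne.symm hwy)),
          ← lin_right (hx.ne hxQ hwQ (Ne.symm hwx))])
  have e6 : c ≠ y := by
    intro h
    apply l13
    rw [h] at hc1
    symm
    exact eq_lin (hx.ne hxQ hyQ hxy) (lin_left x w) hc1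
  unfold A3
  simp only
  rw [Finset.card_insert_of_notMem, Finset.card_insert_of_notMem, Finset.card_insert_of_notMem,
    Finset.card_insert_of_notMem, Finset.card_insert_of_notMem, Finset.card_singleton]
  · simp only [mem_singleton]; exact e5
  · simp only [mem_insert, mem_singleton, not_or]; exact ⟨e2, e3⟩
  · simp only [mem_insert, mem_singleton, not_or]; exact ⟨Ne.symm e1, Ne.symm hbw, Ne.symm hcw⟩
  · simp only [mem_insert, mem_singleton, not_or]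
    exact ⟨Ne.symm hwy, Ne.symm hay, Ne.symm hby, Ne.symm e6⟩
  · simp only [mem_insert, mem_singleton, not_or]
    exact ⟨hxy, Ne.symm hwx, Ne.symm hax, Ne.symm e4, Ne.symm hcx⟩

/-- collinear `t`-subsets -/
noncomputable def I4 (Q : Finset (ℝ × ℝ)) (t : ℕ) : Finset (Finset (ℝ × ℝ)) := by
  classical
  exact (Q.powersetCard t).filter fun U => ∃ l, U ⊆ onLine Q l

theorem mem_I4 {t : ℕ} {U : Finset (ℝ × ℝ)} :
    U ∈ I4 Q t ↔ (U ⊆ Q ∧ U.card = t) ∧ ∃ l, U ⊆ onLine Q l := by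
  unfold I4
  simp only [mem_filter, mem_powersetCard]

theorem card_I4_le (hx : DistX Q) {B : ℝ} {t : ℕ} (ht : 2 ≤ t)
    (hB : ∀ l, ((onLine Q l).card : ℝ) ≤ B) :
    ((I4 Q t).card : ℝ) ≤ (Q.card : ℝ) ^ 2 * (B ^ t / t.factorial) := by
  classical
  obtain ⟨M, hM⟩ : ∃ M : Finset (ℝ × ℝ), M = Q.offDiag.image fun q => lin q.1 q.2 := ⟨_, rfl⟩
  have h1 : I4 Q t ⊆ M.biUnion fun l => (onLine Q l).powersetCard t := by
    intro U hU
    rw [mem_I4] at hU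
    obtain ⟨⟨hUQ, hUt⟩, l, hl⟩ := hU
    have h2 : 1 < U.card := by omega
    obtain ⟨x, hxU, y, hyU, hxy⟩ := Finset.one_lt_card.mp h2
    have hxl := mem_onLine.mp (hl hxU)
    have hyl := mem_onLine.mp (hl hyU)
    rw [mem_biUnion]
    refine ⟨l, ?_, ?_⟩
    · rw [hM, mem_image]
      refine ⟨(x, y), ?_, ?_⟩
      · rw [mem_offDiag]
        exact ⟨hUQ hxU, hUQ hyU, hxy⟩
      · exact (eq_lin (hx.ne hxl.1 hyl.1 hxy) hxl.2 hyl.2).symm
    · rw [mem_powersetCard]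
      exact ⟨hl, hUt⟩
  have h2 : (I4 Q t).card ≤ ∑ l ∈ M, ((onLine Q l).powersetCard t).card :=
    (Finset.card_le_card h1).trans Finset.card_biUnion_le
  have h3 : ∀ l ∈ M, (((onLine Q l).powersetCard t).card : ℝ) ≤ B ^ t / t.factorial := by
    intro l _
    rw [Finset.card_powersetCard]
    refine (Nat.choose_le_pow_div t _).trans ?_
    have : ((onLine Q l).card : ℝ) ^ t ≤ B ^ t := pow_le_pow_left₀ (Nat.cast_nonneg _) (hB l) t
    exact div_le_div_of_nonneg_right this (Nat.cast_nonneg _)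
  have h4 : ((I4 Q t).card : ℝ) ≤ ∑ l ∈ M, (((onLine Q l).powersetCard t).card : ℝ) := by
    exact_mod_cast h2
  have h5 : (∑ l ∈ M, (((onLine Q l).powersetCard t).card : ℝ))
      ≤ M.card * (B ^ t / t.factorial) := by
    have := Finset.sum_le_card_nsmul M _ _ h3
    rwa [nsmul_eq_mul] at this
  have hB0 : 0 ≤ B := (Nat.cast_nonneg _).trans (hB 0)
  have h6 : (M.card : ℝ) ≤ (Q.card : ℝ) ^ 2 := by
    have : M.card ≤ Q.card * Q.card := by
      rw [hM]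
      refine Finset.card_image_le.trans ?_
      rw [Finset.offDiag_card]
      omega
    rw [pow_two]
    exact_mod_cast this
  exact h4.trans (h5.trans (mul_le_mul_of_nonneg_right h6 (by positivity)))

end Pool.Agent.Helper34
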