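import Pool.Agent.Helper34.Final

set_option autoImplicit false

namespace Pool.Agent.Helper34

open Finset

/-- the shear -/
def sh (e : ℝ) (p : ℝ × ℝ) : ℝ × ℝ := (p.1 + e * p.2, p.2)

theorem sh_inj (e : ℝ) : Function.Injective (sh e) := by
  intro p q h
  have h2 : (sh e p).2 = (sh e q).2 := by rw [h]
  have h1 : (sh e p).1 = (sh e q).1 := by rw [h]
  change p.2 = q.2 at h2
  change p.1 + e * p.2 = q.1 + e * q.2 at h1
  refine Prod.ext ?_ h2
  rw [h2] at h1
  linarith

theorem exists_shear (P : Finset (ℝ × ℝ)) : ∃ e : ℝ, DistX (P.image (sh e)) := by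
  obtain ⟨e, he⟩ := Infinite.exists_notMem_finset
    (P.offDiag.image fun q => (q.2.1 - q.1.1) / (q.1.2 - q.2.2))
  refine ⟨e, ?_⟩
  intro p' hp' q' hq' h
  rw [mem_image] at hp' hq'
  obtain ⟨p, hp, rfl⟩ := hp'
  obtain ⟨q, hq, rfl⟩ := hq'
  by_contra hne
  have hpq : p ≠ q := fun h => hne (by rw [h])
  apply he
  rw [mem_image]
  refine ⟨(p, q), mem_offDiag.mpr ⟨hp, hq, hpq⟩, ?_⟩
  have h1 : p.1 + e * p.2 = q.1 + e * q.2 := h
  have h2 : p.2 ≠ q.2 := by
    intro h2
    apply hpq
    refine Prod.ext ?_ h2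
    rw [h2] at h1
    linarith
  have h3 : p.2 - q.2 ≠ 0 := sub_ne_zero.mpr h2
  change (q.1 - p.1) / (p.2 - q.2) = e
  rw [div_eq_iff h3]
  linarith

theorem main_small_large : ∃ c : ℝ, 0 < c ∧
      ∀ P : Finset (ℝ × ℝ),
        (∀ T ⊆ P, Collinear ℝ (T : Set (ℝ × ℝ)) → (T.card : ℝ) ≤ Real.sqrt (P.card : ℝ)) →
        ∃ S ⊆ P,
          (∀ T ⊆ S, T.card = 3 → ¬ Collinear ℝ (T : Set (ℝ × ℝ))) ∧
          c * Real.sqrt (P.card : ℝ) ≤ (S.card : ℝ) := by
  classical
  obtain ⟨c, hc, n₀, hmain⟩ := main_large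
  refine ⟨min c (1 / (Real.sqrt n₀ + 1)), lt_min hc (by positivity), ?_⟩
  intro P hP
  rcases le_or_gt n₀ P.card with hn | hn
  · -- large
    obtain ⟨e, he⟩ := exists_shear P
    have hcard : ∀ T : Finset (ℝ × ℝ), (T.image (sh e)).card = T.card := fun T =>
      Finset.card_image_of_injective _ (sh_inj e)
    obtain ⟨W, hWP, hW2, hWc⟩ := hmain (P.image (sh e)) he (by rw [hcard]; exact hn) (by
      intro l
      rw [hcard]
      have h1 : onLine (P.image (sh e)) l
          = (P.filter fun p => (sh e p).2 = val l (sh e p).1).image (sh e) := by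
        ext p
        rw [mem_onLine, mem_image, mem_image]
        constructor
        · rintro ⟨⟨a, ha, rfl⟩, h⟩
          exact ⟨a, mem_filter.mpr ⟨ha, h⟩, rfl⟩
        · rintro ⟨a, ha, rfl⟩
          rw [mem_filter] at ha
          exact ⟨⟨a, ha.1, rfl⟩, ha.2⟩
      rw [h1, hcard]
      apply hP _ (Finset.filter_subset _ _)
      rw [collinear_iff_exists_forall_eq_smul_vadd]
      refine ⟨(-(e * l.2), l.2), (1 - e * l.1, l.1), ?_⟩
      intro p hp
      rw [Finset.mem_coe, mem_filter] at hp
      refine ⟨(sh e p).1, ?_⟩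
      have h2 : p.2 = l.1 * (p.1 + e * p.2) + l.2 := hp.2
      refine Prod.ext ?_ ?_
      · simp only [sh, vadd_eq_add, Prod.fst_add, Prod.smul_fst, smul_eq_mul]
        linear_combination (-e) * h2
      · simp only [sh, vadd_eq_add, Prod.snd_add, Prod.smul_snd, smul_eq_mul]
        linear_combination h2)
    refine ⟨P.filter fun p => sh e p ∈ W, Finset.filter_subset _ _, ?_, ?_⟩
    · intro T hT hT3 hcol
      rw [collinear_iff_exists_forall_eq_smul_vadd] at hcol
      obtain ⟨p₀, v, hv⟩ := hcol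
      have hTW : T.image (sh e) ⊆ W := by
        intro p hp
        rw [mem_image] at hp
        obtain ⟨a, ha, rfl⟩ := hp
        exact (mem_filter.mp (hT ha)).2
      have hTP : ∀ a ∈ T, a ∈ P := fun a ha => (mem_filter.mp (hT ha)).1
      have hv0 : v.1 + e * v.2 ≠ 0 := by
        intro h0
        have h2 : 1 < T.card := by omega
        obtain ⟨a, ha, b, hb, hab⟩ := Finset.one_lt_card.mp h2
        obtain ⟨r, hr⟩ := hv a ha
        obtain ⟨r', hr'⟩ := hv b hb
        apply hab
        apply sh_inj e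
        apply he _ (mem_image_of_mem _ (hTP a ha)) _ (mem_image_of_mem _ (hTP b hb))
        rw [hr, hr']
        simp only [sh, vadd_eq_add, Prod.fst_add, Prod.smul_fst, smul_eq_mul, Prod.snd_add,
          Prod.smul_snd]
        linear_combination (r - r') * h0
      obtain ⟨l, hl⟩ : ∃ l : ℝ × ℝ, l = (v.2 / (v.1 + e * v.2),
        p₀.2 - v.2 / (v.1 + e * v.2) * (p₀.1 + e * p₀.2)) := ⟨_, rfl⟩
      have hsub : T.image (sh e) ⊆ onLine W l := by
        intro p hp
        rw [mem_onLine]
        refine ⟨hTW hp, ?_⟩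
        rw [mem_image] at hp
        obtain ⟨a, ha, rfl⟩ := hp
        obtain ⟨r, hr⟩ := hv a ha
        rw [hr, hl]
        simp only [sh, val, vadd_eq_add, Prod.fst_add, Prod.smul_fst, smul_eq_mul, Prod.snd_add,
          Prod.smul_snd]
        have key : v.2 / (v.1 + e * v.2) * (v.1 + e * v.2) = v.2 := div_mul_cancel₀ _ hv0
        linear_combination (-r) * key
      have h1 := Finset.card_le_card hsub
      rw [hcard, hT3] at h1
      have := hW2 l
      omega
    · have h1 : (P.filter fun p => sh e p ∈ W).image (sh e) = W := by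
        ext p
        rw [mem_image]
        constructor
        · rintro ⟨a, ha, rfl⟩
          exact (mem_filter.mp ha).2
        · intro hp
          obtain ⟨a, ha, rfl⟩ := mem_image.mp (hWP hp)
          exact ⟨a, mem_filter.mpr ⟨ha, hp⟩, rfl⟩
      have h2 := hcard (P.filter fun p => sh e p ∈ W)
      rw [h1] at h2
      rw [← h2]
      rw [hcard] at hWc
      refine le_trans ?_ hWc
      exact mul_le_mul_of_nonneg_right (min_le_left _ _) (Real.sqrt_nonneg _)
  · -- small
    rcases P.eq_empty_or_nonempty with rfl | ⟨x, hx⟩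
    · refine ⟨∅, Finset.Subset.refl _, ?_, ?_⟩
      · intro T hT h3
        rw [Finset.subset_empty.mp hT] at h3
        simp at h3
      · simp
    · refine ⟨{x}, Finset.singleton_subset_iff.mpr hx, ?_, ?_⟩
      · intro T hT h3
        have := Finset.card_le_card hT
        rw [h3, Finset.card_singleton] at this
        omega
      · rw [Finset.card_singleton]
        have h1 : Real.sqrt (P.card : ℝ) ≤ Real.sqrt n₀ :=
          Real.sqrt_le_sqrt (by exact_mod_cast hn.le)
        have h2 : (0 : ℝ) < Real.sqrt n₀ + 1 := by positivity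
        calc min c (1 / (Real.sqrt n₀ + 1)) * Real.sqrt (P.card : ℝ)
            ≤ (1 / (Real.sqrt n₀ + 1)) * Real.sqrt (P.card : ℝ) :=
              mul_le_mul_of_nonneg_right (min_le_right _ _) (Real.sqrt_nonneg _)
          _ ≤ (1 / (Real.sqrt n₀ + 1)) * (Real.sqrt n₀ + 1) :=
              mul_le_mul_of_nonneg_left (by linarith) (by positivity)
          _ = ((1 : ℕ) : ℝ) := by
              rw [Nat.cast_one]
              field_simp

end Pool.Agent.Helper34
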